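import Pool.Agent.Lib.NotG.Stmt

/-!
# NotG.Base (MP_e46137_lc): monotone formulas, local monotone approximation, substitution
-/

namespace NotG

open Pool.Agent.Lib.Pe46137 Pool.Agent.Lib.Pe46137X MonSize

variable {E E' : Type}

/-- monotone formulas over the variables `E` -/
inductive MForm (E : Type) : Type
  | const : Bool → MForm E
  | var : E → MForm E
  | and : MForm E → MForm E → MForm E
  | or : MForm E → MForm E → MForm E

namespace MForm

/-- the value of a formula on the input `X` -/
def Eval : MForm E → Set E → Prop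
  | const b, _ => b = true
  | var e, X => e ∈ X
  | and F F', X => F.Eval X ∧ F'.Eval X
  | or F F', X => F.Eval X ∨ F'.Eval X

/-- number of leaves that carry a variable -/
def leaves : MForm E → ℕ
  | const _ => 0
  | var _ => 1
  | and F F' => F.leaves + F'.leaves
  | or F F' => F.leaves + F'.leaves

/-- largest number of gates between the output and a leaf -/
def depth : MForm E → ℕ
  | const _ => 0
  | var _ => 0
  | and F F' => max F.depth F'.depth + 1
  | or F F' => max F.depth F'.depth + 1

theorem leaves_le (F : MForm E) : F.leaves ≤ 2 ^ F.depth := by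
  induction F with
  | const b => simp [leaves]
  | var e => simp [leaves, depth]
  | and F F' ih ih' =>
    simp only [leaves, depth, pow_succ]
    have h1 := Nat.pow_le_pow_right (n := 2) (by norm_num) (le_max_left F.depth F'.depth)
    have h2 := Nat.pow_le_pow_right (n := 2) (by norm_num) (le_max_right F.depth F'.depth)
    omega
  | or F F' ih ih' =>
    simp only [leaves, depth, pow_succ]
    have h1 := Nat.pow_le_pow_right (n := 2) (by norm_num) (le_max_left F.depth F'.depth)
    have h2 := Nat.pow_le_pow_right (n := 2) (by norm_num) (le_max_right F.depth F'.depth)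
    omega

theorem mono (F : MForm E) {X Y : Set E} (h : X ⊆ Y) : F.Eval X → F.Eval Y := by
  induction F with
  | const b => exact id
  | var e => exact fun h' => h h'
  | and F F' ih ih' => exact fun h' => ⟨ih h'.1, ih' h'.2⟩
  | or F F' ih ih' => exact fun h' => h'.imp ih ih'

end MForm

/-- `f` is computed by a monotone formula with at most `m` leaves -/
def ByForm (m : ℕ) (f : Set E → Prop) : Prop := ∃ F : MForm E, F.leaves ≤ m ∧ ∀ X, f X ↔ F.Eval X

/-- `f` is a disjunction of at least one and at most `W` functions of the class `𝓜` -/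
def OrOf (𝓜 : (Set E → Prop) → Prop) (W : ℕ) (f : Set E → Prop) : Prop :=
  ∃ l : List (Set E → Prop), l ≠ [] ∧ l.length ≤ W ∧ (∀ g ∈ l, 𝓜 g) ∧ ∀ X, f X ↔ ∃ g ∈ l, g X

/-- Local monotone approximation: above each input `X₀` the function `F` is bounded by a disjunction
of at most `W` functions of `𝓜`, with equality as long as the potential does not grow; the potential
is monotone and takes at most `W` values. -/
def Loc (𝓜 : (Set E → Prop) → Prop) (W : ℕ) (F : Set E → Prop) : Prop :=
  ∃ Φ : Set E → ℕ, (∀ X Y, X ⊆ Y → Φ X ≤ Φ Y) ∧ (∀ X, Φ X < W) ∧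
    ∀ X₀, ∃ f, OrOf 𝓜 W f ∧ ∀ X, X₀ ⊆ X → (F X → f X) ∧ (f X → F X ∨ Φ X₀ < Φ X)

theorem OrOf.mono {𝓜 : (Set E → Prop) → Prop} {W W' : ℕ} (h : W ≤ W') {f : Set E → Prop}
    (hf : OrOf 𝓜 W f) : OrOf 𝓜 W' f := by
  obtain ⟨l, h1, h2, h3, h4⟩ := hf
  exact ⟨l, h1, h2.trans h, h3, h4⟩

theorem Loc.mono {𝓜 : (Set E → Prop) → Prop} {W W' : ℕ} (h : W ≤ W') {F : Set E → Prop}
    (hF : Loc 𝓜 W F) : Loc 𝓜 W' F := by
  obtain ⟨Φ, h1, h2, h3⟩ := hF
  refine ⟨Φ, h1, fun X => (h2 X).trans_le h, fun X₀ => ?_⟩
  obtain ⟨f, hf, h4⟩ := h3 X₀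
  exact ⟨f, hf.mono h, h4⟩

/-- the input that gives each variable `x` the constant `b` if `σ x = inl b` and the value of the
variable `e` of `Y` if `σ x = inr e` -/
def pull (σ : E → Bool ⊕ E') (Y : Set E') : Set E :=
  {x | σ x = Sum.inl true ∨ ∃ e ∈ Y, σ x = Sum.inr e}

theorem pull_mono (σ : E → Bool ⊕ E') {Y Y' : Set E'} (h : Y ⊆ Y') : pull σ Y ⊆ pull σ Y' := by
  rintro x (hx | ⟨e, he, hx⟩)
  · exact Or.inl hx
  · exact Or.inr ⟨e, h he, hx⟩

end NotG
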