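import Pool.Agent.Lib.NotG.Base

/-!
# Module NotG.Circ (MP_e46137_lc): circuits with NOT gates are locally monotone

Proof plan.
* `forms X₀ c : List (MForm E)`: the monotone formulas of the gates when every NOT gate is frozen at
  its value at `X₀` (a NOT gate becomes a constant formula of depth 0; formula `i` has depth at most
  `(depths c).getD i 0 ≤ depth c`, hence at most `2 ^ depth c` leaves, `MForm.leaves_le`).
* `cntIn X c j`: number of NOT gates of level `j` whose INPUT is true at `X`; it is at most
  `k j = (notLevels c).count j`. For `X₀ ⊆ X`, if all NOT gates of level `≤ j` have the same value at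
  `X₀` and `X`, then the gates of level `≤ j` satisfy value at `X₀` → value at `X` (induction on `c`),
  hence `cntIn X₀ c (j+1) ≤ cntIn X c (j+1)`, and if equality holds all NOT gates of level `j+1` agree.
* potential (mixed radix, level 1 most significant): `pot 0 = 0`,
  `pot (r+1) = pot r * (k r + 1) + cntIn X c r` for `r < c.length + 1` (`cntIn X c 0 = 0`), so
  `pot < ∏ (k r + 1) = negCost c`, `pot` is monotone in `X`, and `pot X₀ < pot X` if `X₀ ⊆ X` and some
  NOT gate has different values at `X₀` and `X` (first level with a difference).
* `f X`: the output formula, or one of the formulas (`bads`) of the inputs of the NOT gates whose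
  input is FALSE at `X₀`; these are at most `1 + ∑ k j ≤ ∏ (k j + 1)` formulas. For `X₀ ⊆ X`: if none
  of the latter is true at `X`, then all NOT gates have the same value at `X` and `X₀`
  (`agr_of_bads`) and the values are given by the frozen formulas (`val_iff`); if one of them is true
  at `X`, then the values of the NOT gates at `X` and `X₀` are not all equal, so the potential grows.
-/

namespace NotG

variable {E : Type}

namespace CircAux

/-- value of the gate number `i` -/
def val (X : Set E) (c : List (Gate E)) (i : ℕ) : Prop := (values X c).getD i False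

/-- level of the gate number `i` -/
def lv (c : List (Gate E)) (i : ℕ) : ℕ := (levels c).getD i 0

/-- depth of the gate number `i` -/
def dp (c : List (Gate E)) (i : ℕ) : ℕ := (depths c).getD i 0

open Classical in
/-- the formulas of the gates, NOT gates frozen at `X₀` -/
noncomputable def forms (X₀ : Set E) : List (Gate E) → List (MForm E)
  | [] => []
  | Gate.const b :: c => MForm.const b :: forms X₀ c
  | Gate.var e :: c => MForm.var e :: forms X₀ c
  | Gate.and i j :: c => MForm.and ((forms X₀ c).getD i (MForm.const false))
      ((forms X₀ c).getD j (MForm.const false)) :: forms X₀ c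
  | Gate.or i j :: c => MForm.or ((forms X₀ c).getD i (MForm.const false))
      ((forms X₀ c).getD j (MForm.const false)) :: forms X₀ c
  | Gate.not i :: c => MForm.const (decide (¬ val X₀ c i)) :: forms X₀ c

/-- formula of the gate number `i` -/
noncomputable def fm (X₀ : Set E) (c : List (Gate E)) (i : ℕ) : MForm E :=
  (forms X₀ c).getD i (MForm.const false)

open Classical in
/-- number of NOT gates of level `j` whose input is true -/
noncomputable def cntIn (X : Set E) : List (Gate E) → ℕ → ℕ
  | [], _ => 0
  | Gate.const _ :: c, j => cntIn X c j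
  | Gate.var _ :: c, j => cntIn X c j
  | Gate.and _ _ :: c, j => cntIn X c j
  | Gate.or _ _ :: c, j => cntIn X c j
  | Gate.not i :: c, j => (if lv c i + 1 = j ∧ val X c i then 1 else 0) + cntIn X c j

/-- the NOT gates of level at most `r` agree -/
def Agr (X₀ X : Set E) (r : ℕ) : List (Gate E) → Prop
  | [] => True
  | Gate.const _ :: c => Agr X₀ X r c
  | Gate.var _ :: c => Agr X₀ X r c
  | Gate.and _ _ :: c => Agr X₀ X r c
  | Gate.or _ _ :: c => Agr X₀ X r c
  | Gate.not i :: c => (lv c i + 1 ≤ r → (val X₀ c i ↔ val X c i)) ∧ Agr X₀ X r c

open Classical in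
/-- the formulas of the inputs of the NOT gates whose input is false at `X₀` -/
noncomputable def bads (X₀ : Set E) : List (Gate E) → List (MForm E)
  | [] => []
  | Gate.const _ :: c => bads X₀ c
  | Gate.var _ :: c => bads X₀ c
  | Gate.and _ _ :: c => bads X₀ c
  | Gate.or _ _ :: c => bads X₀ c
  | Gate.not i :: c => if val X₀ c i then bads X₀ c else fm X₀ c i :: bads X₀ c

/-- number of NOT gates of level `j` -/
def kk (c : List (Gate E)) (j : ℕ) : ℕ := (notLevels c).count j

/-- the potential -/
noncomputable def pot (X : Set E) (c : List (Gate E)) : ℕ → ℕ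
  | 0 => 0
  | r + 1 => pot X c r * (kk c r + 1) + cntIn X c r

theorem val_nil (X : Set E) (i : ℕ) : ¬ val X [] i := by
  simp [val, values]

theorem dp_le (c : List (Gate E)) (i : ℕ) : dp c i ≤ depth c := by
  unfold dp depth
  generalize depths c = l
  induction l generalizing i with
  | nil => simp
  | cons a l ih =>
    cases i with
    | zero => simp
    | succ i =>
      simp only [List.getD_cons_succ, List.foldr_cons]
      exact (ih i).trans (le_max_right _ _)

theorem depth_cons (g : Gate E) (c : List (Gate E)) : depth c ≤ depth (g :: c) := by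
  unfold depth
  cases g <;> simp only [depths, List.foldr_cons] <;> exact le_max_right _ _

theorem fm_depth (X₀ : Set E) (c : List (Gate E)) (i : ℕ) : (fm X₀ c i).depth ≤ dp c i := by
  induction c generalizing i with
  | nil => simp [fm, forms, MForm.depth]
  | cons g c ih =>
    cases i with
    | zero =>
      cases g with
      | const b => simp [fm, forms, MForm.depth]
      | var e => simp [fm, forms, MForm.depth]
      | and i j =>
        have h1 := ih i
        have h2 := ih j
        simp only [fm, forms, dp, depths, List.getD_cons_zero, MForm.depth] at h1 h2 ⊢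
        exact Nat.add_le_add_right (max_le_max h1 h2) 1
      | or i j =>
        have h1 := ih i
        have h2 := ih j
        simp only [fm, forms, dp, depths, List.getD_cons_zero, MForm.depth] at h1 h2 ⊢
        exact Nat.add_le_add_right (max_le_max h1 h2) 1
      | not i => simp [fm, forms, MForm.depth]
    | succ i =>
      have h1 := ih i
      cases g <;> simpa [fm, forms, dp, depths] using h1

theorem bads_depth (X₀ : Set E) (c : List (Gate E)) : ∀ F ∈ bads X₀ c, F.depth ≤ depth c := by
  classical
  induction c with
  | nil => simp [bads]
  | cons g c ih =>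
    intro F hF
    refine le_trans ?_ (depth_cons g c)
    cases g with
    | const b => exact ih F hF
    | var e => exact ih F hF
    | and i j => exact ih F hF
    | or i j => exact ih F hF
    | not i =>
      unfold bads at hF
      by_cases h : val X₀ c i
      · rw [if_pos h] at hF
        exact ih F hF
      · rw [if_neg h, List.mem_cons] at hF
        rcases hF with rfl | hF
        · exact (fm_depth X₀ c i).trans (dp_le c i)
        · exact ih F hF

theorem lv_le (c : List (Gate E)) (i : ℕ) : lv c i ≤ c.length := by
  induction c generalizing i with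
  | nil => simp [lv, levels]
  | cons g c ih =>
    cases i with
    | zero =>
      cases g with
      | const b => simp [lv, levels]
      | var e => simp [lv, levels]
      | and i j =>
        have h1 := ih i
        have h2 := ih j
        simp only [lv, levels, List.getD_cons_zero, List.length_cons] at h1 h2 ⊢
        exact (max_le h1 h2).trans (Nat.le_succ _)
      | or i j =>
        have h1 := ih i
        have h2 := ih j
        simp only [lv, levels, List.getD_cons_zero, List.length_cons] at h1 h2 ⊢
        exact (max_le h1 h2).trans (Nat.le_succ _)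
      | not i =>
        have h1 := ih i
        simp only [lv, levels, List.getD_cons_zero, List.length_cons] at h1 ⊢
        omega
    | succ i =>
      have h1 := ih i
      cases g <;> simp only [lv, levels, List.getD_cons_succ, List.length_cons] at h1 ⊢ <;> omega

theorem notLevels_lt (c : List (Gate E)) : ∀ j ∈ notLevels c, j < c.length + 1 ∧ 1 ≤ j := by
  induction c with
  | nil => simp [notLevels]
  | cons g c ih =>
    intro j hj
    have key : j ∈ notLevels c → j < (g :: c).length + 1 ∧ 1 ≤ j := fun h => by
      have := ih j h
      simp only [List.length_cons]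
      omega
    cases g with
    | const b => exact key hj
    | var e => exact key hj
    | and i j => exact key hj
    | or i j => exact key hj
    | not i =>
      unfold notLevels at hj
      rw [List.mem_cons] at hj
      rcases hj with rfl | hj
      · have h1 := lv_le c i
        unfold lv at h1
        simp only [List.length_cons]
        omega
      · exact key hj

theorem kk_zero (c : List (Gate E)) : kk c 0 = 0 := by
  unfold kk
  rw [List.count_eq_zero]
  intro h
  have := (notLevels_lt c 0 h).2
  omega

theorem cntIn_le (X : Set E) (c : List (Gate E)) (j : ℕ) : cntIn X c j ≤ kk c j := by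
  classical
  induction c with
  | nil => simp [cntIn]
  | cons g c ih =>
    cases g with
    | const b => exact ih
    | var e => exact ih
    | and i j => exact ih
    | or i j => exact ih
    | not i =>
      unfold kk at ih ⊢
      unfold cntIn notLevels
      rw [List.count_cons]
      have h1 : (if lv c i + 1 = j ∧ val X c i then 1 else 0) ≤
          (if ((levels c).getD i 0 + 1 == j) = true then 1 else 0) := by
        unfold lv
        split_ifs with h2 h3
        · exact le_refl _
        · exact absurd (beq_iff_eq.2 h2.1) h3
        · exact Nat.zero_le _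
        · exact le_refl _
      omega

/-- up to the level of agreement, the values are monotone -/
theorem val_mono {X₀ X : Set E} (h : X₀ ⊆ X) {r : ℕ} (c : List (Gate E)) (hA : Agr X₀ X r c)
    (i : ℕ) (hi : lv c i ≤ r) : val X₀ c i → val X c i := by
  induction c generalizing i with
  | nil => exact fun h' => absurd h' (val_nil X₀ i)
  | cons g c ih =>
    have hA' : Agr X₀ X r c := by
      cases g with
      | not i => exact hA.2
      | _ => exact hA
    cases i with
    | zero =>
      cases g with
      | const b => simp [val, values]
      | var e =>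
        simp only [val, values, List.getD_cons_zero]
        exact fun h' => h h'
      | and i j =>
        have h1 := ih hA' i
        have h2 := ih hA' j
        simp only [val, values, lv, levels, List.getD_cons_zero] at h1 h2 hi ⊢
        exact fun h' => ⟨h1 ((le_max_left _ _).trans hi) h'.1, h2 ((le_max_right _ _).trans hi) h'.2⟩
      | or i j =>
        have h1 := ih hA' i
        have h2 := ih hA' j
        simp only [val, values, lv, levels, List.getD_cons_zero] at h1 h2 hi ⊢
        exact fun h' => h'.imp (h1 ((le_max_left _ _).trans hi)) (h2 ((le_max_right _ _).trans hi))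
      | not i =>
        have h1 := hA.1
        simp only [val, values, lv, levels, List.getD_cons_zero] at h1 hi ⊢
        exact fun h' h'' => h' ((h1 hi).2 h'')
    | succ i =>
      have h1 := ih hA' i
      cases g <;> (simp only [val, values, lv, levels, List.getD_cons_succ] at h1 hi ⊢; exact h1 hi)

theorem agr_zero (X₀ X : Set E) (c : List (Gate E)) : Agr X₀ X 0 c := by
  induction c with
  | nil => trivial
  | cons g c ih =>
    cases g with
    | not i => exact ⟨fun h => by omega, ih⟩
    | _ => exact ih

theorem cntIn_mono {X₀ X : Set E} (h : X₀ ⊆ X) {r : ℕ} (c : List (Gate E)) (hA : Agr X₀ X r c) :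
    cntIn X₀ c (r + 1) ≤ cntIn X c (r + 1) ∧
      (cntIn X₀ c (r + 1) = cntIn X c (r + 1) → Agr X₀ X (r + 1) c) := by
  classical
  induction c with
  | nil => exact ⟨le_refl _, fun _ => trivial⟩
  | cons g c ih =>
    cases g with
    | const b => exact ih hA
    | var e => exact ih hA
    | and i j => exact ih hA
    | or i j => exact ih hA
    | not i =>
      obtain ⟨h1, h2⟩ := ih hA.2
      unfold cntIn
      have h3 : lv c i = r → val X₀ c i → val X c i := fun h' =>
        val_mono h c hA.2 i h'.le
      have h4 : (if lv c i + 1 = r + 1 ∧ val X₀ c i then 1 else 0) ≤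
          (if lv c i + 1 = r + 1 ∧ val X c i then 1 else 0) := by
        split_ifs with h5 h6
        · exact le_refl _
        · exact absurd ⟨h5.1, h3 (by omega) h5.2⟩ h6
        · exact Nat.zero_le _
        · exact le_refl _
      refine ⟨by omega, fun h5 => ⟨fun h6 => ?_, h2 (by omega)⟩⟩
      rcases Nat.lt_or_ge (lv c i) r with h7 | h7
      · exact hA.1 (by omega)
      · have h8 : lv c i + 1 = r + 1 := by omega
        refine ⟨h3 (by omega), fun h9 => ?_⟩
        by_contra h10
        rw [if_neg (fun h11 => h10 h11.2), if_pos ⟨h8, h9⟩] at h5
        omega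

theorem pot_lt (X : Set E) (c : List (Gate E)) (r : ℕ) :
    pot X c r < ∏ j ∈ Finset.range r, (kk c j + 1) := by
  induction r with
  | zero => simp [pot]
  | succ r ih =>
    rw [Finset.prod_range_succ]
    unfold pot
    have h1 := cntIn_le X c r
    have h2 : (pot X c r + 1) * (kk c r + 1) ≤
        (∏ j ∈ Finset.range r, (kk c j + 1)) * (kk c r + 1) := Nat.mul_le_mul_right _ ih
    have h3 : (pot X c r + 1) * (kk c r + 1) = pot X c r * (kk c r + 1) + (kk c r + 1) := by ring
    omega

theorem pot_mono {X₀ X : Set E} (h : X₀ ⊆ X) (c : List (Gate E)) (r : ℕ) :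
    pot X₀ c (r + 1) ≤ pot X c (r + 1) ∧
      (pot X₀ c (r + 1) = pot X c (r + 1) → Agr X₀ X r c) := by
  induction r with
  | zero =>
    have h0 : ∀ Y : Set E, pot Y c 1 = 0 := fun Y => by
      have h1 := cntIn_le Y c 0
      rw [kk_zero] at h1
      simp only [pot]
      omega
    exact ⟨by rw [h0, h0], fun _ => agr_zero X₀ X c⟩
  | succ r ih =>
    obtain ⟨h1, h2⟩ := ih
    have e1 : ∀ Y : Set E, pot Y c (r + 1 + 1) =
      pot Y c (r + 1) * (kk c (r + 1) + 1) + cntIn Y c (r + 1) := fun Y => rfl
    rw [e1, e1]
    rcases h1.lt_or_eq with h3 | h3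
    · have h4 := cntIn_le X₀ c (r + 1)
      have h5 : (pot X₀ c (r + 1) + 1) * (kk c (r + 1) + 1) ≤
          pot X c (r + 1) * (kk c (r + 1) + 1) := Nat.mul_le_mul_right _ h3
      have h6 : (pot X₀ c (r + 1) + 1) * (kk c (r + 1) + 1) =
        pot X₀ c (r + 1) * (kk c (r + 1) + 1) + (kk c (r + 1) + 1) := by ring
      exact ⟨by omega, fun h7 => by omega⟩
    · obtain ⟨h4, h5⟩ := cntIn_mono h c (h2 h3)
      rw [h3]
      exact ⟨by omega, fun h6 => h5 (by omega)⟩

theorem agr_all {X₀ X : Set E} {r : ℕ} (c : List (Gate E)) (hr : c.length ≤ r)
    (hA : Agr X₀ X r c) : ∀ r', Agr X₀ X r' c := by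
  induction c with
  | nil => exact fun _ => trivial
  | cons g c ih =>
    simp only [List.length_cons] at hr
    cases g with
    | not i =>
      intro r'
      have h1 := lv_le c i
      exact ⟨fun _ => hA.1 (by omega), ih (by omega) hA.2 r'⟩
    | _ => exact ih (by omega) hA

/-- the values are given by the frozen formulas -/
theorem val_iff {X₀ X : Set E} (c : List (Gate E)) (hA : ∀ r, Agr X₀ X r c) (i : ℕ) :
    val X c i ↔ (fm X₀ c i).Eval X := by
  classical
  induction c generalizing i with
  | nil => simp [val, values, fm, forms, MForm.Eval]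
  | cons g c ih =>
    have hA' : ∀ r, Agr X₀ X r c := by
      cases g with
      | not i => exact fun r => (hA r).2
      | _ => exact hA
    cases i with
    | zero =>
      cases g with
      | const b => simp [val, values, fm, forms, MForm.Eval]
      | var e => simp [val, values, fm, forms, MForm.Eval]
      | and i j =>
        have h1 := ih hA' i
        have h2 := ih hA' j
        simp only [val, values, fm, forms, List.getD_cons_zero, MForm.Eval] at h1 h2 ⊢
        rw [h1, h2]
      | or i j =>
        have h1 := ih hA' i
        have h2 := ih hA' j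
        simp only [val, values, fm, forms, List.getD_cons_zero, MForm.Eval] at h1 h2 ⊢
        rw [h1, h2]
      | not i =>
        have h1 := (hA (lv c i + 1)).1 (le_refl _)
        simp only [val, values, fm, forms, List.getD_cons_zero, MForm.Eval, decide_eq_true_eq]
          at h1 ⊢
        rw [h1]
    | succ i =>
      have h1 := ih hA' i
      cases g <;> simpa only [val, values, fm, forms, List.getD_cons_succ] using h1

theorem agr_of_bads {X₀ X : Set E} (h : X₀ ⊆ X) (c : List (Gate E))
    (hb : ∀ F ∈ bads X₀ c, ¬ F.Eval X) : ∀ r, Agr X₀ X r c := by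
  classical
  induction c with
  | nil => exact fun _ => trivial
  | cons g c ih =>
    cases g with
    | const b => exact ih hb
    | var e => exact ih hb
    | and i j => exact ih hb
    | or i j => exact ih hb
    | not i =>
      unfold bads at hb
      have h1 : ∀ F ∈ bads X₀ c, ¬ F.Eval X := by
        intro F hF
        refine hb F ?_
        split_ifs
        · exact hF
        · exact List.mem_cons_of_mem _ hF
      have h2 := ih h1
      intro r
      refine ⟨fun _ => ⟨val_mono h c (h2 (lv c i)) i (le_refl _), fun h3 => ?_⟩, h2 r⟩
      by_contra h4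
      rw [if_neg h4] at hb
      exact hb _ List.mem_cons_self ((val_iff c h2 i).1 h3)

theorem not_agr_of_bads {X₀ X : Set E} (c : List (Gate E))
    (hb : ∃ F ∈ bads X₀ c, F.Eval X) : ¬ ∀ r, Agr X₀ X r c := by
  classical
  induction c with
  | nil => simp [bads] at hb
  | cons g c ih =>
    cases g with
    | const b => exact ih hb
    | var e => exact ih hb
    | and i j => exact ih hb
    | or i j => exact ih hb
    | not i =>
      intro hA
      have hA' : ∀ r, Agr X₀ X r c := fun r => (hA r).2
      obtain ⟨F, hF, h1⟩ := hb
      unfold bads at hF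
      by_cases h2 : val X₀ c i
      · rw [if_pos h2] at hF
        exact ih ⟨F, hF, h1⟩ hA'
      · rw [if_neg h2, List.mem_cons] at hF
        rcases hF with rfl | hF
        · exact h2 (((hA (lv c i + 1)).1 (le_refl _)).2 ((val_iff c hA' i).2 h1))
        · exact ih ⟨F, hF, h1⟩ hA'

theorem bads_length (X₀ : Set E) (c : List (Gate E)) :
    (bads X₀ c).length ≤ (notLevels c).length := by
  classical
  induction c with
  | nil => simp [bads]
  | cons g c ih =>
    cases g with
    | const b => exact ih
    | var e => exact ih
    | and i j => exact ih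
    | or i j => exact ih
    | not i =>
      unfold bads notLevels
      split_ifs
      · rw [List.length_cons]
        omega
      · rw [List.length_cons, List.length_cons]
        omega

theorem sum_count (l : List ℕ) (M : ℕ) (hl : ∀ j ∈ l, j < M) :
    ∑ j ∈ Finset.range M, l.count j = l.length := by
  induction l with
  | nil => simp
  | cons a l ih =>
    simp only [List.count_cons, Finset.sum_add_distrib, List.length_cons]
    rw [ih fun j hj => hl j (List.mem_cons_of_mem _ hj)]
    have h1 : ∑ j ∈ Finset.range M, (if (a == j) = true then 1 else 0) = 1 := by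
      simp only [beq_iff_eq]
      rw [Finset.sum_ite_eq, if_pos (Finset.mem_range.2 (hl a List.mem_cons_self))]
    rw [h1]

theorem one_add_sum_le (s : Finset ℕ) (k : ℕ → ℕ) : 1 + ∑ j ∈ s, k j ≤ ∏ j ∈ s, (k j + 1) := by
  classical
  induction s using Finset.induction_on with
  | empty => simp
  | insert a s ha ih =>
    rw [Finset.sum_insert ha, Finset.prod_insert ha]
    have h1 : (k a + 1) * (1 + ∑ j ∈ s, k j) ≤ (k a + 1) * ∏ j ∈ s, (k j + 1) :=
      Nat.mul_le_mul_left _ ih
    have h2 : 1 + (k a + ∑ j ∈ s, k j) ≤ (k a + 1) * (1 + ∑ j ∈ s, k j) := by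
      nlinarith [Nat.zero_le (k a * ∑ j ∈ s, k j)]
    exact h2.trans h1

theorem length_le_negCost (c : List (Gate E)) : 1 + (notLevels c).length ≤ negCost c := by
  rw [← sum_count (notLevels c) (c.length + 1) fun j hj => (notLevels_lt c j hj).1]
  exact one_add_sum_le _ _

end CircAux

open CircAux

theorem circ_loc (c : List (Gate E)) :
    Loc (ByForm (2 ^ depth c)) (negCost c) (Computes c) := by
  classical
  have hpot : ∀ X Y : Set E, X ⊆ Y → pot X c (c.length + 1) ≤ pot Y c (c.length + 1) :=
    fun X Y h => (pot_mono h c c.length).1
  refine ⟨fun X => pot X c (c.length + 1), hpot, fun X => pot_lt X c (c.length + 1), fun X₀ => ?_⟩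
  refine ⟨fun X => (fm X₀ c 0).Eval X ∨ ∃ F ∈ bads X₀ c, F.Eval X, ?_, ?_⟩
  · refine ⟨(fun X => (fm X₀ c 0).Eval X) :: (bads X₀ c).map (fun F X => F.Eval X),
      List.cons_ne_nil _ _, ?_, ?_, ?_⟩
    · rw [List.length_cons, List.length_map]
      have h1 := bads_length X₀ c
      have h2 := length_le_negCost c
      omega
    · intro g hg
      have key : ∀ F : MForm E, F.depth ≤ depth c → ByForm (2 ^ depth c) (fun X => F.Eval X) :=
        fun F hF => ⟨F, F.leaves_le.trans (Nat.pow_le_pow_right (by norm_num) hF),
          fun X => Iff.rfl⟩
      rw [List.mem_cons] at hg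
      rcases hg with rfl | hg
      · exact key _ ((fm_depth X₀ c 0).trans (dp_le c 0))
      · rw [List.mem_map] at hg
        obtain ⟨F, hF, rfl⟩ := hg
        exact key F (bads_depth X₀ c F hF)
    · intro X
      simp only [List.mem_cons, List.mem_map, exists_eq_or_imp]
      constructor
      · rintro (h | ⟨F, hF, h⟩)
        · exact Or.inl h
        · exact Or.inr ⟨_, ⟨F, hF, rfl⟩, h⟩
      · rintro (h | ⟨g, ⟨F, hF, rfl⟩, h⟩)
        · exact Or.inl h
        · exact Or.inr ⟨F, hF, h⟩
  · intro X hX
    by_cases hb : ∃ F ∈ bads X₀ c, F.Eval X
    · refine ⟨fun _ => Or.inr hb, fun _ => Or.inr ?_⟩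
      refine lt_of_le_of_ne (hpot X₀ X hX) fun h => ?_
      exact not_agr_of_bads c hb (agr_all c (le_refl _) ((pot_mono hX c c.length).2 h))
    · have h1 : ∀ F ∈ bads X₀ c, ¬ F.Eval X := fun F hF h => hb ⟨F, hF, h⟩
      have h2 := val_iff c (agr_of_bads hX c h1) 0
      refine ⟨fun h => Or.inl (h2.1 h), fun h => Or.inl ?_⟩
      rcases h with h | h
      · exact h2.2 h
      · exact absurd h hb

/-- with `T` NOT gates the negation cost is at most `2 ^ T` (`k + 1 ≤ 2 ^ k`) -/
theorem negCost_le (c : List (Gate E)) : negCost c ≤ 2 ^ (notLevels c).length := by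
  unfold negCost
  calc ∏ j ∈ Finset.range (c.length + 1), ((notLevels c).count j + 1)
      ≤ ∏ j ∈ Finset.range (c.length + 1), 2 ^ (notLevels c).count j :=
        Finset.prod_le_prod (fun _ _ => Nat.zero_le _) fun j _ => Nat.lt_two_pow_self
    _ = 2 ^ (notLevels c).length := by
        rw [Finset.prod_pow_eq_pow_sum,
          sum_count (notLevels c) (c.length + 1) fun j hj => (notLevels_lt c j hj).1]

end NotG
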