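import Pool.Agent.Lib.NotG.Base

/-!
# NotG.Core (MP_e46137_lc): the chain of levels
-/

namespace NotG

open Finset Classical Pool.Agent.Lib.Pe46137 Pool.Agent.Lib.Pe46137X MonSize

namespace CoreAux

/-- indicator -/
noncomputable def ind (p : Prop) : ℝ := if p then 1 else 0

theorem ind_nonneg (p : Prop) : 0 ≤ ind p := by
  unfold ind
  split_ifs <;> norm_num

theorem ind_mono {p q : Prop} (h : p → q) : ind p ≤ ind q := by
  unfold ind
  split_ifs with h1 h2
  · exact le_rfl
  · exact absurd (h h1) h2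
  · norm_num
  · exact le_rfl

theorem ind_or {p q r : Prop} (h : p → q ∨ r) : ind p ≤ ind q + ind r := by
  by_cases hp : p
  · rcases h hp with h | h
    · have := ind_nonneg r
      have h1 : ind p = 1 := if_pos hp
      have h2 : ind q = 1 := if_pos h
      linarith
    · have := ind_nonneg q
      have h1 : ind p = 1 := if_pos hp
      have h2 : ind r = 1 := if_pos h
      linarith
  · have h1 : ind p = 0 := if_neg hp
    have := ind_nonneg q
    have := ind_nonneg r
    linarith

theorem card_ind {α : Type*} (s : Finset α) (p : α → Prop) :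
    ((s.filter p).card : ℝ) = ∑ x ∈ s, ind (p x) := by
  unfold ind
  rw [card_filter]
  push_cast
  rfl

/-- the value at coordinate `i` can be resampled -/
theorem resample {L : ℕ} {Q : Type} (B : Finset Q) (i : Fin L) (φ : (Fin L → Q) → Q → ℝ)
    (hφ : ∀ C a q, φ (Function.update C i a) q = φ C q) :
    ∑ C ∈ Fintype.piFinset (fun _ : Fin L => B), ∑ q ∈ B, φ C q =
      B.card * ∑ C ∈ Fintype.piFinset (fun _ : Fin L => B), φ C (C i) := by
  obtain ⟨S, hS⟩ : ∃ S, S = Fintype.piFinset (fun _ : Fin L => B) := ⟨_, rfl⟩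
  have hmem : ∀ C, C ∈ S ↔ ∀ j, C j ∈ B := by
    intro C
    rw [hS]
    exact Fintype.mem_piFinset
  rw [← hS]
  have h1 : ∑ C ∈ S, ∑ q ∈ B, φ C q = ∑ z ∈ S ×ˢ B, φ z.1 z.2 := by
    rw [sum_product]
  have h2 : ∑ z ∈ S ×ˢ B, φ z.1 z.2 = ∑ z ∈ S ×ˢ B, φ z.1 (z.1 i) := by
    apply sum_nbij' (fun z => (Function.update z.1 i z.2, z.1 i))
      (fun z => (Function.update z.1 i z.2, z.1 i))
    · rintro ⟨C, q⟩ hz
      rw [mem_product, hmem] at hz ⊢
      refine ⟨fun j => ?_, hz.1 i⟩
      by_cases hj : j = i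
      · subst hj
        simpa using hz.2
      · simpa [Function.update_of_ne hj] using hz.1 j
    · rintro ⟨C, q⟩ hz
      rw [mem_product, hmem] at hz ⊢
      refine ⟨fun j => ?_, hz.1 i⟩
      by_cases hj : j = i
      · subst hj
        simpa using hz.2
      · simpa [Function.update_of_ne hj] using hz.1 j
    · rintro ⟨C, q⟩ _
      simp
    · rintro ⟨C, q⟩ _
      simp
    · rintro ⟨C, q⟩ _
      simp [hφ]
  rw [h1, h2, sum_product, mul_sum]
  apply sum_congr rfl
  intro C _
  simp

/-- the digraphs before the `k`-th are given by `G`, the others are empty -/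
def pre {L n : ℕ} (G : Fin L → Set (Fin n × Fin n)) (k : ℕ) : Set (Var L n) :=
  {x | x.1.val < k ∧ x.2 ∈ G x.1}

theorem pre_mono {L n : ℕ} (G : Fin L → Set (Fin n × Fin n)) {k k' : ℕ} (h : k ≤ k') :
    pre G k ⊆ pre G k' := fun _ hx => ⟨lt_of_lt_of_le hx.1 h, hx.2⟩

theorem level_empty {L n : ℕ} (i : Fin L) (G : Fin L → Set (Fin n × Fin n)) :
    level i G ∅ = pre G i.val := by
  ext x
  constructor
  · rintro (h | h)
    · exact ⟨h.1, h.2⟩
    · exact h.2.elim
  · intro h
    exact Or.inl ⟨h.1, h.2⟩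

theorem level_self {L n : ℕ} (i : Fin L) (G : Fin L → Set (Fin n × Fin n)) :
    level i G (G i) = pre G (i.val + 1) := by
  ext x
  constructor
  · rintro (h | h)
    · exact ⟨Nat.lt_succ_of_lt h.1, h.2⟩
    · refine ⟨by rw [h.1]; exact Nat.lt_succ_self _, ?_⟩
      rw [h.1]
      exact h.2
  · rintro ⟨h1, h2⟩
    rcases Nat.lt_succ_iff_lt_or_eq.1 h1 with h | h
    · exact Or.inl ⟨h, h2⟩
    · have h3 : x.1 = i := Fin.ext h
      exact Or.inr ⟨h3, by rw [h3] at h2; exact h2⟩

theorem level_mono {L n : ℕ} (i : Fin L) (G : Fin L → Set (Fin n × Fin n))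
    {H H' : Set (Fin n × Fin n)} (h : H ⊆ H') : level i G H ⊆ level i G H' := by
  rintro x (hx | hx)
  · exact Or.inl hx
  · exact Or.inr ⟨hx.1, h hx.2⟩

theorem level_congr {L n : ℕ} (i : Fin L) {G G' : Fin L → Set (Fin n × Fin n)}
    (h : ∀ j < i, G j = G' j) (H : Set (Fin n × Fin n)) : level i G H = level i G' H := by
  ext x
  constructor
  · rintro (hx | hx)
    · exact Or.inl ⟨hx.1, by rw [← h _ hx.1]; exact hx.2⟩
    · exact Or.inr hx
  · rintro (hx | hx)
    · exact Or.inl ⟨hx.1, by rw [h _ hx.1]; exact hx.2⟩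
    · exact Or.inr hx

/-- a monotone potential with at most `W` values grows at most `W - 1` times along a chain -/
theorem grow {Φ : ℕ → ℕ} (hmono : ∀ k, Φ k ≤ Φ (k + 1)) (L : ℕ) :
    ∑ k ∈ range L, ind (Φ k < Φ (k + 1)) ≤ (Φ L : ℝ) - Φ 0 := by
  induction L with
  | zero => simp
  | succ L ih =>
    rw [sum_range_succ]
    have h1 : ind (Φ L < Φ (L + 1)) ≤ (Φ (L + 1) : ℝ) - Φ L := by
      unfold ind
      split_ifs with h
      · have : (Φ L : ℝ) + 1 ≤ Φ (L + 1) := by exact_mod_cast h
        linarith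
      · have : (Φ L : ℝ) ≤ Φ (L + 1) := by exact_mod_cast hmono L
        linarith
    linarith

end CoreAux

open CoreAux

theorem core {L n : ℕ} {P Q : Type} {A : Finset P} {B : Finset Q} (hA : A.Nonempty)
    (hB : B.Nonempty) (g : P → Set (Fin n × Fin n)) (h : Q → Set (Fin n × Fin n))
    {𝓜 : (Set (Var L n) → Prop) → Prop} {W : ℕ} {F : Set (Var L n) → Prop} (hF : Loc 𝓜 W F)
    {δ : ℝ} (hδ : ∀ f, OrOf 𝓜 W f → ∀ (i : Fin L) (G : Fin L → Set (Fin n × Fin n)),
      ((A.filter (fun p => f (level i G (g p)))).card : ℝ) / A.card -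
        ((B.filter (fun q => f (level i G (h q)))).card : ℝ) / B.card ≤ δ) :
    ∑ i : Fin L,
      ((((Fintype.piFinset (fun _ : Fin L => B) ×ˢ A).filter
          (fun z => F (level i (fun j => h (z.1 j)) (g z.2)))).card : ℝ) /
        (Fintype.piFinset (fun _ : Fin L => B) ×ˢ A).card -
      (((Fintype.piFinset (fun _ : Fin L => B)).filter
          (fun C => F (level i (fun j => h (C j)) (h (C i))))).card : ℝ) /
        (Fintype.piFinset (fun _ : Fin L => B)).card) ≤ L * δ + (W - 1) := by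
  obtain ⟨S, hS⟩ : ∃ S, S = Fintype.piFinset (fun _ : Fin L => B) := ⟨_, rfl⟩
  have hSne : S.Nonempty := by
    obtain ⟨b, hb⟩ := hB
    exact ⟨fun _ => b, by rw [hS]; exact Fintype.mem_piFinset.2 fun _ => hb⟩
  have hS0 : (0 : ℝ) < S.card := by exact_mod_cast card_pos.2 hSne
  have hA0 : (0 : ℝ) < A.card := by exact_mod_cast card_pos.2 hA
  have hB0 : (0 : ℝ) < B.card := by exact_mod_cast card_pos.2 hB
  obtain ⟨Φ, hmono, hW, hloc⟩ := hF
  choose f hf hf' using hloc
  rw [← hS]
  -- one level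
  have key : ∀ i : Fin L,
      (((S ×ˢ A).filter (fun z => F (level i (fun j => h (z.1 j)) (g z.2)))).card : ℝ) /
        (S ×ˢ A).card -
      ((S.filter (fun C => F (level i (fun j => h (C j)) (h (C i))))).card : ℝ) / S.card ≤
      δ + (∑ C ∈ S, ind (Φ (pre (fun j => h (C j)) i.val) <
        Φ (pre (fun j => h (C j)) (i.val + 1)))) / S.card := by
    intro i
    obtain ⟨X₀, hX₀⟩ : ∃ X₀ : (Fin L → Q) → Set (Var L n),
      X₀ = fun C => level i (fun j => h (C j)) ∅ := ⟨_, rfl⟩
    have e1 : (((S ×ˢ A).filter (fun z => F (level i (fun j => h (z.1 j)) (g z.2)))).card : ℝ) =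
        ∑ C ∈ S, ∑ p ∈ A, ind (F (level i (fun j => h (C j)) (g p))) := by
      rw [card_ind, sum_product]
    have e2 : ∑ C ∈ S, ∑ p ∈ A, ind (F (level i (fun j => h (C j)) (g p))) ≤
        ∑ C ∈ S, ∑ p ∈ A, ind (f (X₀ C) (level i (fun j => h (C j)) (g p))) := by
      refine sum_le_sum fun C _ => sum_le_sum fun p _ => ind_mono fun hFp => ?_
      refine (hf' (X₀ C) _ ?_).1 hFp
      rw [hX₀]
      exact level_mono _ _ (Set.empty_subset _)
    have e3 : ∀ C ∈ S, ∑ p ∈ A, ind (f (X₀ C) (level i (fun j => h (C j)) (g p))) ≤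
        A.card * ((∑ q ∈ B, ind (f (X₀ C) (level i (fun j => h (C j)) (h q)))) / B.card + δ) := by
      intro C _
      have h1 := hδ (f (X₀ C)) (hf _) i (fun j => h (C j))
      rw [card_ind, card_ind] at h1
      have h2 : (∑ p ∈ A, ind (f (X₀ C) (level i (fun j => h (C j)) (g p)))) / A.card ≤
          (∑ q ∈ B, ind (f (X₀ C) (level i (fun j => h (C j)) (h q)))) / B.card + δ := by
        linarith
      rw [div_le_iff₀ hA0] at h2
      linarith
    have e4 : ∑ C ∈ S, ∑ q ∈ B, ind (f (X₀ C) (level i (fun j => h (C j)) (h q))) =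
        B.card * ∑ C ∈ S, ind (f (X₀ C) (level i (fun j => h (C j)) (h (C i)))) := by
      rw [hS]
      refine resample B i (fun C q => ind (f (X₀ C) (level i (fun j => h (C j)) (h q)))) ?_
      intro C a q
      have h1 : ∀ j < i, (fun j => h (Function.update C i a j)) j = (fun j => h (C j)) j := by
        intro j hj
        simp [Function.update_of_ne hj.ne]
      have h2 : X₀ (Function.update C i a) = X₀ C := by
        rw [hX₀]
        exact level_congr i h1 ∅
      beta_reduce
      rw [h2, level_congr i h1 (h q)]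
    have e5 : ∑ C ∈ S, ind (f (X₀ C) (level i (fun j => h (C j)) (h (C i)))) ≤
        ∑ C ∈ S, ind (F (level i (fun j => h (C j)) (h (C i)))) +
        ∑ C ∈ S, ind (Φ (pre (fun j => h (C j)) i.val) <
          Φ (pre (fun j => h (C j)) (i.val + 1))) := by
      rw [← sum_add_distrib]
      refine sum_le_sum fun C _ => ind_or fun hfC => ?_
      have h1 := (hf' (X₀ C) (level i (fun j => h (C j)) (h (C i))) (by
        rw [hX₀]
        exact level_mono _ _ (Set.empty_subset _))).2 hfC
      rcases h1 with h1 | h1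
      · exact Or.inl h1
      · right
        rw [hX₀] at h1
        beta_reduce at h1
        rw [level_empty, level_self i (fun j => h (C j))] at h1
        exact h1
    have e6 : ∑ C ∈ S, ∑ p ∈ A, ind (f (X₀ C) (level i (fun j => h (C j)) (g p))) ≤
        A.card * ((∑ C ∈ S, ∑ q ∈ B, ind (f (X₀ C) (level i (fun j => h (C j)) (h q)))) / B.card +
          S.card * δ) := by
      refine (sum_le_sum e3).trans (le_of_eq ?_)
      rw [← mul_sum, sum_add_distrib, ← sum_div, sum_const, nsmul_eq_mul]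
    rw [e4, mul_div_cancel_left₀ _ hB0.ne'] at e6
    rw [e1, card_product, card_ind]
    push_cast
    have e7 : ∑ C ∈ S, ∑ p ∈ A, ind (F (level i (fun j => h (C j)) (g p))) ≤
        (S.card * A.card) * (δ + (∑ C ∈ S, ind (F (level i (fun j => h (C j)) (h (C i))))) / S.card +
        (∑ C ∈ S, ind (Φ (pre (fun j => h (C j)) i.val) <
          Φ (pre (fun j => h (C j)) (i.val + 1)))) / S.card) := by
      refine (e2.trans e6).trans ?_
      have h1 := mul_le_mul_of_nonneg_left e5 hA0.le
      have h2 : (S.card * A.card : ℝ) * (δ +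
        (∑ C ∈ S, ind (F (level i (fun j => h (C j)) (h (C i))))) / S.card +
        (∑ C ∈ S, ind (Φ (pre (fun j => h (C j)) i.val) <
          Φ (pre (fun j => h (C j)) (i.val + 1)))) / S.card) =
          A.card * ((∑ C ∈ S, ind (F (level i (fun j => h (C j)) (h (C i)))) +
          ∑ C ∈ S, ind (Φ (pre (fun j => h (C j)) i.val) <
          Φ (pre (fun j => h (C j)) (i.val + 1)))) + S.card * δ) := by
        field_simp
        ring
      rw [h2]
      linarith
    have e8 : (∑ C ∈ S, ∑ p ∈ A, ind (F (level i (fun j => h (C j)) (g p)))) /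
        (S.card * A.card) ≤ δ +
        (∑ C ∈ S, ind (F (level i (fun j => h (C j)) (h (C i))))) / S.card +
        (∑ C ∈ S, ind (Φ (pre (fun j => h (C j)) i.val) <
          Φ (pre (fun j => h (C j)) (i.val + 1)))) / S.card := by
      rw [div_le_iff₀ (by positivity)]
      linarith
    linarith
  refine (sum_le_sum fun i _ => key i).trans ?_
  rw [sum_add_distrib, sum_const, card_univ, Fintype.card_fin, nsmul_eq_mul, ← sum_div, sum_comm]
  have hsum : ∀ C ∈ S, ∑ i : Fin L, ind (Φ (pre (fun j => h (C j)) i.val) <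
      Φ (pre (fun j => h (C j)) (i.val + 1))) ≤ (W : ℝ) - 1 := by
    intro C _
    rw [Fin.sum_univ_eq_sum_range (fun k => ind (Φ (pre (fun j => h (C j)) k) <
      Φ (pre (fun j => h (C j)) (k + 1)))) L]
    refine (grow (Φ := fun k => Φ (pre (fun j => h (C j)) k))
      (fun k => hmono _ _ (pre_mono _ (Nat.le_succ k))) L).trans ?_
    have h1 : (Φ (pre (fun j => h (C j)) L) : ℝ) + 1 ≤ W := by
      exact_mod_cast hW _
    have h2 : (0 : ℝ) ≤ Φ (pre (fun j => h (C j)) 0) := Nat.cast_nonneg _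
    linarith
  have h3 : (∑ C ∈ S, ∑ i : Fin L, ind (Φ (pre (fun j => h (C j)) i.val) <
      Φ (pre (fun j => h (C j)) (i.val + 1)))) / S.card ≤ (W : ℝ) - 1 := by
    rw [div_le_iff₀ hS0]
    refine (sum_le_sum hsum).trans (le_of_eq ?_)
    rw [sum_const, nsmul_eq_mul]
    ring
  linarith

end NotG
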