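import Pool.Agent.Lib.NotG.Base

/-!
# Module NotG.Embed (MP_e46137_lc): `K` digraphs on `n'` vertices inside one digraph on `n` vertices

The `K` digraphs are glued at `s` and `t`; arcs between `s` and `t` and loops at `s`, `t` are dropped.
* `K * n' ≤ n` gives a map `ι : Fin K → Fin n' → Fin n` with `ι k s' = s`, `ι k t' = t`,
  `ι k w ≠ s, t` for the inner vertices `w ≠ s', t'`, injective on the pairs `(k, w)`, `w` inner
  (there are `K * (n' - 2) ≤ n - 2` of them).
* `σ (i, (u, v)) = inr ((i, k), (w, w'))` if `u = ι k w`, `v = ι k w'` and not both `w`, `w'` are in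
  `{s', t'}` (then `k, w, w'` are unique), `inl false` otherwise; `Fin (L * K)` is `Fin L × Fin K` by
  `finProdFinEquiv`.
* unreachable: if `t'` is unreachable from `s'` in all digraphs, every vertex reachable from `s` in
  the glued digraph is `ι k w` with `w` reachable from `s'` in the digraph `(i, k)`.
* a walk inside the digraph `(i, k)` without arcs inside `{s', t'}` is mapped by `ι k`.
-/

namespace NotG

open Pool.Agent.Lib.Pe46137 Pool.Agent.Lib.Pe46137X MonSize

namespace EmbedAux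

theorem exists_iota {n n' K : ℕ} {s t : Fin n} {s' t' : Fin n'} (hst : s ≠ t) (hst' : s' ≠ t')
    (hK : 1 ≤ K) (hn : K * n' ≤ n) :
    ∃ ι : Fin K → Fin n' → Fin n, (∀ k, ι k s' = s) ∧ (∀ k, ι k t' = t) ∧
      (∀ k w, ι k w = s → w = s') ∧ (∀ k w, ι k w = t → w = t') ∧
      ∀ k w k₂ w₂, ι k w = ι k₂ w₂ → w = w₂ ∧ (w = s' ∨ w = t' ∨ k = k₂) := by
  classical
  have hcard : Fintype.card (Fin K × {w : Fin n' // w ≠ s' ∧ w ≠ t'}) ≤
      Fintype.card {x : Fin n // x ≠ s ∧ x ≠ t} := by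
    have h1 : ∀ {m : ℕ} {a b : Fin m}, a ≠ b → Fintype.card {x : Fin m // x ≠ a ∧ x ≠ b} = m - 2 := by
      intro m a b hab
      rw [Fintype.card_subtype]
      have h2 : (Finset.univ.filter fun x : Fin m => x ≠ a ∧ x ≠ b) = Finset.univ \ {a, b} := by
        ext x
        simp
      rw [h2, Finset.card_sdiff_of_subset (Finset.subset_univ _), Finset.card_univ, Fintype.card_fin,
        Finset.card_pair hab]
    rw [Fintype.card_prod, Fintype.card_fin, h1 hst', h1 hst, Nat.mul_sub]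
    omega
  obtain ⟨e⟩ := Function.Embedding.nonempty_of_card_le hcard
  refine ⟨fun k w => if h : w ≠ s' ∧ w ≠ t' then (e (k, ⟨w, h⟩)).1 else if w = s' then s else t,
    ?_, ?_, ?_, ?_, ?_⟩
  · intro k
    simp
  · intro k
    simp [hst'.symm]
  · intro k w
    by_cases h : w ≠ s' ∧ w ≠ t'
    · simp only [h, ne_eq, not_false_eq_true, and_self, dite_true]
      intro h1
      exact absurd h1 (e (k, ⟨w, h⟩)).2.1
    · simp only [h, dite_false]
      by_cases h2 : w = s'
      · exact fun _ => h2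
      · rw [if_neg h2]
        intro h3
        exact absurd h3.symm hst
  · intro k w
    by_cases h : w ≠ s' ∧ w ≠ t'
    · simp only [h, ne_eq, not_false_eq_true, and_self, dite_true]
      intro h1
      exact absurd h1 (e (k, ⟨w, h⟩)).2.2
    · simp only [h, dite_false]
      by_cases h2 : w = s'
      · rw [if_pos h2]
        intro h3
        exact absurd h3 hst
      · intro _
        by_contra h3
        exact h ⟨h2, h3⟩
  · intro k w k₂ w₂
    beta_reduce
    by_cases h : w ≠ s' ∧ w ≠ t' <;> by_cases h' : w₂ ≠ s' ∧ w₂ ≠ t'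
    · rw [dif_pos h, dif_pos h']
      intro h1
      have h2 := e.injective (Subtype.ext h1)
      rw [Prod.mk.injEq, Subtype.mk.injEq] at h2
      exact ⟨h2.2, Or.inr (Or.inr h2.1)⟩
    · rw [dif_pos h, dif_neg h']
      intro h1
      have h3 := (e (k, ⟨w, h⟩)).2
      by_cases h2 : w₂ = s'
      · rw [if_pos h2] at h1
        exact absurd h1 h3.1
      · rw [if_neg h2] at h1
        exact absurd h1 h3.2
    · rw [dif_neg h, dif_pos h']
      intro h1
      have h3 := (e (k₂, ⟨w₂, h'⟩)).2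
      by_cases h2 : w = s'
      · rw [if_pos h2] at h1
        exact absurd h1.symm h3.1
      · rw [if_neg h2] at h1
        exact absurd h1.symm h3.2
    · rw [dif_neg h, dif_neg h']
      intro h1
      have h3 : w = s' ∨ w = t' := by tauto
      have h4 : w₂ = s' ∨ w₂ = t' := by tauto
      rcases h3 with rfl | rfl <;> rcases h4 with rfl | rfl
      · exact ⟨rfl, Or.inl rfl⟩
      · rw [if_pos rfl, if_neg hst'.symm] at h1
        exact absurd h1 hst
      · rw [if_pos rfl, if_neg hst'.symm] at h1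
        exact absurd h1.symm hst
      · exact ⟨rfl, Or.inr (Or.inl rfl)⟩

/-- the variable `x` is given by the variable `y` -/
def Rel {n n' L K : ℕ} (s' t' : Fin n') (ι : Fin K → Fin n' → Fin n) (x : Var L n)
    (y : Var (L * K) n') : Prop :=
  ∃ k, y.1 = finProdFinEquiv (x.1, k) ∧ x.2.1 = ι k y.2.1 ∧ x.2.2 = ι k y.2.2 ∧
    ¬ ((y.2.1 = s' ∨ y.2.1 = t') ∧ (y.2.2 = s' ∨ y.2.2 = t'))

end EmbedAux

open EmbedAux

theorem embed {n n' L K : ℕ} {s t : Fin n} {s' t' : Fin n'} (hst : s ≠ t) (hst' : s' ≠ t')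
    (hK : 1 ≤ K) (hn : K * n' ≤ n) :
    ∃ σ : Var L n → Bool ⊕ Var (L * K) n', ∀ Y : Set (Var (L * K) n'),
      ((∀ j, Undirected (graph Y j)) → ∀ i, Undirected (graph (pull σ Y) i)) ∧
      ((∀ j, ¬ Reachable (graph Y j) s' t') → ∀ i, ¬ Reachable (graph (pull σ Y) i) s t) ∧
      ∀ ℓ, (∃ j, Within {e | e ∈ graph Y j ∧
          ¬ ((e.1 = s' ∨ e.1 = t') ∧ (e.2 = s' ∨ e.2 = t'))} s' t' ℓ) →
        ∃ i, Within (graph (pull σ Y) i) s t ℓ := by
  classical
  obtain ⟨ι, hs, ht, hs1, ht1, hinj⟩ := exists_iota hst hst' hK hn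
  have huniq : ∀ (x : Var L n) (y y' : Var (L * K) n'), Rel s' t' ι x y → Rel s' t' ι x y' →
      y = y' := by
    rintro ⟨i, u, v⟩ ⟨j, w, w'⟩ ⟨j₂, w₂, w₂'⟩ ⟨k, h1, h2, h3, h4⟩ ⟨k₂, g1, g2, g3, g4⟩
    simp only at h1 h2 h3 h4 g1 g2 g3 g4
    obtain ⟨e1, e2⟩ := hinj k w k₂ w₂ (h2.symm.trans g2)
    obtain ⟨e3, e4⟩ := hinj k w' k₂ w₂' (h3.symm.trans g3)
    have hk : k = k₂ := by
      by_contra hk
      apply h4
      refine ⟨?_, ?_⟩
      · tauto
      · tauto
    subst hk
    rw [h1, g1, e1, e3]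
  refine ⟨fun x => if h : ∃ y, Rel s' t' ι x y then Sum.inr h.choose else Sum.inl false, ?_⟩
  intro Y
  have hpull : ∀ x, x ∈ pull (fun x : Var L n => if h : ∃ y, Rel s' t' ι x y then
      (Sum.inr h.choose : Bool ⊕ Var (L * K) n') else Sum.inl false) Y ↔
      ∃ y ∈ Y, Rel s' t' ι x y := by
    intro x
    constructor
    · rintro (h | ⟨y, hy, h⟩)
      · simp only at h
        split_ifs at h with h1
        simp at h
      · simp only at h
        split_ifs at h with h1
        · rw [Sum.inr.injEq] at h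
          exact ⟨y, hy, h ▸ h1.choose_spec⟩
    · rintro ⟨y, hy, h⟩
      right
      refine ⟨y, hy, ?_⟩
      have h1 : ∃ y, Rel s' t' ι x y := ⟨y, h⟩
      simp only [dif_pos h1]
      rw [huniq x _ _ h1.choose_spec h]
  refine ⟨?_, ?_, ?_⟩
  · intro hU i a b hab
    have hab' := (hpull (i, (a, b))).1 hab
    obtain ⟨⟨j, w, w'⟩, hy, k, h1, h2, h3, h4⟩ := hab'
    refine (hpull (i, (b, a))).2 ⟨(j, (w', w)), hU j w w' hy, k, h1, h3, h2, ?_⟩
    simp only at h4 ⊢
    tauto
  · intro hR i hr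
    have key : ∀ x, Relation.ReflTransGen (fun a b => (a, b) ∈ graph
        (pull (fun x : Var L n => if h : ∃ y, Rel s' t' ι x y then
          (Sum.inr h.choose : Bool ⊕ Var (L * K) n') else Sum.inl false) Y) i) s x →
        ∃ k w, x = ι k w ∧ Reachable (graph Y (finProdFinEquiv (i, k))) s' w := by
      intro x hx
      induction hx with
      | refl => exact ⟨⟨0, hK⟩, s', (hs _).symm, Relation.ReflTransGen.refl⟩
      | tail _ hbc ih =>
        obtain ⟨k, w, hxw, hw⟩ := ih
        obtain ⟨⟨j, w₁, w₁'⟩, hy, k₁, h1, h2, h3, h4⟩ := (hpull _).1 hbc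
        simp only at h1 h2 h3 h4
        obtain ⟨e1, e2⟩ := hinj k w k₁ w₁ (hxw.symm.trans h2)
        refine ⟨k₁, w₁', h3, ?_⟩
        have hedge : (w₁, w₁') ∈ graph Y (finProdFinEquiv (i, k₁)) := by
          rw [← h1]; exact hy
        rcases e2 with e2 | e2 | e2
        · have : w₁ = s' := by rw [← e1, e2]
          rw [this] at hedge
          exact Relation.ReflTransGen.single hedge
        · rw [e2] at hw
          exact absurd hw (hR _)
        · subst e2
          rw [e1] at hw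
          exact Relation.ReflTransGen.tail hw hedge
    obtain ⟨k, w, h1, h2⟩ := key t hr
    have h3 := ht1 k w h1.symm
    rw [h3] at h2
    exact hR _ h2
  · rintro ℓ ⟨j, hj⟩
    obtain ⟨⟨i, k⟩, rfl⟩ := finProdFinEquiv.surjective j
    refine ⟨i, ?_⟩
    obtain ⟨r, hr, w, hw0, hwr, hw⟩ := hj
    refine ⟨r, hr, fun m => ι k (w m), ?_, ?_, ?_⟩
    · beta_reduce; rw [hw0, hs]
    · beta_reduce; rw [hwr, ht]
    · intro m hm
      obtain ⟨hab, hn⟩ := hw m hm
      exact (hpull _).2 ⟨(finProdFinEquiv (i, k), (w m, w (m + 1))), hab, k, rfl, rfl, rfl, hn⟩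

end NotG
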