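import Pool.Agent.Lib.NotG.Base

/-!
# NotG.FLoc (MP_e46137_lc): formulas with NOT gates are locally monotone

A formula with `T ≥ 1` NOT gates is determined by at most `5 T - 2` monotone formulas which are not
larger (compare Guo and Komargodski).
-/

namespace NotG

open Finset Classical

variable {E : Type}

namespace FLocAux

/-- `H` is determined by the values of the functions in the list -/
def Det (l : List (Set E → Prop)) (H : Set E → Prop) : Prop :=
  ∀ X Y, (∀ g ∈ l, g X ↔ g Y) → (H X ↔ H Y)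

theorem Det.mono {l l' : List (Set E → Prop)} (h : ∀ g ∈ l, g ∈ l') {H : Set E → Prop}
    (hd : Det l H) : Det l' H := fun X Y hXY => hd X Y fun g hg => hXY g (h g hg)

/-- normal form: a monotone context around `H` -/
def Nf (m T : ℕ) (F : Set E → Prop) : Prop :=
  (T = 0 → ByForm m F) ∧
  (1 ≤ T → ∃ K₀ K₁ H : Set E → Prop, ByForm m K₀ ∧ ByForm m K₁ ∧
    (∀ X, F X ↔ K₀ X ∨ (K₁ X ∧ H X)) ∧
    ∃ l : List (Set E → Prop), l.length + 4 ≤ 5 * T ∧ (∀ g ∈ l, ByForm m g) ∧ Det l H)

theorem ByForm.mono' {m m' : ℕ} (h : m ≤ m') {f : Set E → Prop} (hf : ByForm m f) :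
    ByForm m' f := by
  obtain ⟨F, h1, h2⟩ := hf
  exact ⟨F, h1.trans h, h2⟩

theorem byForm_const (m : ℕ) (b : Bool) : ByForm m (fun _ : Set E => b = true) :=
  ⟨MForm.const b, Nat.zero_le _, fun _ => Iff.rfl⟩

theorem byForm_and {m m' : ℕ} {f g : Set E → Prop} (hf : ByForm m f) (hg : ByForm m' g) :
    ByForm (m + m') (fun X => f X ∧ g X) := by
  obtain ⟨F, h1, h2⟩ := hf
  obtain ⟨G, h3, h4⟩ := hg
  exact ⟨MForm.and F G, Nat.add_le_add h1 h3, fun X => and_congr (h2 X) (h4 X)⟩

theorem byForm_or' {m m' : ℕ} {f g : Set E → Prop} (hf : ByForm m f) (hg : ByForm m' g) :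
    ByForm (m + m') (fun X => f X ∨ g X) := by
  obtain ⟨F, h1, h2⟩ := hf
  obtain ⟨G, h3, h4⟩ := hg
  exact ⟨MForm.or F G, Nat.add_le_add h1 h3, fun X => or_congr (h2 X) (h4 X)⟩

/-- all formulas that determine `F` -/
theorem Nf.det {m T : ℕ} {F : Set E → Prop} (h : Nf m T F) :
    ∃ l : List (Set E → Prop), (T = 0 → l.length = 1) ∧ (1 ≤ T → l.length + 2 ≤ 5 * T) ∧
      (∀ g ∈ l, ByForm m g) ∧ Det l F := by
  rcases Nat.eq_zero_or_pos T with hT | hT
  · refine ⟨[F], fun _ => rfl, fun h => by omega, ?_, ?_⟩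
    · intro g hg
      rw [List.mem_singleton] at hg
      rw [hg]
      exact h.1 hT
    · intro X Y hXY
      exact hXY F (List.mem_singleton_self F)
  · obtain ⟨K₀, K₁, H, h0, h1, h2, l, h3, h4, h5⟩ := h.2 hT
    refine ⟨K₀ :: K₁ :: l, fun h => by omega, fun _ => ?_, ?_, ?_⟩
    · simp only [List.length_cons]
      omega
    · intro g hg
      rw [List.mem_cons, List.mem_cons] at hg
      rcases hg with rfl | rfl | hg
      · exact h0
      · exact h1
      · exact h4 g hg
    · intro X Y hXY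
      rw [h2, h2]
      have e1 := hXY K₀ (by simp)
      have e2 := hXY K₁ (by simp)
      have e3 := h5 X Y fun g hg => hXY g (by simp [hg])
      rw [e1, e2, e3]

theorem nf_wrap {m T : ℕ} {F : Set E → Prop} {l : List (Set E → Prop)} (hT : 1 ≤ T)
    (h1 : l.length + 4 ≤ 5 * T) (h2 : ∀ g ∈ l, ByForm m g) (h3 : Det l F) : Nf m T F := by
  refine ⟨fun h => by omega, fun _ => ⟨fun _ => false = true, fun _ => true = true, F,
    byForm_const m false, byForm_const m true, fun X => ?_, l, h1, h2, h3⟩⟩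
  simp

theorem nf_both {m m' T T' : ℕ} {A B F : Set E → Prop} (hA : Nf m T A) (hB : Nf m' T' B)
    (hT : 1 ≤ T) (hT' : 1 ≤ T') (hF : ∀ X Y, (A X ↔ A Y) → (B X ↔ B Y) → (F X ↔ F Y)) :
    Nf (m + m') (T + T') F := by
  obtain ⟨l, -, h1, h2, h3⟩ := hA.det
  obtain ⟨l', -, h1', h2', h3'⟩ := hB.det
  have e1 := h1 hT
  have e2 := h1' hT'
  refine nf_wrap (l := l ++ l') (by omega) ?_ ?_ ?_
  · rw [List.length_append]
    omega
  · intro g hg
    rw [List.mem_append] at hg
    rcases hg with hg | hg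
    · exact ByForm.mono' (Nat.le_add_right _ _) (h2 g hg)
    · exact ByForm.mono' (Nat.le_add_left _ _) (h2' g hg)
  · intro X Y hXY
    exact hF X Y (h3 X Y fun g hg => hXY g (List.mem_append_left _ hg))
      (h3' X Y fun g hg => hXY g (List.mem_append_right _ hg))

theorem nf_and {m m' T T' : ℕ} {A B : Set E → Prop} (hA : Nf m T A) (hB : Nf m' T' B) :
    Nf (m + m') (T + T') (fun X => A X ∧ B X) := by
  rcases Nat.eq_zero_or_pos T with hT | hT
  · rcases Nat.eq_zero_or_pos T' with hT' | hT'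
    · exact ⟨fun _ => byForm_and (hA.1 hT) (hB.1 hT'), fun h => by omega⟩
    · obtain ⟨K₀, K₁, H, h0, h1, h2, l, h3, h4, h5⟩ := hB.2 hT'
      refine ⟨fun h => by omega, fun _ => ⟨fun X => A X ∧ K₀ X, fun X => A X ∧ K₁ X, H,
        byForm_and (hA.1 hT) h0, byForm_and (hA.1 hT) h1, fun X => ?_, l, by omega,
        fun g hg => ByForm.mono' (Nat.le_add_left _ _) (h4 g hg), h5⟩⟩
      have := h2 X
      beta_reduce
      tauto
  · rcases Nat.eq_zero_or_pos T' with hT' | hT'
    · obtain ⟨K₀, K₁, H, h0, h1, h2, l, h3, h4, h5⟩ := hA.2 hT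
      refine ⟨fun h => by omega, fun _ => ⟨fun X => K₀ X ∧ B X, fun X => K₁ X ∧ B X, H,
        byForm_and h0 (hB.1 hT'), byForm_and h1 (hB.1 hT'), fun X => ?_, l, by omega,
        fun g hg => ByForm.mono' (Nat.le_add_right _ _) (h4 g hg), h5⟩⟩
      have := h2 X
      beta_reduce
      tauto
    · exact nf_both hA hB hT hT' fun X Y h h' => and_congr h h'

theorem nf_or {m m' T T' : ℕ} {A B : Set E → Prop} (hA : Nf m T A) (hB : Nf m' T' B) :
    Nf (m + m') (T + T') (fun X => A X ∨ B X) := by
  rcases Nat.eq_zero_or_pos T with hT | hT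
  · rcases Nat.eq_zero_or_pos T' with hT' | hT'
    · exact ⟨fun _ => byForm_or' (hA.1 hT) (hB.1 hT'), fun h => by omega⟩
    · obtain ⟨K₀, K₁, H, h0, h1, h2, l, h3, h4, h5⟩ := hB.2 hT'
      refine ⟨fun h => by omega, fun _ => ⟨fun X => A X ∨ K₀ X, fun X => A X ∨ K₁ X, H,
        byForm_or' (hA.1 hT) h0, byForm_or' (hA.1 hT) h1, fun X => ?_, l, by omega,
        fun g hg => ByForm.mono' (Nat.le_add_left _ _) (h4 g hg), h5⟩⟩
      have := h2 X
      beta_reduce
      tauto
  · rcases Nat.eq_zero_or_pos T' with hT' | hT'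
    · obtain ⟨K₀, K₁, H, h0, h1, h2, l, h3, h4, h5⟩ := hA.2 hT
      refine ⟨fun h => by omega, fun _ => ⟨fun X => K₀ X ∨ B X, fun X => K₁ X ∨ B X, H,
        byForm_or' h0 (hB.1 hT'), byForm_or' h1 (hB.1 hT'), fun X => ?_, l, by omega,
        fun g hg => ByForm.mono' (Nat.le_add_right _ _) (h4 g hg), h5⟩⟩
      have := h2 X
      beta_reduce
      tauto
    · exact nf_both hA hB hT hT' fun X Y h h' => or_congr h h'

theorem nf (F : NFormula E) : Nf F.leaves F.nots F.Eval := by
  induction F with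
  | const b => exact ⟨fun _ => byForm_const _ b, fun h => by simp [NFormula.nots] at h⟩
  | var e =>
    exact ⟨fun _ => ⟨MForm.var e, le_rfl, fun _ => Iff.rfl⟩,
      fun h => by simp [NFormula.nots] at h⟩
  | and F F' ih ih' => exact nf_and ih ih'
  | or F F' ih ih' => exact nf_or ih ih'
  | not F ih =>
    obtain ⟨l, h0, h1, h2, h3⟩ := ih.det
    refine nf_wrap (T := F.nots + 1) (l := l) (by omega) ?_ h2 fun X Y h => not_congr (h3 X Y h)
    rcases Nat.eq_zero_or_pos F.nots with h | h
    · have := h0 h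
      omega
    · have := h1 h
      omega

/-- functions determined by `k` monotone functions are locally monotone -/
theorem loc_of_det {𝓜 : (Set E → Prop) → Prop} (h𝓜 : ∀ f, 𝓜 f → ∀ X Y, X ⊆ Y → f X → f Y)
    (hc : ∀ b : Bool, 𝓜 (fun _ => b = true)) {F : Set E → Prop} {l : List (Set E → Prop)}
    (hl : ∀ g ∈ l, 𝓜 g) (hd : Det l F) : Loc 𝓜 (l.length + 1) F := by
  obtain ⟨cnt, hcnt⟩ : ∃ cnt : List (Set E → Prop) → Set E → ℕ,
    cnt = fun l X => (l.filter (fun g => decide (g X))).length := ⟨_, rfl⟩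
  have hle : ∀ l : List (Set E → Prop), (∀ g ∈ l, 𝓜 g) → ∀ X Y, X ⊆ Y → cnt l X ≤ cnt l Y := by
    intro l
    rw [hcnt]
    induction l with
    | nil => intro _ X Y _; simp
    | cons g l ih =>
      intro hl X Y hXY
      have h1 := ih (fun g' hg' => hl g' (List.mem_cons_of_mem _ hg')) X Y hXY
      have h2 := h𝓜 g (hl g List.mem_cons_self) X Y hXY
      beta_reduce at h1 ⊢
      by_cases h3 : g X
      · rw [List.filter_cons_of_pos (by simpa using h3),
          List.filter_cons_of_pos (by simpa using h2 h3)]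
        simpa using h1
      · rw [List.filter_cons_of_neg (by simpa using h3)]
        by_cases h4 : g Y
        · rw [List.filter_cons_of_pos (by simpa using h4)]
          simp only [List.length_cons]
          omega
        · rw [List.filter_cons_of_neg (by simpa using h4)]
          exact h1
  have hlt : ∀ l : List (Set E → Prop), (∀ g ∈ l, 𝓜 g) → ∀ X Y, X ⊆ Y →
      (∃ g ∈ l, ¬ g X ∧ g Y) → cnt l X < cnt l Y := by
    intro l
    induction l with
    | nil => rintro _ X Y _ ⟨g, hg, -⟩; simp at hg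
    | cons g l ih =>
      rintro hl X Y hXY ⟨g', hg', h5, h6⟩
      have h1 := hle l (fun g' hg' => hl g' (List.mem_cons_of_mem _ hg')) X Y hXY
      have h2 := h𝓜 g (hl g List.mem_cons_self) X Y hXY
      have ih' := ih (fun g' hg' => hl g' (List.mem_cons_of_mem _ hg')) X Y hXY
      rw [hcnt] at h1 ih' ⊢
      beta_reduce at h1 ih' ⊢
      by_cases h3 : g X
      · rw [List.filter_cons_of_pos (by simpa using h3),
          List.filter_cons_of_pos (by simpa using h2 h3)]
        rw [List.mem_cons] at hg'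
        rcases hg' with rfl | hg'
        · exact absurd h3 h5
        · have := ih' ⟨g', hg', h5, h6⟩
          simpa using this
      · rw [List.filter_cons_of_neg (by simpa using h3)]
        by_cases h4 : g Y
        · rw [List.filter_cons_of_pos (by simpa using h4)]
          simp only [List.length_cons]
          omega
        · rw [List.filter_cons_of_neg (by simpa using h4)]
          rw [List.mem_cons] at hg'
          rcases hg' with rfl | hg'
          · exact absurd h6 h4
          · exact ih' ⟨g', hg', h5, h6⟩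
  refine ⟨cnt l, hle l hl, ?_, ?_⟩
  · intro X
    rw [hcnt]
    exact Nat.lt_succ_of_le (List.length_filter_le _ _)
  · intro X₀
    refine ⟨fun X => (decide (F X₀) = true) ∨ ∃ g ∈ l, ¬ g X₀ ∧ g X,
      ⟨(fun _ => decide (F X₀) = true) :: l.filter (fun g => decide (¬ g X₀)), ?_, ?_, ?_, ?_⟩, ?_⟩
    · exact List.cons_ne_nil _ _
    · simp only [List.length_cons]
      have := List.length_filter_le (fun g : Set E → Prop => decide (¬ g X₀)) l
      omega
    · intro g hg
      rw [List.mem_cons] at hg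
      rcases hg with rfl | hg
      · exact hc _
      · exact hl g (List.mem_filter.1 hg).1
    · intro X
      constructor
      · rintro (h | ⟨g, hg, h1, h2⟩)
        · exact ⟨_, List.mem_cons_self, h⟩
        · exact ⟨g, List.mem_cons_of_mem _ (List.mem_filter.2 ⟨hg, by simpa using h1⟩), h2⟩
      · rintro ⟨g, hg, h2⟩
        rw [List.mem_cons] at hg
        rcases hg with rfl | hg
        · exact Or.inl h2
        · rw [List.mem_filter] at hg
          exact Or.inr ⟨g, hg.1, by simpa using hg.2, h2⟩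
    · intro X hX
      by_cases hch : ∃ g ∈ l, ¬ g X₀ ∧ g X
      · exact ⟨fun _ => Or.inr hch, fun _ => Or.inr (hlt l hl X₀ X hX hch)⟩
      · have hsame : F X₀ ↔ F X := by
          refine hd X₀ X fun g hg => ⟨h𝓜 g (hl g hg) X₀ X hX, fun hgX => ?_⟩
          by_contra h0
          exact hch ⟨g, hg, h0, hgX⟩
        constructor
        · intro h
          left
          simpa using hsame.2 h
        · rintro (h | h)
          · left
            exact hsame.1 (by simpa using h)
          · exact absurd h hch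

end FLocAux

open FLocAux

/-- formulas with `T` NOT gates -/
theorem formula_loc (F : NFormula E) : Loc (ByForm F.leaves) (5 * F.nots + 1) F.Eval := by
  have h := nf F
  have hmono : ∀ f : Set E → Prop, ByForm F.leaves f → ∀ X Y, X ⊆ Y → f X → f Y := by
    rintro f ⟨G, -, hG⟩ X Y hXY hf
    exact (hG Y).2 (G.mono hXY ((hG X).1 hf))
  rcases Nat.eq_zero_or_pos F.nots with hT | hT
  · rw [hT]
    refine ⟨fun _ => 0, fun _ _ _ => le_rfl, fun _ => by simp, fun X₀ =>
      ⟨F.Eval, ⟨[F.Eval], by simp, by simp, by simpa using h.1 hT, fun X => by simp⟩,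
        fun X _ => ⟨id, Or.inl⟩⟩⟩
  · obtain ⟨l, -, h1, h2, h3⟩ := h.det
    have := h1 hT
    exact (loc_of_det hmono (fun b => byForm_const _ b) h2 h3).mono (by omega)

end NotG
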