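import Pool.Agent.Lib.NotG.Base
import Pool.Agent.Lib.MTN.Final

/-!
# NotG.FUp (MP_e46137_lc): formulas: upper bound, substitution
-/

namespace NotG

open Finset Pool.Agent.Lib.Pe46137 Pool.Agent.Lib.Pe46137X MonSize

variable {E E' : Type}

/-- substitution of constants and variables -/
def NFormula.subst (σ : E → Bool ⊕ E') : NFormula E → NFormula E'
  | const b => const b
  | var e => match σ e with
    | Sum.inl b => const b
    | Sum.inr e' => var e'
  | and F F' => and (F.subst σ) (F'.subst σ)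
  | or F F' => or (F.subst σ) (F'.subst σ)
  | not F => not (F.subst σ)

theorem nformula_subst (σ : E → Bool ⊕ E') (F : NFormula E) :
    (F.subst σ).nots = F.nots ∧ (F.subst σ).leaves ≤ F.leaves ∧
      ∀ Y, (F.subst σ).Eval Y ↔ F.Eval (pull σ Y) := by
  induction F with
  | const b => exact ⟨rfl, le_rfl, fun Y => Iff.rfl⟩
  | var e =>
    simp only [NFormula.subst, NFormula.Eval, pull, Set.mem_setOf_eq]
    rcases h : σ e with b | e'
    · refine ⟨rfl, Nat.zero_le _, fun Y => ?_⟩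
      show b = true ↔ _
      simp
    · refine ⟨rfl, le_rfl, fun Y => ?_⟩
      show e' ∈ Y ↔ _
      simp
  | and F F' ih ih' =>
    refine ⟨?_, Nat.add_le_add ih.2.1 ih'.2.1, fun Y => and_congr (ih.2.2 Y) (ih'.2.2 Y)⟩
    show (F.subst σ).nots + (F'.subst σ).nots = F.nots + F'.nots
    rw [ih.1, ih'.1]
  | or F F' ih ih' =>
    refine ⟨?_, Nat.add_le_add ih.2.1 ih'.2.1, fun Y => or_congr (ih.2.2 Y) (ih'.2.2 Y)⟩
    show (F.subst σ).nots + (F'.subst σ).nots = F.nots + F'.nots
    rw [ih.1, ih'.1]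
  | not F ih =>
    refine ⟨?_, ih.2.1, fun Y => not_congr (ih.2.2 Y)⟩
    show (F.subst σ).nots + 1 = F.nots + 1
    rw [ih.1]

namespace FUpAux

/-- a monotone formula for the `i`-th digraph -/
def toN {L n : ℕ} (i : Fin L) : Formula (Fin n) → NFormula (Var L n)
  | Formula.const b => NFormula.const b
  | Formula.arc u v => NFormula.var (i, (u, v))
  | Formula.and F F' => NFormula.and (toN i F) (toN i F')
  | Formula.or F F' => NFormula.or (toN i F) (toN i F')

theorem toN_spec {L n : ℕ} (i : Fin L) (F : Formula (Fin n)) :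
    (toN i F).nots = 0 ∧ (toN i F).leaves = F.leaves ∧
      ∀ X : Set (Var L n), (toN i F).Eval X ↔ F.Eval (graph X i) := by
  induction F with
  | const b => exact ⟨rfl, rfl, fun X => Iff.rfl⟩
  | arc u v => exact ⟨rfl, rfl, fun X => Iff.rfl⟩
  | and F F' ih ih' =>
    refine ⟨?_, ?_, fun X => and_congr (ih.2.2 X) (ih'.2.2 X)⟩
    · show (toN i F).nots + (toN i F').nots = 0
      rw [ih.1, ih'.1]
    · show (toN i F).leaves + (toN i F').leaves = F.leaves + F'.leaves
      rw [ih.2.1, ih'.2.1]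
  | or F F' ih ih' =>
    refine ⟨?_, ?_, fun X => or_congr (ih.2.2 X) (ih'.2.2 X)⟩
    · show (toN i F).nots + (toN i F').nots = 0
      rw [ih.1, ih'.1]
    · show (toN i F).leaves + (toN i F').leaves = F.leaves + F'.leaves
      rw [ih.2.1, ih'.2.1]

theorem orList {L n : ℕ} (F : Formula (Fin n)) (l : List (Fin L)) :
    ∃ G : NFormula (Var L n), G.nots = 0 ∧ G.leaves = l.length * F.leaves ∧
      ∀ X : Set (Var L n), G.Eval X ↔ ∃ i ∈ l, F.Eval (graph X i) := by
  induction l with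
  | nil =>
    refine ⟨NFormula.const false, rfl, by simp [NFormula.leaves], fun X => ?_⟩
    simp [NFormula.Eval]
  | cons i l ih =>
    obtain ⟨G, h1, h2, h3⟩ := ih
    obtain ⟨h4, h5, h6⟩ := toN_spec i F
    refine ⟨NFormula.or (toN i F) G, ?_, ?_, fun X => ?_⟩
    · show (toN i F).nots + G.nots = 0
      rw [h4, h1]
    · show (toN i F).leaves + G.leaves = _
      rw [h5, h2, List.length_cons]
      ring
    · show (toN i F).Eval X ∨ G.Eval X ↔ _
      rw [h6, h3]
      simp

end FUpAux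

open FUpAux

theorem upper_formula {L n : ℕ} {s t : Fin n} (hst : s ≠ t) {ℓ : ℕ} (hℓ : 1 ≤ ℓ)
    (hℓn : ℓ ≤ n) : ∃ F : NFormula (Var L n), F.nots = 0 ∧
      SolvesOn (fun _ => True) F.Eval s t ℓ ∧ F.leaves = L * formulaSize s t ℓ := by
  have hn : 2 ≤ n := by
    by_contra hc
    have : n = 0 ∨ n = 1 := by omega
    rcases this with rfl | rfl
    · exact s.elim0
    · exact hst (Subsingleton.elim s t)
  obtain ⟨F₀, hF₀, -, -⟩ := exists_formula hn s t hℓ hℓn
  have hne : {m | ∃ F : Formula (Fin n), Separates F.Eval s t ℓ ∧ F.leaves = m}.Nonempty :=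
    ⟨_, F₀, hF₀, rfl⟩
  obtain ⟨F, hF, hFs⟩ : ∃ F : Formula (Fin n), Separates F.Eval s t ℓ ∧
    F.leaves = formulaSize s t ℓ := Nat.sInf_mem hne
  obtain ⟨G, h1, h2, h3⟩ := orList F (List.finRange L)
  refine ⟨G, h1, fun X _ => ⟨?_, ?_⟩, ?_⟩
  · rintro ⟨i, hi⟩
    exact (h3 X).2 ⟨i, List.mem_finRange i, hF.1 _ hi⟩
  · intro h hG
    obtain ⟨i, -, hi⟩ := (h3 X).1 hG
    exact hF.2 _ (h i) hi
  · rw [h2, List.length_finRange, hFs]

end NotG
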