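import Pool.Agent.Lib.NotG.Base

/-!
# NotG.Rounds (MP_e46137_lc): adaptive programs are locally monotone
-/

namespace NotG

open Finset Classical

variable {E : Type}

theorem rounds_loc {𝓜 : (Set E → Prop) → Prop}
    (h𝓜 : ∀ f, 𝓜 f → ∀ X Y, X ⊆ Y → f X → f Y) {ks : List ℕ} {f : Set E → Prop}
    (hf : Adaptive 𝓜 ks f) : Loc 𝓜 (ks.map (· + 1)).prod f := by
  induction hf with
  | @answer f hf =>
    refine ⟨fun _ => 0, fun _ _ _ => le_rfl, fun _ => by simp, fun X₀ =>
      ⟨f, ⟨[f], by simp, by simp, by simpa using hf, fun X => by simp⟩, fun X _ => ⟨id, Or.inl⟩⟩⟩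
  | @ask k ks g f hg hfa ih =>
    obtain ⟨W, hW⟩ : ∃ W, W = (ks.map (· + 1)).prod := ⟨_, rfl⟩
    rw [← hW] at ih
    rw [List.map_cons, List.prod_cons, ← hW]
    unfold Loc at ih
    choose Φ hmono hlt hloc using ih
    -- the vector of answers
    obtain ⟨a, ha⟩ : ∃ a : Set E → Fin k → Prop, a = fun X i => g i X := ⟨_, rfl⟩
    obtain ⟨cnt, hcnt⟩ : ∃ cnt : Set E → ℕ, cnt = fun X => (univ.filter (fun i => g i X)).card :=
      ⟨_, rfl⟩
    have hcntle : ∀ X, cnt X ≤ k := by
      intro X
      rw [hcnt]
      refine (card_filter_le _ _).trans ?_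
      simp
    have hsub : ∀ X Y, X ⊆ Y → (univ.filter (fun i => g i X)) ⊆ (univ.filter (fun i => g i Y)) := by
      intro X Y hXY i hi
      rw [mem_filter] at hi ⊢
      exact ⟨hi.1, h𝓜 _ (hg i) X Y hXY hi.2⟩
    have hcmp : ∀ X Y, X ⊆ Y → a X ≠ a Y → cnt X < cnt Y := by
      intro X Y hXY hne
      rw [hcnt]
      apply card_lt_card
      refine ⟨hsub X Y hXY, fun hsub' => hne ?_⟩
      rw [ha]
      funext i
      apply propext
      constructor
      · exact h𝓜 _ (hg i) X Y hXY
      · intro hi
        have := hsub' (mem_filter.2 ⟨mem_univ i, hi⟩)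
        exact (mem_filter.1 this).2
    have haeq : ∀ X Y, a X = a Y → ∀ i, g i X = g i Y := by
      intro X Y h i
      have := congrFun h i
      rw [ha] at this
      exact this
    have hceq : ∀ X Y, a X = a Y → cnt X = cnt Y := by
      intro X Y h
      rw [hcnt]
      beta_reduce
      congr 1
      apply filter_congr
      intro i _
      rw [haeq X Y h i]
    have hstep : ∀ X Y, X ⊆ Y → a X ≠ a Y →
        cnt X * W + Φ (a X) X < cnt Y * W + Φ (a Y) Y := by
      intro X Y hXY hne
      have h1 := hcmp X Y hXY hne
      have h2 := hlt (a X) X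
      calc cnt X * W + Φ (a X) X < cnt X * W + W := by omega
        _ = (cnt X + 1) * W := by ring
        _ ≤ cnt Y * W := Nat.mul_le_mul_right _ h1
        _ ≤ _ := Nat.le_add_right _ _
    refine ⟨fun X => cnt X * W + Φ (a X) X, ?_, ?_, ?_⟩
    · intro X Y hXY
      by_cases hne : a X = a Y
      · have h1 := hceq X Y hne
        beta_reduce
        rw [h1, hne]
        exact Nat.add_le_add_left (hmono _ _ _ hXY) _
      · exact (hstep X Y hXY hne).le
    · intro X
      beta_reduce
      calc cnt X * W + Φ (a X) X < cnt X * W + W := by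
            have := hlt (a X) X
            omega
        _ = (cnt X + 1) * W := by ring
        _ ≤ (k + 1) * W := Nat.mul_le_mul_right _ (by have := hcntle X; omega)
    · intro X₀
      obtain ⟨f', ⟨l, hl0, hlen, hl𝓜, hlf⟩, hf'⟩ := hloc (a X₀) X₀
      have hW1 : 1 ≤ W := by
        have := hlt (a X₀) X₀
        omega
      refine ⟨fun X => f' X ∨ ∃ i, ¬ g i X₀ ∧ g i X,
        ⟨l ++ ((univ.filter (fun i => ¬ g i X₀)).toList.map g), ?_, ?_, ?_, ?_⟩, ?_⟩
      · intro h
        exact hl0 (List.append_eq_nil_iff.1 h).1
      · rw [List.length_append, List.length_map, length_toList]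
        have h1 : (univ.filter (fun i : Fin k => ¬ g i X₀)).card ≤ k := by
          refine (card_filter_le _ _).trans ?_
          simp
        have h2 : (k + 1) * W = k * W + W := by ring
        have h3 : k * 1 ≤ k * W := Nat.mul_le_mul_left _ hW1
        omega
      · intro φ hφ
        rw [List.mem_append, List.mem_map] at hφ
        rcases hφ with hφ | ⟨i, -, rfl⟩
        · exact hl𝓜 φ hφ
        · exact hg i
      · intro X
        constructor
        · rintro (h | ⟨i, h1, h2⟩)
          · obtain ⟨φ, hφ, hφX⟩ := (hlf X).1 h
            exact ⟨φ, List.mem_append_left _ hφ, hφX⟩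
          · refine ⟨g i, List.mem_append_right _ (List.mem_map.2 ⟨i, ?_, rfl⟩), h2⟩
            rw [mem_toList, mem_filter]
            exact ⟨mem_univ _, h1⟩
        · rintro ⟨φ, hφ, hφX⟩
          rw [List.mem_append, List.mem_map] at hφ
          rcases hφ with hφ | ⟨i, hi, rfl⟩
          · exact Or.inl ((hlf X).2 ⟨φ, hφ, hφX⟩)
          · rw [mem_toList, mem_filter] at hi
            exact Or.inr ⟨i, hi.2, hφX⟩
      · intro X hX
        have hfX : (fun i => g i X) = a X := by rw [ha]
        beta_reduce
        rw [hfX]
        by_cases hne : a X₀ = a X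
        · rw [← hne]
          constructor
          · intro h
            exact Or.inl ((hf' X hX).1 h)
          · rintro (h | ⟨i, h1, h2⟩)
            · rcases (hf' X hX).2 h with h | h
              · exact Or.inl h
              · right
                rw [hceq X₀ X hne]
                omega
            · exfalso
              rw [haeq X₀ X hne i] at h1
              exact h1 h2
        · constructor
          · intro _
            right
            by_contra hcon
            push Not at hcon
            apply hne
            rw [ha]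
            funext i
            apply propext
            constructor
            · exact h𝓜 _ (hg i) X₀ X hX
            · intro hi
              by_contra h0
              exact hcon i h0 hi
          · intro _
            exact Or.inr (hstep X₀ X hX hne)

end NotG
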