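import Pool.Agent.Lib.NotG.Base

/-!
# Module NotG.Sub (MP_e46137_lc): substitution of constants and variables

All by induction on the circuit (on `Adaptive`). `Gate.subst σ` changes only `var` gates, so lengths,
depths, levels and NOT gates stay the same.
-/

namespace NotG

variable {E E' : Type}

/-- substitution of constants and variables for the variables of a gate -/
def Gate.subst (σ : E → Bool ⊕ E') : Gate E → Gate E'
  | Gate.const b => Gate.const b
  | Gate.var e => match σ e with
    | Sum.inl b => Gate.const b
    | Sum.inr e' => Gate.var e'
  | Gate.and i j => Gate.and i j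
  | Gate.or i j => Gate.or i j
  | Gate.not i => Gate.not i

private theorem values_subst (σ : E → Bool ⊕ E') (Y : Set E') :
    ∀ c : List (Gate E), values Y (c.map (Gate.subst σ)) = values (pull σ Y) c
  | [] => rfl
  | Gate.const b :: c => by
    simp only [List.map_cons, Gate.subst, values]
    rw [values_subst σ Y c]
  | Gate.var e :: c => by
    simp only [List.map_cons, Gate.subst]
    rcases h : σ e with b | e'
    · simp only [values]
      rw [values_subst σ Y c]
      congr 1
      apply propext
      constructor
      · intro hb
        left
        rw [h, hb]
      · rintro (h1 | ⟨e', _, h1⟩)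
        · rw [h] at h1
          exact Sum.inl.inj h1
        · rw [h] at h1
          exact absurd h1 (by simp)
    · simp only [values]
      rw [values_subst σ Y c]
      congr 1
      apply propext
      constructor
      · intro hb
        exact Or.inr ⟨e', hb, h⟩
      · rintro (h1 | ⟨e'', h2, h1⟩)
        · rw [h] at h1
          exact absurd h1 (by simp)
        · rw [h] at h1
          rw [Sum.inr.inj h1]
          exact h2
  | Gate.and i j :: c => by
    simp only [List.map_cons, Gate.subst, values]
    rw [values_subst σ Y c]
  | Gate.or i j :: c => by
    simp only [List.map_cons, Gate.subst, values]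
    rw [values_subst σ Y c]
  | Gate.not i :: c => by
    simp only [List.map_cons, Gate.subst, values]
    rw [values_subst σ Y c]

private theorem depths_subst (σ : E → Bool ⊕ E') :
    ∀ c : List (Gate E), depths (c.map (Gate.subst σ)) = depths c
  | [] => rfl
  | Gate.const b :: c => by
    simp only [List.map_cons, Gate.subst, depths]
    rw [depths_subst σ c]
  | Gate.var e :: c => by
    simp only [List.map_cons, Gate.subst]
    rcases h : σ e with b | e'
    · simp only [depths]
      rw [depths_subst σ c]
    · simp only [depths]
      rw [depths_subst σ c]
  | Gate.and i j :: c => by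
    simp only [List.map_cons, Gate.subst, depths]
    rw [depths_subst σ c]
  | Gate.or i j :: c => by
    simp only [List.map_cons, Gate.subst, depths]
    rw [depths_subst σ c]
  | Gate.not i :: c => by
    simp only [List.map_cons, Gate.subst, depths]
    rw [depths_subst σ c]

private theorem levels_subst (σ : E → Bool ⊕ E') :
    ∀ c : List (Gate E), levels (c.map (Gate.subst σ)) = levels c
  | [] => rfl
  | Gate.const b :: c => by
    simp only [List.map_cons, Gate.subst, levels]
    rw [levels_subst σ c]
  | Gate.var e :: c => by
    simp only [List.map_cons, Gate.subst]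
    rcases h : σ e with b | e'
    · simp only [levels]
      rw [levels_subst σ c]
    · simp only [levels]
      rw [levels_subst σ c]
  | Gate.and i j :: c => by
    simp only [List.map_cons, Gate.subst, levels]
    rw [levels_subst σ c]
  | Gate.or i j :: c => by
    simp only [List.map_cons, Gate.subst, levels]
    rw [levels_subst σ c]
  | Gate.not i :: c => by
    simp only [List.map_cons, Gate.subst, levels]
    rw [levels_subst σ c]

private theorem notLevels_subst (σ : E → Bool ⊕ E') :
    ∀ c : List (Gate E), notLevels (c.map (Gate.subst σ)) = notLevels c
  | [] => rfl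
  | Gate.const b :: c => by
    simp only [List.map_cons, Gate.subst, notLevels]
    rw [notLevels_subst σ c]
  | Gate.var e :: c => by
    simp only [List.map_cons, Gate.subst]
    rcases h : σ e with b | e'
    · simp only [notLevels]
      rw [notLevels_subst σ c]
    · simp only [notLevels]
      rw [notLevels_subst σ c]
  | Gate.and i j :: c => by
    simp only [List.map_cons, Gate.subst, notLevels]
    rw [notLevels_subst σ c]
  | Gate.or i j :: c => by
    simp only [List.map_cons, Gate.subst, notLevels]
    rw [notLevels_subst σ c]
  | Gate.not i :: c => by
    simp only [List.map_cons, Gate.subst, notLevels]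
    rw [levels_subst σ c, notLevels_subst σ c]

theorem computes_subst (σ : E → Bool ⊕ E') (c : List (Gate E)) (Y : Set E') :
    Computes (c.map (Gate.subst σ)) Y ↔ Computes c (pull σ Y) := by
  unfold Computes
  rw [values_subst]

theorem depth_subst (σ : E → Bool ⊕ E') (c : List (Gate E)) :
    depth (c.map (Gate.subst σ)) = depth c := by
  unfold depth
  rw [depths_subst]

theorem negCost_subst (σ : E → Bool ⊕ E') (c : List (Gate E)) :
    negCost (c.map (Gate.subst σ)) = negCost c := by
  unfold negCost
  rw [notLevels_subst, List.length_map]

theorem adaptive_pull {𝓜 : (Set E → Prop) → Prop} {𝓜' : (Set E' → Prop) → Prop} (σ : E → Bool ⊕ E')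
    (h : ∀ g, 𝓜 g → 𝓜' (fun Y => g (pull σ Y))) {ks : List ℕ} {f : Set E → Prop}
    (hf : Adaptive 𝓜 ks f) : Adaptive 𝓜' ks (fun Y => f (pull σ Y)) := by
  induction hf with
  | answer hf => exact Adaptive.answer (h _ hf)
  | ask g f hg hf ih =>
    exact Adaptive.ask (fun i Y => g i (pull σ Y)) (fun a Y => f a (pull σ Y))
      (fun i => h _ (hg i)) (fun a => ih a)

end NotG
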