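import Pool.Agent.Lib.NotG.Net
import Pool.Agent.Lib.MTN.Final

/-!
# Module NotG.Upper (MP_e46137_lc): monotone circuits and monotone networks for `L` digraphs

* `compile`: a formula as a list of gates, `compile (and F F') = Gate.and 0 (compile F).length ::
  (compile F ++ compile F')`; for every list `d`: `values X (compile F ++ d) = w ++ values X d` with
  `w.length = (compile F).length`, `w.getD 0 False = F.Eval X`, the same for `depths` with head
  `F.depth` and all entries at most `F.depth`, and `levels`/`notLevels` with zeros / nothing; so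
  `negCost = 1` and `depth = F.depth`.
* the formula for `L` digraphs: the or, as a balanced tree of depth `Nat.clog 2 L`, of the optimal
  formulas (depth `formulaDepth s t ℓ`, see `MTN/Final.lean`, `exists_formula` gives that the set is
  nonempty) with `arc u v` replaced by `var (i, (u, v))` (use `MForm (Var L n)` or a new type; a list
  of at most `2 ^ k` formulas of depth at most `D` has an or of depth at most `D + k`, induction on
  `k`, split with `List.take`/`List.drop`).
* `upper_program`: the optimal network (`networkStates s t ℓ`, nonempty as in `MTN/Final.lean`,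
  `hne5`) for the `i`-th digraph is `byNet_pull` with `σ (u, v) = inr (i, (u, v))`, and `byNet_or`
  with `W = L`.
-/

namespace NotG

open Pool.Agent.Lib.Pe46137 Pool.Agent.Lib.Pe46137X MonSize

namespace UpperAux

/-- a formula as a list of gates -/
def compile {E : Type} : MForm E → List (Gate E)
  | MForm.const b => [Gate.const b]
  | MForm.var e => [Gate.var e]
  | MForm.and F F' => Gate.and 0 (compile F).length :: (compile F ++ compile F')
  | MForm.or F F' => Gate.or 0 (compile F).length :: (compile F ++ compile F')

theorem values_compile {E : Type} (F : MForm E) (X : Set E) : ∀ d : List (Gate E),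
    ∃ w : List Prop, values X (compile F ++ d) = F.Eval X :: (w ++ values X d) ∧
      w.length + 1 = (compile F).length := by
  induction F with
  | const b =>
    intro d
    exact ⟨[], rfl, rfl⟩
  | var e =>
    intro d
    exact ⟨[], rfl, rfl⟩
  | and F F' ih ih' =>
    intro d
    obtain ⟨w1, h1, h2⟩ := ih (compile F' ++ d)
    obtain ⟨w2, h3, h4⟩ := ih' d
    refine ⟨F.Eval X :: (w1 ++ F'.Eval X :: w2), ?_, ?_⟩
    · show (((values X ((compile F ++ compile F') ++ d)).getD 0 False ∧
        (values X ((compile F ++ compile F') ++ d)).getD (compile F).length False) ::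
        values X ((compile F ++ compile F') ++ d)) = _
      rw [List.append_assoc, h1, h3, ← h2]
      simp [MForm.Eval]
    · simp only [compile, List.length_cons, List.length_append]
      omega
  | or F F' ih ih' =>
    intro d
    obtain ⟨w1, h1, h2⟩ := ih (compile F' ++ d)
    obtain ⟨w2, h3, h4⟩ := ih' d
    refine ⟨F.Eval X :: (w1 ++ F'.Eval X :: w2), ?_, ?_⟩
    · show (((values X ((compile F ++ compile F') ++ d)).getD 0 False ∨
        (values X ((compile F ++ compile F') ++ d)).getD (compile F).length False) ::
        values X ((compile F ++ compile F') ++ d)) = _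
      rw [List.append_assoc, h1, h3, ← h2]
      simp [MForm.Eval]
    · simp only [compile, List.length_cons, List.length_append]
      omega

theorem depths_compile {E : Type} (F : MForm E) : ∀ d : List (Gate E),
    ∃ w : List ℕ, depths (compile F ++ d) = F.depth :: (w ++ depths d) ∧
      w.length + 1 = (compile F).length ∧ ∀ x ∈ w, x ≤ F.depth := by
  induction F with
  | const b =>
    intro d
    exact ⟨[], rfl, rfl, by simp⟩
  | var e =>
    intro d
    exact ⟨[], rfl, rfl, by simp⟩
  | and F F' ih ih' =>
    intro d
    obtain ⟨w1, h1, h2, h5⟩ := ih (compile F' ++ d)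
    obtain ⟨w2, h3, h4, h6⟩ := ih' d
    refine ⟨F.depth :: (w1 ++ F'.depth :: w2), ?_, ?_, ?_⟩
    · show ((max ((depths ((compile F ++ compile F') ++ d)).getD 0 0)
        ((depths ((compile F ++ compile F') ++ d)).getD (compile F).length 0) + 1) ::
        depths ((compile F ++ compile F') ++ d)) = _
      rw [List.append_assoc, h1, h3, ← h2]
      simp [MForm.depth]
    · simp only [compile, List.length_cons, List.length_append]
      omega
    · intro x hx
      simp only [MForm.depth]
      rw [List.mem_cons, List.mem_append, List.mem_cons] at hx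
      rcases hx with h | h | h | h
      · omega
      · have := h5 x h
        omega
      · omega
      · have := h6 x h
        omega
  | or F F' ih ih' =>
    intro d
    obtain ⟨w1, h1, h2, h5⟩ := ih (compile F' ++ d)
    obtain ⟨w2, h3, h4, h6⟩ := ih' d
    refine ⟨F.depth :: (w1 ++ F'.depth :: w2), ?_, ?_, ?_⟩
    · show ((max ((depths ((compile F ++ compile F') ++ d)).getD 0 0)
        ((depths ((compile F ++ compile F') ++ d)).getD (compile F).length 0) + 1) ::
        depths ((compile F ++ compile F') ++ d)) = _
      rw [List.append_assoc, h1, h3, ← h2]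
      simp [MForm.depth]
    · simp only [compile, List.length_cons, List.length_append]
      omega
    · intro x hx
      simp only [MForm.depth]
      rw [List.mem_cons, List.mem_append, List.mem_cons] at hx
      rcases hx with h | h | h | h
      · omega
      · have := h5 x h
        omega
      · omega
      · have := h6 x h
        omega

theorem computes_compile {E : Type} (F : MForm E) (X : Set E) :
    Computes (compile F) X = F.Eval X := by
  obtain ⟨w, h1, -⟩ := values_compile F X []
  rw [List.append_nil] at h1
  rw [Computes, h1, List.getD_cons_zero]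

theorem depth_compile {E : Type} (F : MForm E) : depth (compile F) ≤ F.depth := by
  obtain ⟨w, h1, -, h3⟩ := depths_compile F []
  rw [List.append_nil] at h1
  have h4 : ∀ l : List ℕ, (∀ x ∈ l, x ≤ F.depth) → l.foldr max 0 ≤ F.depth := by
    intro l
    induction l with
    | nil => intro _; exact Nat.zero_le _
    | cons a l ih =>
      intro h
      rw [List.foldr_cons]
      exact max_le (h a List.mem_cons_self) (ih fun x hx => h x (List.mem_cons_of_mem _ hx))
  rw [depth, h1]
  apply h4
  intro x hx
  rw [List.mem_cons, List.mem_append] at hx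
  rcases hx with h | h | h
  · exact h.le
  · exact h3 x h
  · simp [depths] at h

theorem notFree_compile {E : Type} (F : MForm E) : ∀ g ∈ compile F, ∀ i, g ≠ Gate.not i := by
  induction F with
  | const b =>
    intro g hg i
    simp only [compile, List.mem_singleton] at hg
    rw [hg]
    simp
  | var e =>
    intro g hg i
    simp only [compile, List.mem_singleton] at hg
    rw [hg]
    simp
  | and F F' ih ih' =>
    intro g hg i
    simp only [compile, List.mem_cons, List.mem_append] at hg
    rcases hg with h | h | h
    · rw [h]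
      simp
    · exact ih g h i
    · exact ih' g h i
  | or F F' ih ih' =>
    intro g hg i
    simp only [compile, List.mem_cons, List.mem_append] at hg
    rcases hg with h | h | h
    · rw [h]
      simp
    · exact ih g h i
    · exact ih' g h i

theorem notLevels_nil {E : Type} (c : List (Gate E)) (h : ∀ g ∈ c, ∀ i, g ≠ Gate.not i) :
    notLevels c = [] := by
  induction c with
  | nil => rfl
  | cons g c ih =>
    have h1 := ih fun g hg => h g (List.mem_cons_of_mem _ hg)
    cases g with
    | const b => simpa [notLevels] using h1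
    | var e => simpa [notLevels] using h1
    | and i j => simpa [notLevels] using h1
    | or i j => simpa [notLevels] using h1
    | not i => exact absurd rfl (h (Gate.not i) List.mem_cons_self i)

theorem negCost_compile {E : Type} (F : MForm E) : negCost (compile F) = 1 := by
  rw [negCost, notLevels_nil _ (notFree_compile F)]
  simp

/-- the balanced disjunction -/
theorem exists_or {E : Type} (D : ℕ) : ∀ (k : ℕ) (l : List (MForm E)), l.length ≤ 2 ^ k →
    (∀ F ∈ l, F.depth ≤ D) → ∃ F : MForm E, F.depth ≤ D + k ∧
      ∀ X, F.Eval X ↔ ∃ G ∈ l, G.Eval X := by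
  intro k
  induction k with
  | zero =>
    intro l hl hD
    rcases l with _ | ⟨F, l⟩
    · exact ⟨MForm.const false, Nat.zero_le _, fun X => by simp [MForm.Eval]⟩
    · rcases l with _ | ⟨G, l⟩
      · exact ⟨F, hD F List.mem_cons_self, fun X => by simp⟩
      · simp at hl
  | succ k ih =>
    intro l hl hD
    obtain ⟨F1, h1, h2⟩ := ih (l.take (2 ^ k)) (by simp) fun F hF => hD F (List.mem_of_mem_take hF)
    obtain ⟨F2, h3, h4⟩ := ih (l.drop (2 ^ k)) (by
      rw [List.length_drop]
      rw [pow_succ] at hl
      omega) fun F hF => hD F (List.mem_of_mem_drop hF)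
    refine ⟨MForm.or F1 F2, ?_, fun X => ?_⟩
    · simp only [MForm.depth]
      omega
    · simp only [MForm.Eval]
      rw [h2, h4]
      constructor
      · rintro (⟨G, hG, hX⟩ | ⟨G, hG, hX⟩)
        · exact ⟨G, List.mem_of_mem_take hG, hX⟩
        · exact ⟨G, List.mem_of_mem_drop hG, hX⟩
      · rintro ⟨G, hG, hX⟩
        rw [← List.take_append_drop (2 ^ k) l, List.mem_append] at hG
        rcases hG with hG | hG
        · exact Or.inl ⟨G, hG, hX⟩
        · exact Or.inr ⟨G, hG, hX⟩

/-- the formula for the `i`-th digraph -/
def conv {L n : ℕ} (i : Fin L) : Formula (Fin n) → MForm (Var L n)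
  | Formula.const b => MForm.const b
  | Formula.arc u v => MForm.var (i, (u, v))
  | Formula.and F F' => MForm.and (conv i F) (conv i F')
  | Formula.or F F' => MForm.or (conv i F) (conv i F')

theorem conv_eval {L n : ℕ} (i : Fin L) (F : Formula (Fin n)) (X : Set (Var L n)) :
    (conv i F).Eval X ↔ F.Eval (graph X i) := by
  induction F with
  | const b => exact Iff.rfl
  | arc u v => exact Iff.rfl
  | and F F' ih ih' => exact and_congr ih ih'
  | or F F' ih ih' => exact or_congr ih ih'

theorem conv_depth {L n : ℕ} (i : Fin L) (F : Formula (Fin n)) : (conv i F).depth = F.depth := by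
  induction F with
  | const b => rfl
  | arc u v => rfl
  | and F F' ih ih' => simp only [conv, MForm.depth, Formula.depth, ih, ih']
  | or F F' ih ih' => simp only [conv, MForm.depth, Formula.depth, ih, ih']

theorem pull_graph {L n : ℕ} (i : Fin L) (X : Set (Var L n)) :
    pull (fun e : Fin n × Fin n => (Sum.inr (i, e) : Bool ⊕ Var L n)) X = graph X i := by
  ext e
  constructor
  · rintro (h | ⟨x, hx, h⟩)
    · exact absurd h (by simp)
    · have h1 : (i, e) = x := Sum.inr.inj h
      rw [← h1] at hx
      exact hx
  · intro h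
    exact Or.inr ⟨(i, e), h, rfl⟩

end UpperAux

open UpperAux

theorem upper_circuit {L n : ℕ} (hL : 1 ≤ L) {s t : Fin n} (hst : s ≠ t) {ℓ : ℕ} (hℓ : 1 ≤ ℓ)
    (hℓn : ℓ ≤ n) : ∃ c : List (Gate (Var L n)), negCost c = 1 ∧
      SolvesOn (fun _ => True) (Computes c) s t ℓ ∧
      depth c ≤ formulaDepth s t ℓ + Nat.clog 2 L := by
  have hn : 2 ≤ n := by
    by_contra h
    apply hst
    apply Fin.ext
    have h1 := s.2
    have h2 := t.2
    omega
  obtain ⟨F₀, hF₀, -, -⟩ := exists_formula hn s t hℓ hℓn
  have hne2 : {m | ∃ F : Formula (Fin n), Separates F.Eval s t ℓ ∧ F.depth = m}.Nonempty :=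
    ⟨_, F₀, hF₀, rfl⟩
  obtain ⟨F₂, hF₂, hF₂'⟩ : ∃ F : Formula (Fin n), Separates F.Eval s t ℓ ∧
    F.depth = formulaDepth s t ℓ := Nat.sInf_mem hne2
  obtain ⟨F, hF1, hF2⟩ := exists_or (formulaDepth s t ℓ) (Nat.clog 2 L)
    ((List.finRange L).map (fun i => conv i F₂)) (by
      rw [List.length_map, List.length_finRange]
      exact Nat.le_pow_clog (by norm_num) L) (by
      intro F hF
      rw [List.mem_map] at hF
      obtain ⟨i, -, rfl⟩ := hF
      rw [conv_depth, hF₂'])
  refine ⟨compile F, negCost_compile F, ?_, (depth_compile F).trans hF1⟩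
  intro X _
  rw [computes_compile, hF2]
  constructor
  · rintro ⟨i, hi⟩
    exact ⟨conv i F₂, List.mem_map.2 ⟨i, List.mem_finRange i, rfl⟩,
      (conv_eval i F₂ X).2 (hF₂.1 _ hi)⟩
  · rintro h ⟨G, hG, hGX⟩
    rw [List.mem_map] at hG
    obtain ⟨i, -, rfl⟩ := hG
    exact hF₂.2 _ (h i) ((conv_eval i F₂ X).1 hGX)

theorem upper_program {L n : ℕ} (hL : 1 ≤ L) {s t : Fin n} (hst : s ≠ t) {ℓ : ℕ} (hℓ : 1 ≤ ℓ)
    (hℓn : ℓ ≤ n) : ∃ f : Set (Var L n) → Prop, ByNet (L * networkStates s t ℓ) f ∧
      SolvesOn (fun _ => True) f s t ℓ := by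
  have hn : 2 ≤ n := by
    by_contra h
    apply hst
    apply Fin.ext
    have h1 := s.2
    have h2 := t.2
    omega
  obtain ⟨F₀, hF₀, -, -⟩ := exists_formula hn s t hℓ hℓn
  have hne5 : {m | ∃ N : SwitchingNetwork (Fin n × Fin n) (Fin m), IsMonotone N ∧
      Separates (fun G => N.Connects G Gᶜ) s t ℓ}.Nonempty := by
    obtain ⟨m, -, N, hN, hN1, hN2⟩ := exists_network F₀
    exact ⟨m, N, hN, fun G hG => eqvGen_of_joinedIn (hN1 G (hF₀.1 G hG)),
      fun G hG => hN2 G (hF₀.2 G hG)⟩
  obtain ⟨N, hN, hsep⟩ : ∃ N : SwitchingNetwork (Fin n × Fin n) (Fin (networkStates s t ℓ)),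
    IsMonotone N ∧ Separates (fun G => N.Connects G Gᶜ) s t ℓ := Nat.sInf_mem hne5
  have hg : ∀ i : Fin L, ByNet (networkStates s t ℓ)
      (fun X : Set (Var L n) => N.Connects (graph X i) (graph X i)ᶜ) := by
    intro i
    have h1 : ByNet (networkStates s t ℓ) (fun G => N.Connects G Gᶜ) :=
      ⟨N, hN, fun X => Iff.rfl⟩
    have h2 := byNet_pull h1 (fun e : Fin n × Fin n => (Sum.inr (i, e) : Bool ⊕ Var L n))
    simp only [pull_graph] at h2
    exact h2
  refine ⟨fun X => ∃ i : Fin L, N.Connects (graph X i) (graph X i)ᶜ, byNet_or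
    ⟨(List.finRange L).map
      (fun i => (fun X : Set (Var L n) => N.Connects (graph X i) (graph X i)ᶜ)), ?_, ?_, ?_, ?_⟩,
    ?_⟩
  · intro h
    have h1 := congrArg List.length h
    rw [List.length_map, List.length_finRange, List.length_nil] at h1
    omega
  · rw [List.length_map, List.length_finRange]
  · intro g hg'
    rw [List.mem_map] at hg'
    obtain ⟨i, -, rfl⟩ := hg'
    exact hg i
  · intro X
    constructor
    · rintro ⟨i, hi⟩
      exact ⟨_, List.mem_map.2 ⟨i, List.mem_finRange i, rfl⟩, hi⟩
    · rintro ⟨g, hg', hX⟩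
      rw [List.mem_map] at hg'
      obtain ⟨i, -, rfl⟩ := hg'
      exact ⟨i, hX⟩
  · intro X _
    constructor
    · rintro ⟨i, hi⟩
      exact ⟨i, hsep.1 _ hi⟩
    · rintro h ⟨i, hi⟩
      exact hsep.2 _ (h i) hi

end NotG
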