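import Pool.Agent.Lib.NotG.Low
import Pool.Agent.Lib.NotG.Rounds
import Pool.Agent.Lib.NotG.Circ
import Pool.Agent.Lib.NotG.Sub
import Pool.Agent.Lib.NotG.FLoc
import Pool.Agent.Lib.NotG.FUp
import Pool.Agent.Lib.NotG.Embed
import Pool.Agent.Lib.NotG.Upper

/-!
# NotG.Final (MP_e46137_lc): NOT gates save nothing
-/

namespace NotG

open Finset Classical Pool.Agent.Lib.Pe46137 Pool.Agent.Lib.Pe46137X MonSize

namespace FinalAux

theorem separates_mono {L n : ℕ} {𝒢 𝒢' : Set (Fin n × Fin n) → Prop} (h : ∀ G, 𝒢' G → 𝒢 G)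
    {f : Set (Var L n) → Prop} {s t : Fin n} {ℓ : ℕ} (hf : SolvesOn 𝒢 f s t ℓ) :
    SolvesOn 𝒢' f s t ℓ := fun X hX => hf X fun i => h _ (hX i)

/-- the reduction to small digraphs -/
theorem reduce {n n' L K : ℕ} {s t : Fin n} {s' t' : Fin n'} (hst : s ≠ t) (hst' : s' ≠ t')
    (hK : 1 ≤ K) (hn : K * n' ≤ n) :
    ∃ σ : Var L n → Bool ⊕ Var (L * K) n', ∀ (f : Set (Var L n) → Prop) (ℓ ℓ' : ℕ), ℓ' ≤ ℓ →
      (∀ 𝒢 : Set (Fin n × Fin n) → Prop, (∀ G, Undirected G → 𝒢 G) → SolvesOn 𝒢 f s t ℓ →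
        SolvesIn Undirected (fun Y => f (pull σ Y)) s' t' ℓ') ∧
      (SolvesOn (fun _ => True) f s t ℓ →
        SolvesIn (fun _ => True) (fun Y => f (pull σ Y)) s' t' ℓ') := by
  obtain ⟨σ, hσ⟩ := embed (L := L) hst hst' hK hn
  refine ⟨σ, fun f ℓ ℓ' hℓ => ⟨?_, ?_⟩⟩
  · intro 𝒢 h𝒢 hf Y hY
    obtain ⟨h1, h2, h3⟩ := hσ Y
    have h4 := hf (pull σ Y) fun i => h𝒢 _ (h1 hY i)
    refine ⟨fun hw => ?_, fun hr => h4.2 (h2 hr)⟩
    obtain ⟨i, hi⟩ := h3 ℓ' hw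
    exact h4.1 ⟨i, LowAux.within_mono (fun _ h => h) hℓ hi⟩
  · intro hf Y _
    obtain ⟨-, h2, h3⟩ := hσ Y
    have h4 := hf (pull σ Y) fun _ => trivial
    refine ⟨fun hw => ?_, fun hr => h4.2 (h2 hr)⟩
    obtain ⟨i, hi⟩ := h3 ℓ' hw
    exact h4.1 ⟨i, LowAux.within_mono (fun _ h => h) hℓ hi⟩

theorem byNet_mono' {E : Type} (m : ℕ) :
    ∀ f : Set E → Prop, ByNet m f → ∀ X Y, X ⊆ Y → f X → f Y :=
  fun _ hf _ _ hXY => byNet_mono hf hXY

theorem byForm_of_byMono {E : Type} {m : ℕ} {f : Set E → Prop} (hf : ByMono m f) : ByForm m f := by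
  obtain ⟨F, h1, h2, h3⟩ := hf
  obtain ⟨G, h4, h5⟩ := (FLocAux.nf F).1 h1
  exact ⟨G, h4.trans h2, fun X => (h3 X).trans (h5 X)⟩

theorem byMono_mono' {E : Type} (m : ℕ) :
    ∀ f : Set E → Prop, ByMono m f → ∀ X Y, X ⊆ Y → f X → f Y :=
  fun _ hf _ _ hXY => byForm_mono (byForm_of_byMono hf) hXY

theorem byMono_pull {E E' : Type} {m : ℕ} {f : Set E → Prop} (hf : ByMono m f)
    (σ : E → Bool ⊕ E') : ByMono m (fun Y => f (pull σ Y)) := by
  obtain ⟨F, h1, h2, h3⟩ := hf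
  obtain ⟨h4, h5, h6⟩ := nformula_subst σ F
  exact ⟨F.subst σ, h4.trans h1, h5.trans h2, fun Y => (h3 _).trans (h6 Y).symm⟩

theorem loc_class {E : Type} {𝓜 𝓜' : (Set E → Prop) → Prop} (h : ∀ g, 𝓜 g → 𝓜' g) {W : ℕ}
    {F : Set E → Prop} (hF : Loc 𝓜 W F) : Loc 𝓜' W F := by
  obtain ⟨Φ, h1, h2, h3⟩ := hF
  refine ⟨Φ, h1, h2, fun X₀ => ?_⟩
  obtain ⟨f, ⟨l, h4, h5, h6, h7⟩, h8⟩ := h3 X₀
  exact ⟨f, ⟨l, h4, h5, fun g hg => h g (h6 g hg), h7⟩, h8⟩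

end FinalAux

open FinalAux

/-- lower bounds -/
theorem lower : ∃ C : ℝ, 0 < C ∧ ∀ (n n' L K W m : ℕ) (s t : Fin n), s ≠ t → 1 ≤ L →
    1 ≤ K → K * n' ≤ n → W ≤ L * K → ∀ ℓ ℓ' : ℕ, 1 ≤ ℓ' → ℓ' ≤ ℓ → ℓ' ≤ n' →
    ∀ 𝒢 : Set (Fin n × Fin n) → Prop, (∀ G, Undirected G → 𝒢 G) →
      (∀ c : List (Gate (Var L n)), negCost c ≤ W → SolvesOn 𝒢 (Computes c) s t ℓ →
        mainTerm n' ℓ' - C * (errTerm n' ℓ' + Real.logb 2 (L * K)) ≤ depth c) ∧
      (∀ F : NFormula (Var L n), 5 * F.nots < W → SolvesOn 𝒢 F.Eval s t ℓ →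
        mainTerm n' ℓ' - C * (errTerm n' ℓ' + Real.logb 2 (L * K)) ≤
          Real.logb 2 F.leaves) ∧
      (∀ (ks : List ℕ) (f : Set (Var L n) → Prop), (ks.map (· + 1)).prod ≤ W →
        (Adaptive (ByMono m) ks f ∧ SolvesOn 𝒢 f s t ℓ ∨
          Adaptive (ByNet m) ks f ∧ SolvesOn (fun _ => True) f s t ℓ) →
        mainTerm n' ℓ' - C * (errTerm n' ℓ' + Real.logb 2 (L * K)) ≤ Real.logb 2 m) := by
  obtain ⟨C, hC, hlow⟩ := low
  refine ⟨C, hC, ?_⟩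
  intro n n' L K W m s t hst hL hK hn hW ℓ ℓ' hℓ' hℓℓ' hℓn' 𝒢 h𝒢
  have hLK : 1 ≤ L * K := Nat.one_le_iff_ne_zero.2 (Nat.mul_ne_zero (by omega) (by omega))
  have hlogLK : 0 ≤ Real.logb 2 ((L : ℝ) * K) := by
    apply Real.logb_nonneg (by norm_num)
    exact_mod_cast hLK
  have hlog0 : ∀ a : ℕ, 0 ≤ Real.logb 2 (a : ℝ) := by
    intro a
    rcases Nat.eq_zero_or_pos a with h | h
    · rw [h]
      simp
    · exact Real.logb_nonneg (by norm_num) (by exact_mod_cast h)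
  rcases (by omega : n' = 1 ∨ 2 ≤ n') with hn1 | hn2
  · -- one vertex: the bound is trivial
    have hℓ1 : ℓ' = 1 := by omega
    have htriv : mainTerm n' ℓ' - C * (errTerm n' ℓ' + Real.logb 2 (L * K)) ≤ 0 := by
      rw [hn1, hℓ1]
      unfold mainTerm errTerm
      simp only [Nat.cast_one, Real.logb_one]
      have := mul_nonneg hC.le hlogLK
      norm_num
      linarith
    refine ⟨fun c _ _ => ?_, fun F _ _ => ?_, fun ks f _ _ => ?_⟩
    · exact htriv.trans (Nat.cast_nonneg _)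
    · exact htriv.trans (hlog0 _)
    · exact htriv.trans (hlog0 _)
  · obtain ⟨s', hs'⟩ : ∃ s' : Fin n', s' = ⟨0, by omega⟩ := ⟨_, rfl⟩
    obtain ⟨t', ht'⟩ : ∃ t' : Fin n', t' = ⟨1, by omega⟩ := ⟨_, rfl⟩
    have hst' : s' ≠ t' := by
      rw [hs', ht']
      intro h
      have := congrArg Fin.val h
      simp at this
    obtain ⟨σ, hσ⟩ := reduce (L := L) hst hst' hK hn
    have hlow' := hlow n' s' t' hst' ℓ' hℓ' hℓn' (L * K) W
    have hcast : ((L * K : ℕ) : ℝ) = (L : ℝ) * K := by push_cast; rfl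
    rw [← hcast]
    refine ⟨fun c hc hsol => ?_, fun F hF hsol => ?_, fun ks f hks hf => ?_⟩
    · have h1 := ((hσ (Computes c) ℓ ℓ' hℓℓ').1 𝒢 h𝒢 hsol)
      have h2 := circ_loc (c.map (Gate.subst σ))
      rw [negCost_subst, depth_subst] at h2
      have h3 : Computes (c.map (Gate.subst σ)) = fun Y => Computes c (pull σ Y) := by
        funext Y
        exact propext (computes_subst σ c Y)
      rw [h3] at h2
      have h4 := hlow' (2 ^ depth c) hLK hW _ (Or.inl ⟨h2.mono hc, h1⟩)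
      refine h4.trans (le_of_eq ?_)
      push_cast
      rw [Real.logb_pow, Real.logb_self_eq_one (by norm_num), mul_one]
    · have h1 := ((hσ F.Eval ℓ ℓ' hℓℓ').1 𝒢 h𝒢 hsol)
      obtain ⟨h5, h6, h7⟩ := nformula_subst σ F
      have h2 := formula_loc (F.subst σ)
      rw [h5] at h2
      have h3 : (F.subst σ).Eval = fun Y => F.Eval (pull σ Y) := by
        funext Y
        exact propext (h7 Y)
      rw [h3] at h2
      have h4 := hlow' (F.subst σ).leaves hLK hW _ (Or.inl ⟨h2.mono (by omega), h1⟩)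
      refine h4.trans ?_
      rcases Nat.eq_zero_or_pos (F.subst σ).leaves with h | h
      · rw [h]
        simpa using hlog0 F.leaves
      · exact Real.logb_le_logb_of_le (by norm_num) (by exact_mod_cast h) (by exact_mod_cast h6)
    · rcases hf with ⟨hf, hsol⟩ | ⟨hf, hsol⟩
      · have h1 := ((hσ f ℓ ℓ' hℓℓ').1 𝒢 h𝒢 hsol)
        have h2 := adaptive_pull (𝓜' := ByMono m) σ (fun g hg => byMono_pull hg σ) hf
        have h3 := loc_class (fun _ => byForm_of_byMono) (rounds_loc (byMono_mono' m) h2)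
        exact hlow' m hLK hW _ (Or.inl ⟨h3.mono hks, h1⟩)
      · have h1 := ((hσ f ℓ ℓ' hℓℓ').2 hsol)
        have h2 := adaptive_pull (𝓜' := ByNet m) σ (fun g hg => byNet_pull hg σ) hf
        have h3 := rounds_loc (byNet_mono' m) h2
        exact hlow' m hLK hW _ (Or.inr ⟨h3.mono hks, h1⟩)

/-- **NOT gates save nothing.** -/
theorem final : ∃ C : ℝ, 0 < C ∧ ∀ (n : ℕ) (s t : Fin n), s ≠ t → ∀ ℓ : ℕ, 1 ≤ ℓ → ℓ ≤ n →
    ∀ L : ℕ, 1 ≤ L → ∀ 𝒢 : Set (Fin n × Fin n) → Prop, (∀ G, Undirected G → 𝒢 G) →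
    (∀ W : ℕ, 1 ≤ W → W ≤ L →
      |(circuitDepth 𝒢 L W s t ℓ : ℝ) - mainTerm n ℓ| ≤ C * (errTerm n ℓ + Real.logb 2 L) ∧
      |Real.logb 2 (programSize L ByMono 𝒢 W s t ℓ) - mainTerm n ℓ| ≤
        C * (errTerm n ℓ + Real.logb 2 L) ∧
      |Real.logb 2 (programSize L ByNet (fun _ => True) W s t ℓ) - mainTerm n ℓ| ≤
        C * (errTerm n ℓ + Real.logb 2 L)) ∧
    (∀ T : ℕ, 5 * T < L →
      |Real.logb 2 (formulaLeaves 𝒢 L T s t ℓ) - mainTerm n ℓ| ≤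
        C * (errTerm n ℓ + Real.logb 2 L)) ∧
    (C * Real.logb 2 n ^ 9 * ℓ ≤ n → ∀ W m : ℕ,
      (∀ c : List (Gate (Var L n)), negCost c ≤ W → depth c ≤ m →
        advL (Computes c) ℓ s t (pathEdges s t) cutEdges ≤ ((W : ℝ) - 1) / L +
          W * 2 ^ m * (2 : ℝ) ^ (-(mainTerm n ℓ - C * errTerm n ℓ))) ∧
      (∀ F : NFormula (Var L n), 5 * F.nots < W → F.leaves ≤ m →
        advL F.Eval ℓ s t (pathEdges s t) cutEdges ≤ ((W : ℝ) - 1) / L +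
          W * m * (2 : ℝ) ^ (-(mainTerm n ℓ - C * errTerm n ℓ))) ∧
      (∀ (ks : List ℕ) (f : Set (Var L n) → Prop), (ks.map (· + 1)).prod ≤ W →
        (Adaptive (ByMono m) ks f → advL f ℓ s t (pathEdges s t) cutEdges ≤
          ((W : ℝ) - 1) / L + W * m * (2 : ℝ) ^ (-(mainTerm n ℓ - C * errTerm n ℓ))) ∧
        (Adaptive (ByNet m) ks f → advL f ℓ s t (pathArcs s t) cutArcs ≤
          ((W : ℝ) - 1) / L + W * m * (2 : ℝ) ^ (-(mainTerm n ℓ - C * errTerm n ℓ))))) ∧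
    (∀ n' ℓ' K : ℕ, 1 ≤ ℓ' → ℓ' ≤ ℓ → ℓ' ≤ n' → 1 ≤ K → K * n' ≤ n →
      (∀ W : ℕ, 1 ≤ W → W ≤ L * K →
        mainTerm n' ℓ' - C * (errTerm n' ℓ' + Real.logb 2 (L * K)) ≤
          circuitDepth 𝒢 L W s t ℓ ∧
        mainTerm n' ℓ' - C * (errTerm n' ℓ' + Real.logb 2 (L * K)) ≤
          Real.logb 2 (programSize L ByMono 𝒢 W s t ℓ) ∧
        mainTerm n' ℓ' - C * (errTerm n' ℓ' + Real.logb 2 (L * K)) ≤
          Real.logb 2 (programSize L ByNet (fun _ => True) W s t ℓ)) ∧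
      ∀ T : ℕ, 5 * T < L * K →
        mainTerm n' ℓ' - C * (errTerm n' ℓ' + Real.logb 2 (L * K)) ≤
          Real.logb 2 (formulaLeaves 𝒢 L T s t ℓ)) := by
  obtain ⟨C₁, hC₁, hlower⟩ := lower
  obtain ⟨C₂, hC₂, havg⟩ := avg
  obtain ⟨C₃, hC₃, hmain⟩ := MTN.final
  refine ⟨C₁ + C₂ + C₃ + 2, by linarith, ?_⟩
  intro n s t hst ℓ hℓ hℓn L hL 𝒢 h𝒢
  have hn : 2 ≤ n := by
    by_contra hc
    have : n = 0 ∨ n = 1 := by omega
    rcases this with rfl | rfl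
    · exact s.elim0
    · exact hst (Subsingleton.elim s t)
  obtain ⟨l1, -, -⟩ := MTN.UFormAux.log_facts hn
  obtain ⟨-, -, -, hE1, -, -, -⟩ := MTN.UFormAux.small hn hℓ hℓn
  have hE0 : 0 ≤ errTerm n ℓ := by linarith
  have hL1 : (1 : ℝ) ≤ L := by exact_mod_cast hL
  have hL0 : (0 : ℝ) < L := by linarith
  have hlogL : 0 ≤ Real.logb 2 (L : ℝ) := Real.logb_nonneg (by norm_num) hL1
  obtain ⟨⟨a1, a2, -, -, a5⟩, -, -⟩ := hmain n s t hst ℓ hℓ hℓn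
  -- the sets of the definitions are nonempty
  obtain ⟨c₀, hc₀, hc₀s, hc₀d⟩ := upper_circuit (L := L) hL hst hℓ hℓn
  obtain ⟨f₀, hf₀, hf₀s⟩ := upper_program (L := L) hL hst hℓ hℓn
  obtain ⟨F₀, hF₀, hF₀s, hF₀l⟩ := upper_formula (L := L) hst hℓ hℓn
  have hsolc : SolvesOn 𝒢 (Computes c₀) s t ℓ := separates_mono (fun _ _ => trivial) hc₀s
  have hsolF : SolvesOn 𝒢 F₀.Eval s t ℓ := separates_mono (fun _ _ => trivial) hF₀s
  have hmemC : ∀ W : ℕ, 1 ≤ W → ∃ c : List (Gate (Var L n)), negCost c ≤ W ∧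
      SolvesOn 𝒢 (Computes c) s t ℓ ∧ depth c = circuitDepth 𝒢 L W s t ℓ := by
    intro W hW
    exact Nat.sInf_mem (s := {d | ∃ c : List (Gate (Var L n)), negCost c ≤ W ∧
      SolvesOn 𝒢 (Computes c) s t ℓ ∧ depth c = d}) ⟨_, c₀, hc₀.trans_le hW, hsolc, rfl⟩
  have hmemF : ∀ T : ℕ, ∃ F : NFormula (Var L n), F.nots ≤ T ∧
      SolvesOn 𝒢 F.Eval s t ℓ ∧ F.leaves = formulaLeaves 𝒢 L T s t ℓ := by
    intro T
    exact Nat.sInf_mem (s := {m | ∃ F : NFormula (Var L n), F.nots ≤ T ∧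
      SolvesOn 𝒢 F.Eval s t ℓ ∧ F.leaves = m}) ⟨_, F₀, by omega, hsolF, rfl⟩
  have hmemP : ∀ W : ℕ, 1 ≤ W → ∃ (ks : List ℕ) (f : Set (Var L n) → Prop),
      (ks.map (· + 1)).prod ≤ W ∧
      Adaptive (ByNet (programSize L ByNet (fun _ => True) W s t ℓ)) ks f ∧
      SolvesOn (fun _ => True) f s t ℓ := by
    intro W hW
    exact Nat.sInf_mem (s := {m | ∃ (ks : List ℕ) (f : Set (Var L n) → Prop),
      (ks.map (· + 1)).prod ≤ W ∧ Adaptive (ByNet m) ks f ∧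
      SolvesOn (fun _ => True) f s t ℓ})
      ⟨_, [], f₀, by simpa using hW, Adaptive.answer hf₀, hf₀s⟩
  have hF₀m : ByMono (L * formulaSize s t ℓ) F₀.Eval := ⟨F₀, hF₀, hF₀l.le, fun _ => Iff.rfl⟩
  have hmemQ : ∀ W : ℕ, 1 ≤ W → ∃ (ks : List ℕ) (f : Set (Var L n) → Prop),
      (ks.map (· + 1)).prod ≤ W ∧ Adaptive (ByMono (programSize L ByMono 𝒢 W s t ℓ)) ks f ∧
      SolvesOn 𝒢 f s t ℓ := by
    intro W hW
    exact Nat.sInf_mem (s := {m | ∃ (ks : List ℕ) (f : Set (Var L n) → Prop),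
      (ks.map (· + 1)).prod ≤ W ∧ Adaptive (ByMono m) ks f ∧
      SolvesOn 𝒢 f s t ℓ})
      ⟨_, [], F₀.Eval, by simpa using hW, Adaptive.answer hF₀m, hsolF⟩
  -- the general lower bounds
  have hlow : ∀ n' ℓ' K : ℕ, 1 ≤ ℓ' → ℓ' ≤ ℓ → ℓ' ≤ n' → 1 ≤ K → K * n' ≤ n →
      (∀ W : ℕ, 1 ≤ W → W ≤ L * K →
        mainTerm n' ℓ' - C₁ * (errTerm n' ℓ' + Real.logb 2 (L * K)) ≤
          circuitDepth 𝒢 L W s t ℓ ∧
        mainTerm n' ℓ' - C₁ * (errTerm n' ℓ' + Real.logb 2 (L * K)) ≤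
          Real.logb 2 (programSize L ByMono 𝒢 W s t ℓ) ∧
        mainTerm n' ℓ' - C₁ * (errTerm n' ℓ' + Real.logb 2 (L * K)) ≤
          Real.logb 2 (programSize L ByNet (fun _ => True) W s t ℓ)) ∧
      ∀ T : ℕ, 5 * T < L * K →
        mainTerm n' ℓ' - C₁ * (errTerm n' ℓ' + Real.logb 2 (L * K)) ≤
          Real.logb 2 (formulaLeaves 𝒢 L T s t ℓ) := by
    intro n' ℓ' K hℓ' hℓℓ' hℓn' hK hKn
    refine ⟨fun W hW hWL => ⟨?_, ?_, ?_⟩, fun T hT => ?_⟩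
    · obtain ⟨c, hc, hcs, hcd⟩ := hmemC W hW
      rw [← hcd]
      exact (hlower n n' L K W 0 s t hst hL hK hKn hWL ℓ ℓ' hℓ' hℓℓ' hℓn' 𝒢 h𝒢).1 c hc hcs
    · obtain ⟨ks, f, hks, hf, hfs⟩ := hmemQ W hW
      exact (hlower n n' L K W _ s t hst hL hK hKn hWL ℓ ℓ' hℓ' hℓℓ' hℓn' 𝒢 h𝒢).2.2 ks f hks
        (Or.inl ⟨hf, hfs⟩)
    · obtain ⟨ks, f, hks, hf, hfs⟩ := hmemP W hW
      exact (hlower n n' L K W _ s t hst hL hK hKn hWL ℓ ℓ' hℓ' hℓℓ' hℓn' 𝒢 h𝒢).2.2 ks f hks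
        (Or.inr ⟨hf, hfs⟩)
    · obtain ⟨F, hF, hFs, hFl⟩ := hmemF T
      rw [← hFl]
      exact (hlower n n' L K (L * K) 0 s t hst hL hK hKn le_rfl ℓ ℓ' hℓ' hℓℓ' hℓn' 𝒢
        h𝒢).2.1 F (by omega) hFs
  have herr : ∀ n' ℓ' K : ℕ, 1 ≤ ℓ' → ℓ' ≤ n' → 1 ≤ K →
      mainTerm n' ℓ' - (C₁ + C₂ + C₃ + 2) * (errTerm n' ℓ' + Real.logb 2 (L * K)) ≤
        mainTerm n' ℓ' - C₁ * (errTerm n' ℓ' + Real.logb 2 (L * K)) := by
    intro n' ℓ' K hℓ' hℓn' hK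
    have h1 : 0 ≤ errTerm n' ℓ' := by
      rcases (by omega : n' = 1 ∨ 2 ≤ n') with h | h
      · have h2 : ℓ' = 1 := by omega
        rw [h, h2]
        unfold errTerm
        simp
      · obtain ⟨-, -, -, h3, -, -, -⟩ := MTN.UFormAux.small h hℓ' hℓn'
        linarith
    have h2 : 0 ≤ Real.logb 2 ((L : ℝ) * K) := by
      apply Real.logb_nonneg (by norm_num)
      have h3 : (1 : ℝ) ≤ K := by exact_mod_cast hK
      nlinarith
    nlinarith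
  -- the case `K = 1`
  have hlow1 := hlow n ℓ 1 hℓ le_rfl hℓn le_rfl (by omega)
  rw [Nat.mul_one, Nat.cast_one, mul_one] at hlow1
  have h0 : 0 ≤ mainTerm n ℓ + (C₁ + C₂ + C₃ + 2) * (errTerm n ℓ + Real.logb 2 L) := by
    have h5 : 0 ≤ mainTerm n ℓ := by
      unfold mainTerm
      have h6 : 0 ≤ Real.logb 2 (ℓ : ℝ) :=
        Real.logb_nonneg (by norm_num) (by exact_mod_cast hℓ)
      have h7 : Real.logb 2 (ℓ : ℝ) ≤ Real.logb 2 (n : ℝ) :=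
        Real.logb_le_logb_of_le (by norm_num) (by exact_mod_cast hℓ)
          (by exact_mod_cast hℓn)
      nlinarith
    have h6 : 0 ≤ (C₁ + C₂ + C₃ + 2) * (errTerm n ℓ + Real.logb 2 L) :=
      mul_nonneg (by linarith) (by linarith)
    linarith
  -- upper bounds for logarithms
  have hup : ∀ a b : ℕ, a ≤ L * b → Real.logb 2 (b : ℝ) ≤ mainTerm n ℓ + C₃ * errTerm n ℓ →
      Real.logb 2 (a : ℝ) - mainTerm n ℓ ≤
        (C₁ + C₂ + C₃ + 2) * (errTerm n ℓ + Real.logb 2 L) := by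
    intro a b hab hb
    rcases Nat.eq_zero_or_pos a with h | h
    · rw [h, Nat.cast_zero, Real.logb_zero]
      linarith
    · have h5 : 0 < b := by
        rcases Nat.eq_zero_or_pos b with h6 | h6
        · rw [h6] at hab
          omega
        · exact h6
      have h6 : Real.logb 2 (a : ℝ) ≤ Real.logb 2 ((L : ℝ) * b) :=
        Real.logb_le_logb_of_le (by norm_num) (by exact_mod_cast h) (by exact_mod_cast hab)
      rw [Real.logb_mul hL0.ne' (by exact_mod_cast h5.ne')] at h6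
      nlinarith
  have hfs : Real.logb 2 (formulaSize s t ℓ : ℝ) ≤ mainTerm n ℓ + C₃ * errTerm n ℓ := by
    have := (abs_le.1 a1).2
    linarith
  have hns : Real.logb 2 (networkStates s t ℓ : ℝ) ≤ mainTerm n ℓ + C₃ * errTerm n ℓ := by
    have := (abs_le.1 a5).2
    linarith
  refine ⟨?_, ?_, ?_, ?_⟩
  · intro W hW hWL
    obtain ⟨b1, b2, b3⟩ := hlow1.1 W hW hWL
    refine ⟨?_, ?_, ?_⟩
    · rw [abs_le]
      constructor
      · nlinarith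
      · have h1 : circuitDepth 𝒢 L W s t ℓ ≤ formulaDepth s t ℓ + Nat.clog 2 L := by
          refine le_trans ?_ hc₀d
          exact Nat.sInf_le ⟨c₀, hc₀.trans_le hW, hsolc, rfl⟩
        have h2 : ((Nat.clog 2 L : ℕ) : ℝ) ≤ Real.logb 2 L + 1 := by
          have h3 := Real.ceil_logb_natCast (b := 2) (r := (L : ℝ)) (by positivity)
          rw [Int.clog_natCast] at h3
          have h4 := Int.ceil_lt_add_one (Real.logb 2 (L : ℝ))
          have h5 : ((⌈Real.logb (2 : ℕ) (L : ℝ)⌉ : ℤ) : ℝ) = ((Nat.clog 2 L : ℕ) : ℝ) := by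
            rw [h3]
            norm_cast
          norm_num at h5
          linarith
        have h3 : (circuitDepth 𝒢 L W s t ℓ : ℝ) ≤ formulaDepth s t ℓ + Nat.clog 2 L := by
          exact_mod_cast h1
        have h4 := (abs_le.1 a2).2
        nlinarith
    · rw [abs_le]
      constructor
      · nlinarith
      · refine hup _ _ (Nat.sInf_le ⟨[], F₀.Eval, by simpa using hW, Adaptive.answer hF₀m,
          hsolF⟩) hfs
    · rw [abs_le]
      constructor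
      · nlinarith
      · refine hup _ _ (Nat.sInf_le ⟨[], f₀, by simpa using hW, Adaptive.answer hf₀, hf₀s⟩) hns
  · intro T hT
    have b1 := hlow1.2 T hT
    rw [abs_le]
    constructor
    · nlinarith
    · refine hup _ (formulaSize s t ℓ) ?_ hfs
      rw [← hF₀l]
      exact Nat.sInf_le ⟨F₀, by omega, hsolF, rfl⟩
  · intro hcond W m
    have hlog9 : (1 : ℝ) ≤ Real.logb 2 n ^ 9 := one_le_pow₀ l1
    have hcond2 : C₂ * Real.logb 2 n ^ 9 * ℓ ≤ n := by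
      refine le_trans ?_ hcond
      apply mul_le_mul_of_nonneg_right _ (Nat.cast_nonneg _)
      apply mul_le_mul_of_nonneg_right _ (by linarith)
      linarith
    have hrhs : ∀ a : ℝ, 0 ≤ a → ((W : ℝ) - 1) / L +
        W * a * (2 : ℝ) ^ (-(mainTerm n ℓ - C₂ * errTerm n ℓ)) ≤ ((W : ℝ) - 1) / L +
        W * a * (2 : ℝ) ^ (-(mainTerm n ℓ - (C₁ + C₂ + C₃ + 2) * errTerm n ℓ)) := by
      intro a ha
      have h1 : (2 : ℝ) ^ (-(mainTerm n ℓ - C₂ * errTerm n ℓ)) ≤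
          (2 : ℝ) ^ (-(mainTerm n ℓ - (C₁ + C₂ + C₃ + 2) * errTerm n ℓ)) := by
        apply Real.rpow_le_rpow_of_exponent_le (by norm_num)
        nlinarith
      have h2 : 0 ≤ (W : ℝ) * a := mul_nonneg (Nat.cast_nonneg _) ha
      have := mul_le_mul_of_nonneg_left h1 h2
      linarith
    refine ⟨fun c hc hd => ?_, fun F hF hFm => ?_, fun ks f hks => ⟨fun hf => ?_, fun hf => ?_⟩⟩
    · have h1 : Loc (ByForm (2 ^ m)) W (Computes c) :=
        loc_class (fun g hg => FLocAux.ByForm.mono' (Nat.pow_le_pow_right (by norm_num) hd) hg)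
          ((circ_loc c).mono hc)
      have h2 := (havg n s t hst ℓ hℓ hℓn hcond2 L W (2 ^ m) hL (Computes c)).1 h1
      push_cast at h2
      exact h2.trans (hrhs _ (by positivity))
    · have h1 : Loc (ByForm m) W F.Eval :=
        loc_class (fun g hg => FLocAux.ByForm.mono' hFm hg)
          ((formula_loc F).mono (by omega : 5 * F.nots + 1 ≤ W))
      exact ((havg n s t hst ℓ hℓ hℓn hcond2 L W m hL F.Eval).1 h1).trans
        (hrhs _ (Nat.cast_nonneg _))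
    · have h1 := loc_class (fun _ => byForm_of_byMono)
        ((rounds_loc (byMono_mono' m) hf).mono hks)
      exact ((havg n s t hst ℓ hℓ hℓn hcond2 L W m hL f).1 h1).trans
        (hrhs _ (Nat.cast_nonneg _))
    · have h1 := (rounds_loc (byNet_mono' m) hf).mono hks
      exact ((havg n s t hst ℓ hℓ hℓn hcond2 L W m hL f).2 h1).trans
        (hrhs _ (Nat.cast_nonneg _))
  · intro n' ℓ' K hℓ' hℓℓ' hℓn' hK hKn
    obtain ⟨h1, h2⟩ := hlow n' ℓ' K hℓ' hℓℓ' hℓn' hK hKn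
    have h3 := herr n' ℓ' K hℓ' hℓn' hK
    exact ⟨fun W hW hWL => ⟨h3.trans (h1 W hW hWL).1, h3.trans (h1 W hW hWL).2.1,
      h3.trans (h1 W hW hWL).2.2⟩, fun T hT => h3.trans (h2 T hT)⟩

end NotG
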