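import Pool.Agent.Lib.NotG.Base

/-!
# Module NotG.FormB (MP_e46137_lc): monotone formulas: substitution, disjunctions

* `byForm_pull`: replace each leaf `var x` by `const b` or `var e` (leaves do not increase).
* `byForm_or`: `or` of the formulas of the list (induction on the list; start with the formula of the
  head or with `const false`).
* `byForm_level`: `byForm_pull` with `σ (j, e) = inl (e ∈ G j)` (decide) for `j < i`, `inr e` for
  `j = i`, `inl false` for `j > i`, and the translation of `MForm (Fin n × Fin n)` into
  `Pe46137X.Formula (Fin n)` (`var (u, v)` becomes `arc u v`).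
-/

namespace NotG

open Pool.Agent.Lib.Pe46137 Pool.Agent.Lib.Pe46137X MonSize

variable {E E' : Type}

/-- replace the variables of a formula by constants and variables -/
private def substF (σ : E → Bool ⊕ E') : MForm E → MForm E'
  | MForm.const b => MForm.const b
  | MForm.var e => match σ e with
    | Sum.inl b => MForm.const b
    | Sum.inr e' => MForm.var e'
  | MForm.and F F' => MForm.and (substF σ F) (substF σ F')
  | MForm.or F F' => MForm.or (substF σ F) (substF σ F')

private theorem substF_leaves (σ : E → Bool ⊕ E') (F : MForm E) :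
    (substF σ F).leaves ≤ F.leaves := by
  induction F with
  | const b => exact le_rfl
  | var e =>
    simp only [substF]
    rcases h : σ e with b | e'
    · exact Nat.zero_le _
    · exact le_rfl
  | and F F' ih ih' =>
    simp only [substF, MForm.leaves]
    exact Nat.add_le_add ih ih'
  | or F F' ih ih' =>
    simp only [substF, MForm.leaves]
    exact Nat.add_le_add ih ih'

private theorem substF_eval (σ : E → Bool ⊕ E') (F : MForm E) (Y : Set E') :
    F.Eval (pull σ Y) ↔ (substF σ F).Eval Y := by
  induction F with
  | const b => exact Iff.rfl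
  | var e =>
    simp only [substF, MForm.Eval]
    rcases h : σ e with b | e'
    · constructor
      · rintro (h1 | ⟨e', _, h1⟩)
        · rw [h] at h1
          exact Sum.inl.inj h1
        · rw [h] at h1
          exact absurd h1 (by simp)
      · intro hb
        left
        rw [h]
        exact congrArg Sum.inl hb
    · constructor
      · rintro (h1 | ⟨e'', h2, h1⟩)
        · rw [h] at h1
          exact absurd h1 (by simp)
        · rw [h] at h1
          have h3 : e' = e'' := Sum.inr.inj h1
          subst h3
          exact h2
      · intro hb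
        exact Or.inr ⟨e', hb, h⟩
  | and F F' ih ih' =>
    simp only [substF, MForm.Eval]
    exact and_congr ih ih'
  | or F F' ih ih' =>
    simp only [substF, MForm.Eval]
    exact or_congr ih ih'

theorem byForm_pull {m : ℕ} {f : Set E → Prop} (hf : ByForm m f) (σ : E → Bool ⊕ E') :
    ByForm m (fun Y => f (pull σ Y)) := by
  obtain ⟨F, h1, h2⟩ := hf
  exact ⟨substF σ F, (substF_leaves σ F).trans h1, fun Y => (h2 _).trans (substF_eval σ F Y)⟩

theorem byForm_mono {m : ℕ} {f : Set E → Prop} (hf : ByForm m f) {X Y : Set E} (h : X ⊆ Y) :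
    f X → f Y := by
  obtain ⟨F, _, h2⟩ := hf
  intro hX
  exact (h2 Y).mpr (F.mono h ((h2 X).mp hX))

private theorem byForm_list {m : ℕ} :
    ∀ l : List (Set E → Prop), (∀ g ∈ l, ByForm m g) →
      ByForm (l.length * m) (fun X => ∃ g ∈ l, g X)
  | [], _ => ⟨MForm.const false, by simp [MForm.leaves], fun X => by simp [MForm.Eval]⟩
  | g :: l, h => by
    obtain ⟨F, h1, h2⟩ := h g (List.mem_cons_self ..)
    obtain ⟨F', h3, h4⟩ := byForm_list l (fun g' hg' => h g' (List.mem_cons_of_mem g hg'))
    refine ⟨MForm.or F F', ?_, fun X => ?_⟩
    · simp only [MForm.leaves, List.length_cons]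
      have h5 : (l.length + 1) * m = l.length * m + m := by ring
      omega
    · have h5 := h2 X
      have h6 : (∃ g' ∈ l, g' X) ↔ F'.Eval X := h4 X
      simp only [MForm.Eval, List.mem_cons]
      constructor
      · rintro ⟨g', hg' | hg', hX⟩
        · subst hg'
          exact Or.inl (h5.mp hX)
        · exact Or.inr (h6.mp ⟨g', hg', hX⟩)
      · rintro (hX | hX)
        · exact ⟨g, Or.inl rfl, h5.mpr hX⟩
        · obtain ⟨g', hg', hX'⟩ := h6.mpr hX
          exact ⟨g', Or.inr hg', hX'⟩

theorem byForm_or {m W : ℕ} {f : Set E → Prop} (hf : OrOf (ByForm m) W f) :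
    ByForm (W * m) f := by
  obtain ⟨l, _, h2, h3, h4⟩ := hf
  obtain ⟨F, h5, h6⟩ := byForm_list l h3
  exact ⟨F, h5.trans (Nat.mul_le_mul_right m h2), fun X => (h4 X).trans (h6 X)⟩

/-- translation into formulas over the arc variables -/
private def toFormula {n : ℕ} : MForm (Fin n × Fin n) → Formula (Fin n)
  | MForm.const b => Formula.const b
  | MForm.var e => Formula.arc e.1 e.2
  | MForm.and F F' => Formula.and (toFormula F) (toFormula F')
  | MForm.or F F' => Formula.or (toFormula F) (toFormula F')

private theorem toFormula_leaves {n : ℕ} (F : MForm (Fin n × Fin n)) :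
    (toFormula F).leaves = F.leaves := by
  induction F with
  | const b => rfl
  | var e => rfl
  | and F F' ih ih' =>
    simp only [toFormula, Formula.leaves, MForm.leaves]
    rw [ih, ih']
  | or F F' ih ih' =>
    simp only [toFormula, Formula.leaves, MForm.leaves]
    rw [ih, ih']

private theorem toFormula_eval {n : ℕ} (F : MForm (Fin n × Fin n)) (G : Set (Fin n × Fin n)) :
    (toFormula F).Eval G ↔ F.Eval G := by
  induction F with
  | const b => exact Iff.rfl
  | var e => exact Iff.rfl
  | and F F' ih ih' =>
    simp only [toFormula, Formula.Eval, MForm.Eval]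
    exact and_congr ih ih'
  | or F F' ih ih' =>
    simp only [toFormula, Formula.Eval, MForm.Eval]
    exact or_congr ih ih'

theorem byForm_level {L n m : ℕ} {f : Set (Var L n) → Prop} (hf : ByForm m f) (i : Fin L)
    (G : Fin L → Set (Fin n × Fin n)) : ByFormula n m (fun H => f (level i G H)) := by
  classical
  let σ : Var L n → Bool ⊕ (Fin n × Fin n) := fun x =>
    if x.1 < i then Sum.inl (decide (x.2 ∈ G x.1))
    else if x.1 = i then Sum.inr x.2 else Sum.inl false
  have hσ : ∀ H, pull σ H = level i G H := by
    intro H
    ext x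
    simp only [pull, level, Set.mem_ofPred_eq, σ]
    by_cases h1 : x.1 < i
    · have h2 : x.1 ≠ i := h1.ne
      simp [h1, h2]
    · by_cases h2 : x.1 = i
      · simp [h2]
      · simp [h1, h2]
  obtain ⟨F, h1, h2⟩ := byForm_pull hf σ
  refine ⟨toFormula F, (toFormula_leaves F).le.trans h1, fun H => ?_⟩
  rw [toFormula_eval]
  have h3 : f (pull σ H) ↔ F.Eval H := h2 H
  rw [hσ H] at h3
  exact h3

end NotG
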