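import Pool.Agent.Lib.NotG.Base
import Pool.Agent.Lib.Pe46137X.FNet
import Pool.Agent.Lib.MTN.Form

/-!
# Module NotG.Net (MP_e46137_lc): monotone switching networks: substitution, disjunctions

* `byNet_pull`: same states; `wire v w := N.wire v w ∨ ∃ x, σ x = inl true ∧ N.pos x v w`,
  `pos e v w := ∃ x, σ x = inr e ∧ N.pos x v w`, `neg := False`; the closed contacts are the same
  (`N.neg` is empty, `IsMonotone`).
* `byNet_mono`: more closed contacts (`Relation.EqvGen.mono`).
* `byNet_or`: disjoint union of the networks of the list, wires between all sources and between all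
  sinks (`FNetAux.sumNet`, the rejection part of `FNetAux.works_or` has the invariant set), by
  induction on the list: a list of length `p ≥ 1` gives `p * m` states; then `MTN.pad` (MTN/Form.lean)
  for `p * m ≤ W * m`.
* `byNet_level`: `byNet_pull` with `σ (j, e) = inl (e ∈ G j)` (decide) for `j < i`, `inr e` for
  `j = i`, `inl false` for `j > i` (`ByNetwork n m` of MTN/Stmt.lean is `ByNet m` for
  `E = Fin n × Fin n`).
-/

namespace NotG

open Pool.Agent.Lib.Pe46137 Pool.Agent.Lib.Pe46137X MonSize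

variable {E E' : Type}

namespace NetAux

theorem eqv_map {W W' : Type} {r : W → W → Prop} {r' : W' → W' → Prop} (f : W → W')
    (h : ∀ v w, r v w → r' (f v) (f w)) {v w : W} (hvw : Relation.EqvGen r v w) :
    Relation.EqvGen r' (f v) (f w) := by
  induction hvw with
  | rel x y hxy => exact Relation.EqvGen.rel _ _ (h x y hxy)
  | refl x => exact Relation.EqvGen.refl _
  | symm x y _ ih => exact ih.symm _ _
  | trans x y z _ _ ih1 ih2 => exact ih1.trans _ _ _ ih2

theorem map_connects {W W' : Type} (e : W ≃ W') (N : SwitchingNetwork E W) (G : Set E) :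
    (FNetAux.mapNet e N).Connects G Gᶜ ↔ N.Connects G Gᶜ := by
  constructor
  · intro h
    have := eqv_map (r := (FNetAux.mapNet e N).Closed G Gᶜ) (r' := N.Closed G Gᶜ) e.symm
      (fun v w hvw => hvw) h
    simpa [FNetAux.mapNet, SwitchingNetwork.Connects] using this
  · intro h
    have := eqv_map (r := N.Closed G Gᶜ) (r' := (FNetAux.mapNet e N).Closed G Gᶜ) e
      (fun v w hvw => by simpa [FNetAux.mapNet, SwitchingNetwork.Closed] using hvw) h
    exact this

theorem or_connects {W W' : Type} (N : SwitchingNetwork E W) (N' : SwitchingNetwork E W')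
    (G : Set E) :
    (FNetAux.sumNet N N' (fun v w =>
      (v = Sum.inl N.source ∧ w = Sum.inr N'.source) ∨ (v = Sum.inl N.sink ∧ w = Sum.inr N'.sink))
      (Sum.inl N.source) (Sum.inl N.sink)).Connects G Gᶜ ↔
      N.Connects G Gᶜ ∨ N'.Connects G Gᶜ := by
  constructor
  · intro h
    by_contra hc
    rw [not_or] at hc
    have n1 : ¬ Relation.EqvGen (N.Closed G Gᶜ) N.source N.sink := hc.1
    have n2 : ¬ Relation.EqvGen (N'.Closed G Gᶜ) N'.source N'.sink := hc.2
    have := FNetAux.eqv_closed {v | (∃ x, v = Sum.inl x ∧ Relation.EqvGen (N.Closed G Gᶜ) N.source x) ∨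
      (∃ x, v = Sum.inr x ∧ Relation.EqvGen (N'.Closed G Gᶜ) N'.source x)} (fun v w hvw => ?_) h
    · simp only [FNetAux.sumNet_source, FNetAux.sumNet_sink, Set.mem_ofPred_eq, Sum.inl.injEq,
        exists_eq_left', reduceCtorEq, false_and, exists_false, or_false] at this
      exact n1 (this.mp (Relation.EqvGen.refl _))
    · rw [FNetAux.sumNet_closed] at hvw
      rcases hvw with (⟨rfl, rfl⟩ | ⟨rfl, rfl⟩) | ⟨x, y, rfl, rfl, h⟩ | ⟨x, y, rfl, rfl, h⟩
      · simp [Relation.EqvGen.refl]
      · simp [n1, n2]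
      · simp [FNetAux.eqv_iff h]
      · simp [FNetAux.eqv_iff h]
  · intro h
    rcases h with h | h
    · exact eqv_map (r := N.Closed G Gᶜ) Sum.inl
        (fun v w hvw => FNetAux.sumNet_closed.mpr (Or.inr (Or.inl ⟨v, w, rfl, rfl, hvw⟩))) h
    · have h1 : Relation.EqvGen ((FNetAux.sumNet N N' (fun v w =>
          (v = Sum.inl N.source ∧ w = Sum.inr N'.source) ∨
            (v = Sum.inl N.sink ∧ w = Sum.inr N'.sink))
          (Sum.inl N.source) (Sum.inl N.sink)).Closed G Gᶜ) (Sum.inr N'.source) (Sum.inr N'.sink) :=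
        eqv_map (r := N'.Closed G Gᶜ) Sum.inr
          (fun v w hvw => FNetAux.sumNet_closed.mpr (Or.inr (Or.inr ⟨v, w, rfl, rfl, hvw⟩))) h
      refine Relation.EqvGen.trans _ _ _ (Relation.EqvGen.rel _ _
        (FNetAux.sumNet_closed.mpr (Or.inl (Or.inl ⟨rfl, rfl⟩)))) ?_
      refine Relation.EqvGen.trans _ _ _ h1 ?_
      exact Relation.EqvGen.symm _ _ (Relation.EqvGen.rel _ _
        (FNetAux.sumNet_closed.mpr (Or.inl (Or.inr ⟨rfl, rfl⟩))))

theorem list_or {m : ℕ} (l : List (Set E → Prop)) (hl : l ≠ []) (h : ∀ g ∈ l, ByNet m g) :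
    ∃ N : SwitchingNetwork E (Fin (l.length * m)), IsMonotone N ∧
      ∀ X, N.Connects X Xᶜ ↔ ∃ g ∈ l, g X := by
  induction l with
  | nil => exact absurd rfl hl
  | cons g l ih =>
    obtain ⟨N, hN, hg⟩ := h g List.mem_cons_self
    by_cases hl' : l = []
    · subst hl'
      obtain ⟨N', hN', hc⟩ := MTN.pad (m' := [g].length * m) (by simp) N hN
      refine ⟨N', hN', fun X => ?_⟩
      rw [hc, ← hg]
      simp
    · obtain ⟨N', hN', hc⟩ := ih hl' (fun g' hg' => h g' (List.mem_cons_of_mem _ hg'))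
      have hmono : IsMonotone (FNetAux.mapNet (Fintype.equivFin (Fin m ⊕ Fin (l.length * m)))
          (FNetAux.sumNet N N' (fun v w =>
            (v = Sum.inl N.source ∧ w = Sum.inr N'.source) ∨
              (v = Sum.inl N.sink ∧ w = Sum.inr N'.sink))
            (Sum.inl N.source) (Sum.inl N.sink))) := by
        intro e v w
        exact (FNetAux.sumNet_monotone hN hN' : IsMonotone (FNetAux.sumNet N N' (fun v w =>
            (v = Sum.inl N.source ∧ w = Sum.inr N'.source) ∨
              (v = Sum.inl N.sink ∧ w = Sum.inr N'.sink))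
            (Sum.inl N.source) (Sum.inl N.sink))) e _ _
      obtain ⟨N'', hN'', hc''⟩ := MTN.pad (m' := (g :: l).length * m) (by
        rw [Fintype.card_sum, Fintype.card_fin, Fintype.card_fin, List.length_cons]
        nlinarith) _ hmono
      refine ⟨N'', hN'', fun X => ?_⟩
      rw [hc'', map_connects, or_connects, hc, ← hg]
      simp

end NetAux

theorem byNet_pull {m : ℕ} {f : Set E → Prop} (hf : ByNet m f) (σ : E → Bool ⊕ E') :
    ByNet m (fun Y => f (pull σ Y)) := by
  obtain ⟨N, hN, hf⟩ := hf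
  refine ⟨⟨N.source, N.sink, fun v w => N.wire v w ∨ ∃ x, σ x = Sum.inl true ∧ N.pos x v w,
    fun e v w => ∃ x, σ x = Sum.inr e ∧ N.pos x v w, fun _ _ _ => False⟩,
    fun _ _ _ h => h, fun Y => ?_⟩
  refine (hf (pull σ Y)).trans ?_
  have key : N.Closed (pull σ Y) (pull σ Y)ᶜ = SwitchingNetwork.Closed
      ⟨N.source, N.sink, fun v w => N.wire v w ∨ ∃ x, σ x = Sum.inl true ∧ N.pos x v w,
        fun e v w => ∃ x, σ x = Sum.inr e ∧ N.pos x v w, fun _ _ _ => False⟩ Y Yᶜ := by
    funext v w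
    apply propext
    constructor
    · rintro (h | ⟨x, hx, h⟩ | ⟨x, hx, h⟩)
      · exact Or.inl (Or.inl h)
      · rcases hx with hx | ⟨e, he, hx⟩
        · exact Or.inl (Or.inr ⟨x, hx, h⟩)
        · exact Or.inr (Or.inl ⟨e, he, x, hx, h⟩)
      · exact absurd h (hN x v w)
    · rintro ((h | ⟨x, hx, h⟩) | ⟨e, he, x, hx, h⟩ | ⟨x, hx, h⟩)
      · exact Or.inl h
      · exact Or.inr (Or.inl ⟨x, Or.inl hx, h⟩)
      · exact Or.inr (Or.inl ⟨x, Or.inr ⟨e, he, hx⟩, h⟩)
      · exact h.elim
  unfold SwitchingNetwork.Connects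
  rw [key]

theorem byNet_mono {m : ℕ} {f : Set E → Prop} (hf : ByNet m f) {X Y : Set E} (h : X ⊆ Y) :
    f X → f Y := by
  obtain ⟨N, hN, hf⟩ := hf
  intro hX
  rw [hf] at hX ⊢
  refine NetAux.eqv_map (r := N.Closed X Xᶜ) id (fun v w hvw => ?_) hX
  rcases hvw with h1 | ⟨e, he, h1⟩ | ⟨e, he, h1⟩
  · exact Or.inl h1
  · exact Or.inr (Or.inl ⟨e, h he, h1⟩)
  · exact absurd h1 (hN e v w)

theorem byNet_or {m W : ℕ} {f : Set E → Prop} (hf : OrOf (ByNet m) W f) : ByNet (W * m) f := by
  obtain ⟨l, h1, h2, h3, h4⟩ := hf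
  obtain ⟨N, hN, hc⟩ := NetAux.list_or l h1 h3
  obtain ⟨N', hN', hc'⟩ := MTN.pad (Nat.mul_le_mul_right m h2) N hN
  exact ⟨N', hN', fun X => by rw [hc', hc, h4]⟩

open Classical in
theorem byNet_level {L n m : ℕ} {f : Set (Var L n) → Prop} (hf : ByNet m f) (i : Fin L)
    (G : Fin L → Set (Fin n × Fin n)) : ByNetwork n m (fun H => f (level i G H)) := by
  let σ : Var L n → Bool ⊕ (Fin n × Fin n) := fun x =>
    if x.1 < i then Sum.inl (decide (x.2 ∈ G x.1)) else if x.1 = i then Sum.inr x.2 else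
      Sum.inl false
  obtain ⟨N, hN, hc⟩ := byNet_pull hf σ
  refine ⟨N, hN, fun H => ?_⟩
  refine Iff.trans ?_ (hc H)
  have key : pull σ H = level i G H := by
    ext x
    simp only [pull, level, Set.mem_ofPred_eq, σ]
    by_cases h1 : x.1 < i
    · simp [h1, ne_of_lt h1]
    · by_cases h2 : x.1 = i
      · simp [h2]
      · simp [h1, h2]
  show f (level i G H) ↔ f (pull σ H)
  rw [key]

end NotG
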