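import Pool.Agent.Lib.Pe46137X.NumDefs

/-!
# Module NotG.Num (MP_e46137_lc): reduction to short distances

With `x = logb 2 n ≥ 1`, `y = logb 2 ℓ ≤ x`: `mainTerm n ℓ = y * x - y ^ 2 / 2`,
`errTerm n ℓ = x + y * logb 2 x ≥ x`.
* If `ℓ = 1`, `mainTerm = 0`.
* If `n < 3 * C * x ^ 9` (or so): `x ≤ log (3 C) + 9 log x`, `mainTerm ≤ x ^ 2 / 2 ≤ C' x`.
* Otherwise `ℓ' = min ℓ ⌊n / (C * x ^ 9)⌋₊ ≥ 2` for `ℓ ≥ 2`. If `ℓ' = ℓ` all is clear; if
  `ℓ' = ⌊n / (C x ^ 9)⌋₊` then `y' = logb 2 ℓ' ≥ x - log C - 9 log x - 1` and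
  `mainTerm n ℓ - mainTerm n ℓ' = (y - y') (x - (y + y') / 2) ≤ (x - y') ^ 2 ≤ C' x`.
* `(a + 9 * logb 2 x) ^ 2 ≤ C' * x` for `x ≥ 1`, `a ≥ 0`: `logb 2 x ≤ 4 * √x`
  (`Real.log_le_sub_one_of_pos` for `√x`).
-/

namespace NotG

open Pool.Agent.Lib.Pe46137X

theorem logb_le_sqrt {x : ℝ} (hx : 1 ≤ x) : Real.logb 2 x ≤ 4 * √x := by
  have h0 : 0 < √x := Real.sqrt_pos.2 (by linarith)
  have h1 : Real.log √x ≤ √x - 1 := Real.log_le_sub_one_of_pos h0
  have h2 : Real.log √x = Real.log x / 2 := Real.log_sqrt (by linarith)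
  have h3 : (1 : ℝ) / 2 ≤ Real.log 2 := by
    have := Real.log_two_gt_d9
    linarith
  have h4 : 0 < Real.log 2 := by linarith
  rw [Real.logb, div_le_iff₀ h4]
  have h5 : 0 ≤ (Real.log 2 - 1 / 2) * (4 * √x) := mul_nonneg (by linarith) (by linarith)
  nlinarith [h5]

theorem sq_le {a x t : ℝ} (ha : 0 ≤ a) (hx : 1 ≤ x) (ht : 0 ≤ t)
    (h : t ≤ a + 9 * Real.logb 2 x) : t ^ 2 ≤ (a + 36) ^ 2 * x := by
  have h1 := logb_le_sqrt hx
  have h2 : 1 ≤ √x := by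
    rw [Real.one_le_sqrt]
    exact hx
  have h3 : t ≤ (a + 36) * √x := by
    have : a ≤ a * √x := le_mul_of_one_le_right ha h2
    linarith
  calc t ^ 2 ≤ ((a + 36) * √x) ^ 2 := pow_le_pow_left₀ ht h3 2
    _ = (a + 36) ^ 2 * x := by
      rw [mul_pow, Real.sq_sqrt (by linarith)]

theorem num_red (C : ℝ) (hC : 0 < C) : ∃ C' : ℝ, 0 < C' ∧ ∀ n ℓ : ℕ, 2 ≤ n → 1 ≤ ℓ → ℓ ≤ n →
    mainTerm n ℓ ≤ C' * errTerm n ℓ ∨
      ∃ ℓ' : ℕ, 2 ≤ ℓ' ∧ ℓ' ≤ ℓ ∧ C * Real.logb 2 n ^ 9 * ℓ' ≤ n ∧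
        mainTerm n ℓ ≤ mainTerm n ℓ' + C' * errTerm n ℓ ∧ errTerm n ℓ' ≤ errTerm n ℓ := by
  set a : ℝ := max 0 (Real.logb 2 (2 * C)) with ha
  have ha0 : 0 ≤ a := le_max_left _ _
  have ha1 : Real.logb 2 (2 * C) ≤ a := le_max_right _ _
  refine ⟨(a + 36) ^ 2, by positivity, fun n ℓ hn hℓ hℓn => ?_⟩
  have hn0 : (0 : ℝ) < n := by
    have : 0 < n := by omega
    exact_mod_cast this
  have hℓ0 : (0 : ℝ) < ℓ := by exact_mod_cast hℓ
  set x : ℝ := Real.logb 2 n with hx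
  set y : ℝ := Real.logb 2 ℓ with hy
  have hx1 : 1 ≤ x := by
    rw [hx, Real.le_logb_iff_rpow_le (by norm_num) hn0, Real.rpow_one]
    exact_mod_cast hn
  have hx0 : 0 < x := by linarith
  have hy0 : 0 ≤ y := Real.logb_nonneg (by norm_num) (by exact_mod_cast hℓ)
  have hyx : y ≤ x := Real.logb_le_logb_of_le (by norm_num) hℓ0 (by exact_mod_cast hℓn)
  have hlx : 0 ≤ Real.logb 2 x := Real.logb_nonneg (by norm_num) hx1
  have hE : x ≤ errTerm n ℓ := by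
    unfold errTerm
    rw [← hx, ← hy]
    have := mul_nonneg hy0 hlx
    linarith
  have hCx : (a + 36) ^ 2 * x ≤ (a + 36) ^ 2 * errTerm n ℓ :=
    mul_le_mul_of_nonneg_left hE (by positivity)
  have hx9 : 0 < C * x ^ 9 := by positivity
  have hlog9 : Real.logb 2 (2 * (C * x ^ 9)) = Real.logb 2 (2 * C) + 9 * Real.logb 2 x := by
    rw [← mul_assoc, Real.logb_mul (by positivity) (by positivity), Real.logb_pow]
    norm_num
  rcases Nat.lt_or_ge 1 ℓ with hℓ2 | hℓ2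
  swap
  · left
    have hℓ1 : ℓ = 1 := le_antisymm hℓ2 hℓ
    have hy1 : y = 0 := by rw [hy, hℓ1]; simp
    have h1 : mainTerm n ℓ = 0 := by
      unfold mainTerm
      rw [← hy, hy1]
      simp
    rw [h1]
    exact le_trans (by positivity) hCx
  rcases lt_or_ge (n : ℝ) (2 * (C * x ^ 9)) with hT | hT
  · left
    have h1 : x ≤ a + 9 * Real.logb 2 x := by
      have h2 : x ≤ Real.logb 2 (2 * (C * x ^ 9)) :=
        Real.logb_le_logb_of_le (by norm_num) hn0 hT.le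
      rw [hlog9] at h2
      linarith
    have h2 := sq_le ha0 hx1 hx0.le h1
    have h3 : mainTerm n ℓ ≤ x ^ 2 := by
      unfold mainTerm
      rw [← hx, ← hy]
      nlinarith [sq_nonneg y, mul_nonneg hx0.le (sub_nonneg.2 hyx)]
    linarith
  · right
    have hT2 : (2 : ℝ) ≤ n / (C * x ^ 9) := by
      rw [le_div_iff₀ hx9]
      exact hT
    have hT0 : (0 : ℝ) ≤ n / (C * x ^ 9) := by linarith
    have hf2 : 2 ≤ ⌊(n : ℝ) / (C * x ^ 9)⌋₊ := by
      apply Nat.le_floor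
      exact_mod_cast hT2
    rcases le_or_gt ℓ ⌊(n : ℝ) / (C * x ^ 9)⌋₊ with hlf | hlf
    · refine ⟨ℓ, hℓ2, le_rfl, ?_, ?_, le_rfl⟩
      · have h1 : (ℓ : ℝ) ≤ n / (C * x ^ 9) := (Nat.le_floor_iff hT0).1 hlf
        rw [le_div_iff₀ hx9] at h1
        linarith
      · have h1 : 0 ≤ (a + 36) ^ 2 * errTerm n ℓ := le_trans (by positivity) hCx
        linarith
    · set m : ℕ := ⌊(n : ℝ) / (C * x ^ 9)⌋₊ with hm
      have hm0 : (0 : ℝ) < m := by
        have : 0 < m := by omega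
        exact_mod_cast this
      have hmT : (m : ℝ) ≤ n / (C * x ^ 9) := Nat.floor_le hT0
      have hmT2 : (n : ℝ) / (C * x ^ 9) < m + 1 := Nat.lt_floor_add_one _
      have hmm : (n : ℝ) ≤ m * (2 * (C * x ^ 9)) := by
        have h1 : (2 : ℝ) ≤ m := by exact_mod_cast hf2
        rw [div_lt_iff₀ hx9] at hmT2
        nlinarith [hx9]
      set z : ℝ := Real.logb 2 m with hz
      have hzy : z ≤ y := Real.logb_le_logb_of_le (by norm_num) hm0 (by exact_mod_cast hlf.le)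
      have hz0 : 0 ≤ z := Real.logb_nonneg (by norm_num) (by
        have : 1 ≤ m := by omega
        exact_mod_cast this)
      have hxz : x - z ≤ a + 9 * Real.logb 2 x := by
        have h2 : x ≤ Real.logb 2 (m * (2 * (C * x ^ 9))) :=
          Real.logb_le_logb_of_le (by norm_num) hn0 hmm
        rw [Real.logb_mul (by positivity) (by positivity), hlog9, ← hz] at h2
        linarith
      have hsq := sq_le ha0 hx1 (by linarith : (0 : ℝ) ≤ x - z) hxz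
      refine ⟨m, hf2, hlf.le, ?_, ?_, ?_⟩
      · rw [le_div_iff₀ hx9] at hmT
        linarith
      · have h1 : mainTerm n ℓ - mainTerm n m ≤ (x - z) ^ 2 := by
          unfold mainTerm
          rw [← hx, ← hy, ← hz]
          nlinarith [mul_nonneg (sub_nonneg.2 hzy) (sub_nonneg.2 hyx),
            mul_nonneg (sub_nonneg.2 hzy) (sub_nonneg.2 hzy),
            mul_nonneg (sub_nonneg.2 hyx) (sub_nonneg.2 hyx), sq_nonneg (x - z)]
        linarith
      · unfold errTerm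
        rw [← hx, ← hy, ← hz]
        have := mul_le_mul_of_nonneg_right hzy hlx
        linarith

end NotG
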