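import Pool.Agent.Lib.NotG.Core
import Pool.Agent.Lib.NotG.Net
import Pool.Agent.Lib.NotG.FormB
import Pool.Agent.Lib.NotG.Num
import Pool.Agent.Lib.MTN.Final

/-!
# NotG.Low (MP_e46137_lc): lower bounds
-/

namespace NotG

open Finset Classical Pool.Agent.Lib.Pe46137 Pool.Agent.Lib.Pe46137X MonSize

/-- the arcs of `G` which do not have both ends in `{s, t}` -/
def inner {n : ℕ} (s t : Fin n) (G : Set (Fin n × Fin n)) : Set (Fin n × Fin n) :=
  {e | e ∈ G ∧ ¬ ((e.1 = s ∨ e.1 = t) ∧ (e.2 = s ∨ e.2 = t))}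

/-- `SolvesOn` for walks without arcs inside `{s, t}` -/
def SolvesIn {L n : ℕ} (𝒢 : Set (Fin n × Fin n) → Prop) (f : Set (Var L n) → Prop) (s t : Fin n)
    (ℓ : ℕ) : Prop :=
  ∀ X, (∀ i, 𝒢 (graph X i)) →
    ((∃ i, Within (inner s t (graph X i)) s t ℓ) → f X) ∧
      ((∀ i, ¬ Reachable (graph X i) s t) → ¬ f X)

namespace LowAux

theorem within_mono {n : ℕ} {G G' : Set (Fin n × Fin n)} (h : G ⊆ G') {s t : Fin n} {ℓ ℓ' : ℕ}
    (hℓ : ℓ ≤ ℓ') (hw : Within G s t ℓ) : Within G' s t ℓ' := by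
  obtain ⟨r, hr, w, h0, h1, h2⟩ := hw
  exact ⟨r, hr.trans hℓ, w, h0, h1, fun j hj => h (h2 j hj)⟩

theorem inner_sub {n : ℕ} (s t : Fin n) (G : Set (Fin n × Fin n)) : inner s t G ⊆ G :=
  fun _ h => h.1

theorem graph_lt {L n : ℕ} {i j : Fin L} (hj : j < i) (G : Fin L → Set (Fin n × Fin n))
    (H : Set (Fin n × Fin n)) : graph (level i G H) j = G j := by
  ext e
  constructor
  · rintro (h | h)
    · exact h.2
    · exact absurd h.1 hj.ne
  · intro h
    exact Or.inl ⟨hj, h⟩

theorem graph_self {L n : ℕ} (i : Fin L) (G : Fin L → Set (Fin n × Fin n))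
    (H : Set (Fin n × Fin n)) : graph (level i G H) i = H := by
  ext e
  constructor
  · rintro (h | h)
    · exact absurd h.1 (lt_irrefl i)
    · exact h.2
  · intro h
    exact Or.inr ⟨rfl, h⟩

theorem graph_gt {L n : ℕ} {i j : Fin L} (hj : i < j) (G : Fin L → Set (Fin n × Fin n))
    (H : Set (Fin n × Fin n)) : graph (level i G H) j = ∅ := by
  ext e
  constructor
  · rintro (h | h)
    · exact absurd h.1 hj.asymm
    · exact absurd h.1 hj.ne'
  · intro h
    exact h.elim

theorem graph_level {L n : ℕ} {i : Fin L} {G : Fin L → Set (Fin n × Fin n)}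
    {H : Set (Fin n × Fin n)} {p : Set (Fin n × Fin n) → Prop} (h1 : ∀ j < i, p (G j)) (h2 : p H)
    (h3 : p ∅) (j : Fin L) : p (graph (level i G H) j) := by
  rcases lt_trichotomy j i with h | h | h
  · rw [graph_lt h]
    exact h1 j h
  · rw [h, graph_self]
    exact h2
  · rw [graph_gt h]
    exact h3

theorem not_reach_cutArcs {n : ℕ} {C : Finset (Fin n)} {s t : Fin n} (hs : s ∈ C) (ht : t ∉ C) :
    ¬ Reachable (cutArcs C) s t := by
  have key : ∀ v, Reachable (cutArcs C) s v → v ∈ C := by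
    intro v h
    unfold Reachable at h
    induction h with
    | refl => exact hs
    | tail _ h2 ih =>
      by_contra hcon
      exact h2 ⟨ih, hcon⟩
  exact fun h => ht (key t h)

theorem not_reach_cutEdges {n : ℕ} {C : Finset (Fin n)} {s t : Fin n} (hs : s ∈ C) (ht : t ∉ C) :
    ¬ Reachable (cutEdges C) s t := by
  have key : ∀ v, Reachable (cutEdges C) s v → v ∈ C := by
    intro v h
    unfold Reachable at h
    induction h with
    | refl => exact hs
    | tail _ h2 ih => exact h2.1 ih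
  exact fun h => ht (key t h)

theorem not_reach_empty {n : ℕ} {s t : Fin n} (hst : s ≠ t) :
    ¬ Reachable (∅ : Set (Fin n × Fin n)) s t := by
  intro hr
  unfold Reachable at hr
  rcases Relation.ReflTransGen.cases_head hr with h5 | ⟨b, h5, -⟩
  · exact hst h5
  · exact h5

theorem undirected_cutEdges {n : ℕ} (C : Finset (Fin n)) : Undirected (cutEdges C) :=
  fun _ _ h => h.symm

theorem undirected_pathEdges {n r : ℕ} (s t : Fin n) (P : Fin r → Fin n) :
    Undirected (pathEdges s t P) := fun _ _ h => h.symm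

theorem undirected_empty {n : ℕ} : Undirected (∅ : Set (Fin n × Fin n)) := fun _ _ h => h.elim

theorem pathVertex_inner {n r : ℕ} {s t : Fin n} {P : Fin r → Fin n} (hP : P ∈ seqs n r s t)
    {q : ℕ} (hq : 1 ≤ q) (hqr : q ≤ r) :
    pathVertex s t P q ≠ s ∧ pathVertex s t P q ≠ t := by
  obtain ⟨i, rfl⟩ : ∃ i, q = i + 1 := ⟨q - 1, by omega⟩
  have hi : i < r := by omega
  have h1 : pathVertex s t P (i + 1) = P ⟨i, hi⟩ := by
    show (if h : i < r then P ⟨i, h⟩ else t) = _
    rw [dif_pos hi]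
  rw [h1]
  unfold seqs at hP
  rw [mem_filter] at hP
  exact hP.2.2 ⟨i, hi⟩

theorem within_inner_path {n d ℓ : ℕ} {s t : Fin n} (hd : 2 ≤ d) (hdℓ : d ≤ ℓ)
    {P : Fin (d - 1) → Fin n} (hP : P ∈ seqs n (d - 1) s t) :
    Within (inner s t (pathArcs s t P)) s t ℓ := by
  refine ⟨d, hdℓ, pathVertex s t P, rfl, ?_, ?_⟩
  · obtain ⟨e, rfl⟩ : ∃ e, d = e + 1 := ⟨d - 1, by omega⟩
    show (if h : e < e + 1 - 1 then P ⟨e, h⟩ else t) = t
    rw [dif_neg (by omega)]
  · intro j hj
    refine ⟨⟨j, by omega, rfl⟩, ?_⟩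
    rintro ⟨h1, h2⟩
    rcases Nat.eq_zero_or_pos j with h0 | h0
    · have := pathVertex_inner hP (q := j + 1) (by omega) (by omega)
      rcases h2 with h2 | h2
      · exact this.1 h2
      · exact this.2 h2
    · have := pathVertex_inner hP (q := j) (by omega) (by omega)
      rcases h1 with h1 | h1
      · exact this.1 h1
      · exact this.2 h1

theorem within_inner_path' {n d ℓ : ℕ} {s t : Fin n} (hd : 2 ≤ d) (hdℓ : d ≤ ℓ)
    {P : Fin (d - 1) → Fin n} (hP : P ∈ seqs n (d - 1) s t) :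
    Within (inner s t (pathEdges s t P)) s t ℓ := by
  refine within_mono ?_ le_rfl (within_inner_path hd hdℓ hP)
  exact fun e he => ⟨Or.inl he.1, he.2⟩

theorem mem_cuts {n : ℕ} {C : Finset (Fin n)} {s t : Fin n} (h : C ∈ cuts n s t) :
    s ∈ C ∧ t ∉ C := by
  unfold cuts at h
  rw [mem_filter] at h
  exact h.2

theorem cuts_nonempty {n : ℕ} {s t : Fin n} (hst : s ≠ t) : (cuts n s t).Nonempty := by
  refine ⟨{s}, ?_⟩
  unfold cuts
  rw [mem_filter]
  refine ⟨mem_univ _, mem_singleton_self _, ?_⟩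
  rw [mem_singleton]
  exact hst.symm

theorem seqs_nonempty {n r : ℕ} {s t : Fin n} (hst : s ≠ t) (h : r + 2 ≤ n) :
    (seqs n r s t).Nonempty := by
  have hcard : Fintype.card (Fin r) ≤ Fintype.card {x : Fin n // x ≠ s ∧ x ≠ t} := by
    rw [Fintype.card_fin, Fintype.card_subtype]
    have h1 : (univ.filter fun x : Fin n => x ≠ s ∧ x ≠ t) = univ \ {s, t} := by
      ext x
      simp
    rw [h1, card_sdiff_of_subset (subset_univ _), card_pair hst, card_univ, Fintype.card_fin]
    omega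
  obtain ⟨f⟩ := Function.Embedding.nonempty_of_card_le hcard
  refine ⟨fun i => (f i).1, ?_⟩
  rw [seqs, mem_filter]
  exact ⟨mem_univ _, fun i j hij => f.injective (Subtype.ext hij), fun i => (f i).2⟩

/-- a function that accepts the first and rejects the second distribution has advantage one -/
theorem advL_eq_one {L n : ℕ} (hL : 1 ≤ L) {f : Set (Var L n) → Prop} {d : ℕ} {s t : Fin n}
    {g : (Fin (d - 1) → Fin n) → Set (Fin n × Fin n)} {h : Finset (Fin n) → Set (Fin n × Fin n)}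
    (hA : (seqs n (d - 1) s t).Nonempty) (hB : (cuts n s t).Nonempty)
    (h1 : ∀ (i : Fin L) (C : Fin L → Finset (Fin n)), (∀ j, C j ∈ cuts n s t) →
      ∀ P ∈ seqs n (d - 1) s t, f (level i (fun j => h (C j)) (g P)))
    (h2 : ∀ (i : Fin L) (C : Fin L → Finset (Fin n)), (∀ j, C j ∈ cuts n s t) →
      ¬ f (level i (fun j => h (C j)) (h (C i)))) : advL f d s t g h = 1 := by
  obtain ⟨S, hS⟩ : ∃ S, S = Fintype.piFinset (fun _ : Fin L => cuts n s t) := ⟨_, rfl⟩
  have hmem : ∀ C, C ∈ S ↔ ∀ j, C j ∈ cuts n s t := by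
    intro C
    rw [hS]
    exact Fintype.mem_piFinset
  have hSne : S.Nonempty := by
    obtain ⟨b, hb⟩ := hB
    exact ⟨fun _ => b, (hmem _).2 fun _ => hb⟩
  have hprod : (0 : ℝ) < (S ×ˢ seqs n (d - 1) s t).card := by
    exact_mod_cast card_pos.2 (hSne.product hA)
  have hL0 : (0 : ℝ) < L := by exact_mod_cast hL
  unfold advL
  rw [← hS]
  have hone : ∀ i : Fin L,
      (((S ×ˢ seqs n (d - 1) s t).filter
        (fun z => f (level i (fun j => h (z.1 j)) (g z.2)))).card : ℝ) /
      (S ×ˢ seqs n (d - 1) s t).card -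
      ((S.filter (fun C => f (level i (fun j => h (C j)) (h (C i))))).card : ℝ) / S.card = 1 := by
    intro i
    rw [filter_true_of_mem, filter_false_of_mem]
    · rw [div_self hprod.ne']
      simp
    · intro C hC
      exact h2 i C ((hmem C).1 hC)
    · rintro ⟨C, P⟩ hz
      rw [mem_product] at hz
      exact h1 i C ((hmem C).1 hz.1) P hz.2
  rw [sum_congr rfl fun i _ => hone i, sum_const, card_univ, Fintype.card_fin, nsmul_eq_mul,
    mul_one, div_self hL0.ne']

end LowAux

open LowAux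

/-- **Average case.** -/
theorem avg : ∃ C : ℝ, 2 ≤ C ∧ ∀ (n : ℕ) (s t : Fin n), s ≠ t → ∀ ℓ : ℕ, 1 ≤ ℓ → ℓ ≤ n →
    C * Real.logb 2 n ^ 9 * ℓ ≤ n → ∀ L W m : ℕ, 1 ≤ L → ∀ F : Set (Var L n) → Prop,
      (Loc (ByForm m) W F → advL F ℓ s t (pathEdges s t) cutEdges ≤
        ((W : ℝ) - 1) / L + W * m * (2 : ℝ) ^ (-(mainTerm n ℓ - C * errTerm n ℓ))) ∧
      (Loc (ByNet m) W F → advL F ℓ s t (pathArcs s t) cutArcs ≤
        ((W : ℝ) - 1) / L + W * m * (2 : ℝ) ^ (-(mainTerm n ℓ - C * errTerm n ℓ))) := by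
  obtain ⟨C, hC, h⟩ := MTN.final
  refine ⟨C + 2, by linarith, ?_⟩
  intro n s t hst ℓ hℓ hℓn hcond L W m hL F
  have hn : 2 ≤ n := by
    by_contra hc
    have : n = 0 ∨ n = 1 := by omega
    rcases this with rfl | rfl
    · exact s.elim0
    · exact hst (Subsingleton.elim s t)
  obtain ⟨l1, -, -⟩ := MTN.UFormAux.log_facts hn
  obtain ⟨-, -, -, hE1, -, -, -⟩ := MTN.UFormAux.small hn hℓ hℓn
  have hE0 : 0 ≤ errTerm n ℓ := by linarith
  have hlog9 : (1 : ℝ) ≤ Real.logb 2 n ^ 9 := one_le_pow₀ l1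
  have hℓ1 : (1 : ℝ) ≤ ℓ := by exact_mod_cast hℓ
  have hcond1 : C * Real.logb 2 n ^ 9 * ℓ ≤ n := by
    refine le_trans ?_ hcond
    apply mul_le_mul_of_nonneg_right _ (by linarith)
    apply mul_le_mul_of_nonneg_right _ (by linarith)
    linarith
  have hcond2 : ℓ + 1 ≤ n := by
    have h1 : (2 : ℝ) * ℓ ≤ n := by
      refine le_trans ?_ hcond
      apply mul_le_mul_of_nonneg_right _ (by linarith)
      nlinarith
    have h2 : 2 * ℓ ≤ n := by exact_mod_cast h1
    omega
  obtain ⟨-, -, h3⟩ := h n s t hst ℓ hℓ hℓn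
  have hA := LowAux.seqs_nonempty (r := ℓ - 1) hst (by omega)
  have hB := LowAux.cuts_nonempty hst
  have hL0 : (0 : ℝ) < L := by exact_mod_cast hL
  have hexp : ∀ a : ℕ, (a : ℝ) * (2 : ℝ) ^ (-(mainTerm n ℓ - C * errTerm n ℓ)) ≤
      a * (2 : ℝ) ^ (-(mainTerm n ℓ - (C + 2) * errTerm n ℓ)) := by
    intro a
    apply mul_le_mul_of_nonneg_left _ (Nat.cast_nonneg _)
    apply Real.rpow_le_rpow_of_exponent_le (by norm_num)
    nlinarith
  constructor
  · intro hF
    have h4 := core hA hB (pathEdges s t) cutEdges hF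
      (δ := W * m * (2 : ℝ) ^ (-(mainTerm n ℓ - (C + 2) * errTerm n ℓ))) (by
        intro f hf i G
        have h5 := (h3 hcond1 (W * m) (fun H => f (level i G H))).1
          (byForm_level (byForm_or hf) i G)
        refine (le_trans h5 (hexp (W * m))).trans (le_of_eq ?_)
        push_cast
        ring)
    unfold advL
    rw [div_le_iff₀ hL0]
    refine h4.trans (le_of_eq ?_)
    field_simp
    ring
  · intro hF
    have h4 := core hA hB (pathArcs s t) cutArcs hF
      (δ := W * m * (2 : ℝ) ^ (-(mainTerm n ℓ - (C + 2) * errTerm n ℓ))) (by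
        intro f hf i G
        have h5 := (h3 hcond1 (W * m) (fun H => f (level i G H))).2
          (byNet_level (byNet_or hf) i G)
        refine (le_trans h5 (hexp (W * m))).trans (le_of_eq ?_)
        push_cast
        ring)
    unfold advL
    rw [div_le_iff₀ hL0]
    refine h4.trans (le_of_eq ?_)
    field_simp
    ring

/-- **Worst case.** -/
theorem low : ∃ C : ℝ, 0 < C ∧ ∀ (n : ℕ) (s t : Fin n), s ≠ t → ∀ ℓ : ℕ, 1 ≤ ℓ → ℓ ≤ n →
    ∀ L W m : ℕ, 1 ≤ L → W ≤ L → ∀ F : Set (Var L n) → Prop,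
      (Loc (ByForm m) W F ∧ SolvesIn Undirected F s t ℓ ∨
        Loc (ByNet m) W F ∧ SolvesIn (fun _ => True) F s t ℓ) →
      mainTerm n ℓ - C * (errTerm n ℓ + Real.logb 2 L) ≤ Real.logb 2 m := by
  obtain ⟨C₀, hC₀, havg⟩ := avg
  obtain ⟨C', hC', hred⟩ := num_red C₀ (by linarith)
  refine ⟨C₀ + C' + 2, by linarith, ?_⟩
  intro n s t hst ℓ hℓ hℓn L W m hL hWL F hF
  have hn : 2 ≤ n := by
    by_contra hc
    have : n = 0 ∨ n = 1 := by omega
    rcases this with rfl | rfl
    · exact s.elim0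
    · exact hst (Subsingleton.elim s t)
  obtain ⟨l1, -, -⟩ := MTN.UFormAux.log_facts hn
  obtain ⟨-, -, -, hE1, -, -, -⟩ := MTN.UFormAux.small hn hℓ hℓn
  have hL1 : (1 : ℝ) ≤ L := by exact_mod_cast hL
  have hL0 : (0 : ℝ) < L := by linarith
  have hlogL : 0 ≤ Real.logb 2 (L : ℝ) := Real.logb_nonneg (by norm_num) hL1
  have hm0 : 0 ≤ Real.logb 2 (m : ℝ) := by
    rcases Nat.eq_zero_or_pos m with h | h
    · rw [h]
      simp
    · exact Real.logb_nonneg (by norm_num) (by exact_mod_cast h)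
  rcases hred n ℓ hn hℓ hℓn with h1 | ⟨ℓ', h2, h3, hcond, h5, h6⟩
  · have h7 : 0 ≤ (C₀ + 2) * errTerm n ℓ := mul_nonneg (by linarith) (by linarith)
    have h8 : 0 ≤ (C₀ + C' + 2) * Real.logb 2 (L : ℝ) := mul_nonneg (by linarith) hlogL
    nlinarith
  · obtain ⟨-, -, -, hE1', -, -, -⟩ := MTN.UFormAux.small hn (by omega : 1 ≤ ℓ')
      (h3.trans hℓn)
    obtain ⟨hf, hg⟩ := havg n s t hst ℓ' (by omega) (h3.trans hℓn) hcond L W m hL F
    have hcond2 : ℓ' + 1 ≤ n := by
      have hlog9 : (1 : ℝ) ≤ Real.logb 2 n ^ 9 := one_le_pow₀ l1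
      have h1 : (2 : ℝ) * ℓ' ≤ n := by
        refine le_trans ?_ hcond
        apply mul_le_mul_of_nonneg_right _ (Nat.cast_nonneg _)
        nlinarith
      have h2 : 2 * ℓ' ≤ n := by exact_mod_cast h1
      omega
    have hA := LowAux.seqs_nonempty (r := ℓ' - 1) hst (by omega)
    have hB := LowAux.cuts_nonempty hst
    have hone : (1 : ℝ) ≤ ((W : ℝ) - 1) / L +
        W * m * (2 : ℝ) ^ (-(mainTerm n ℓ' - C₀ * errTerm n ℓ')) := by
      rcases hF with ⟨hloc, hsol⟩ | ⟨hloc, hsol⟩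
      · refine le_trans (le_of_eq ?_) (hf hloc)
        symm
        apply advL_eq_one hL hA hB
        · intro i C hC P hP
          refine (hsol _ ?_).1 ⟨i, ?_⟩
          · exact graph_level (fun j _ => undirected_cutEdges _) (undirected_pathEdges s t P)
              undirected_empty
          · rw [graph_self]
            exact within_inner_path' h2 h3 hP
        · intro i C hC
          refine (hsol _ ?_).2 ?_
          · exact graph_level (fun j _ => undirected_cutEdges _) (undirected_cutEdges _)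
              undirected_empty
          · refine graph_level (p := fun G => ¬ Reachable G s t) (fun j _ => ?_) ?_ ?_
            · exact not_reach_cutEdges (mem_cuts (hC j)).1 (mem_cuts (hC j)).2
            · exact not_reach_cutEdges (mem_cuts (hC i)).1 (mem_cuts (hC i)).2
            · exact not_reach_empty hst
      · refine le_trans (le_of_eq ?_) (hg hloc)
        symm
        apply advL_eq_one hL hA hB
        · intro i C hC P hP
          refine (hsol _ fun _ => trivial).1 ⟨i, ?_⟩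
          rw [graph_self]
          exact within_inner_path h2 h3 hP
        · intro i C hC
          refine (hsol _ fun _ => trivial).2 ?_
          refine graph_level (p := fun G => ¬ Reachable G s t) (fun j _ => ?_) ?_ ?_
          · exact not_reach_cutArcs (mem_cuts (hC j)).1 (mem_cuts (hC j)).2
          · exact not_reach_cutArcs (mem_cuts (hC i)).1 (mem_cuts (hC i)).2
          · exact not_reach_empty hst
    obtain ⟨x, hx⟩ : ∃ x, x = mainTerm n ℓ' - C₀ * errTerm n ℓ' := ⟨_, rfl⟩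
    rw [← hx] at hone
    have hpow : (0 : ℝ) < (2 : ℝ) ^ (-x) := by positivity
    have hWL' : (W : ℝ) ≤ L := by exact_mod_cast hWL
    -- `1 ≤ L * L * m * 2 ^ (-x)`
    have hbig : (1 : ℝ) ≤ L * L * m * (2 : ℝ) ^ (-x) := by
      have h7 : ((W : ℝ) - 1) / L ≤ 1 - 1 / L := by
        rw [div_le_iff₀ hL0]
        field_simp
        linarith
      have h8 : 1 / (L : ℝ) ≤ W * m * (2 : ℝ) ^ (-x) := by linarith
      rw [div_le_iff₀ hL0] at h8
      have h9 : (W : ℝ) * m * (2 : ℝ) ^ (-x) * L ≤ L * m * (2 : ℝ) ^ (-x) * L := by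
        apply mul_le_mul_of_nonneg_right _ hL0.le
        apply mul_le_mul_of_nonneg_right _ hpow.le
        exact mul_le_mul_of_nonneg_right hWL' (Nat.cast_nonneg _)
      linarith
    have hmpos : 0 < m := by
      rcases Nat.eq_zero_or_pos m with h | h
      · exfalso
        rw [h] at hbig
        simp at hbig
        linarith
      · exact h
    have hmpos' : (0 : ℝ) < m := by exact_mod_cast hmpos
    have hlog : x ≤ Real.logb 2 (L * L * m) := by
      rw [Real.le_logb_iff_rpow_le (by norm_num) (by positivity)]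
      rw [Real.rpow_neg (by norm_num), ← div_eq_mul_inv, le_div_iff₀ (by positivity)] at hbig
      linarith
    rw [Real.logb_mul (by positivity) hmpos'.ne', Real.logb_mul hL0.ne' hL0.ne'] at hlog
    have h10 : C₀ * errTerm n ℓ' ≤ C₀ * errTerm n ℓ :=
      mul_le_mul_of_nonneg_left h6 (by linarith)
    have h11 : 0 ≤ (C₀ + C') * Real.logb 2 (L : ℝ) := mul_nonneg (by linarith) hlogL
    nlinarith

end NotG
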