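import Pool.Agent.Lib.MTN.Stmt
import Pool.Agent.Lib.Pe46137X.NumDefs

/-!
# NotG.Stmt (MP_e46137_lc): the definitions of the statement about NOT gates

Inputs are `L` digraphs on `Fin n`. Circuits with NOT gates and adaptive programs of monotone
switching networks for the problem: accept if one of the digraphs has a short walk from `s` to `t`,
reject if `t` is unreachable from `s` in all of them.
-/

namespace NotG

open Pool.Agent.Lib.Pe46137 Pool.Agent.Lib.Pe46137X MonSize

/-- the variables of `L` digraphs on `Fin n`: `(i, e)` says that `e` is an arc of the `i`-th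
digraph -/
abbrev Var (L n : ℕ) : Type := Fin L × (Fin n × Fin n)

/-- the arc set of the `i`-th digraph of the input `X` -/
def graph {L n : ℕ} (X : Set (Var L n)) (i : Fin L) : Set (Fin n × Fin n) := {e | (i, e) ∈ X}

/-- On all inputs whose `L` digraphs belong to `𝒢`, `f` accepts if one of the digraphs has a walk of
at most `ℓ` arcs from `s` to `t`, and rejects if `t` is reachable from `s` in none of them. -/
def SolvesOn {L n : ℕ} (𝒢 : Set (Fin n × Fin n) → Prop) (f : Set (Var L n) → Prop) (s t : Fin n)
    (ℓ : ℕ) : Prop :=
  ∀ X, (∀ i, 𝒢 (graph X i)) →
    ((∃ i, Within (graph X i) s t ℓ) → f X) ∧ ((∀ i, ¬ Reachable (graph X i) s t) → ¬ f X)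

/-- Gates of circuits over variables indexed by `E`. A circuit is a list of gates, its head is the
output gate; `and i j`, `or i j` and `not i` read the `i`-th and the `j`-th gate of the rest of the
list (the gates behind them, counted from `0`). -/
inductive Gate (E : Type) : Type
  | const : Bool → Gate E
  | var : E → Gate E
  | and : ℕ → ℕ → Gate E
  | or : ℕ → ℕ → Gate E
  | not : ℕ → Gate E

section
variable {E : Type}

/-- the values of all gates of a circuit on the input `X` -/
def values (X : Set E) : List (Gate E) → List Prop
  | [] => []
  | Gate.const b :: c => (b = true) :: values X c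
  | Gate.var e :: c => (e ∈ X) :: values X c
  | Gate.and i j :: c => ((values X c).getD i False ∧ (values X c).getD j False) :: values X c
  | Gate.or i j :: c => ((values X c).getD i False ∨ (values X c).getD j False) :: values X c
  | Gate.not i :: c => (¬ (values X c).getD i False) :: values X c

/-- the function computed by a circuit: the value of the output gate -/
def Computes (c : List (Gate E)) (X : Set E) : Prop := (values X c).getD 0 False

/-- the depths of all gates: largest number of AND and OR gates on a path that ends there (NOT gates
are free) -/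
def depths : List (Gate E) → List ℕ
  | [] => []
  | Gate.const _ :: c => 0 :: depths c
  | Gate.var _ :: c => 0 :: depths c
  | Gate.and i j :: c => (max ((depths c).getD i 0) ((depths c).getD j 0) + 1) :: depths c
  | Gate.or i j :: c => (max ((depths c).getD i 0) ((depths c).getD j 0) + 1) :: depths c
  | Gate.not i :: c => (depths c).getD i 0 :: depths c

/-- the depth of a circuit: the largest depth of a gate -/
def depth (c : List (Gate E)) : ℕ := (depths c).foldr max 0

/-- the negation levels of all gates: largest number of NOT gates on a path that ends there -/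
def levels : List (Gate E) → List ℕ
  | [] => []
  | Gate.const _ :: c => 0 :: levels c
  | Gate.var _ :: c => 0 :: levels c
  | Gate.and i j :: c => max ((levels c).getD i 0) ((levels c).getD j 0) :: levels c
  | Gate.or i j :: c => max ((levels c).getD i 0) ((levels c).getD j 0) :: levels c
  | Gate.not i :: c => ((levels c).getD i 0 + 1) :: levels c

/-- the negation levels of the NOT gates -/
def notLevels : List (Gate E) → List ℕ
  | [] => []
  | Gate.not i :: c => ((levels c).getD i 0 + 1) :: notLevels c
  | _ :: c => notLevels c

/-- the product of the numbers `k j + 1`, where `k j` is the number of NOT gates of negation level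
`j` -/
def negCost (c : List (Gate E)) : ℕ :=
  ∏ j ∈ Finset.range (c.length + 1), ((notLevels c).count j + 1)

/-- formulas with NOT gates over variables indexed by `E` -/
inductive NFormula (E : Type) : Type
  | const : Bool → NFormula E
  | var : E → NFormula E
  | and : NFormula E → NFormula E → NFormula E
  | or : NFormula E → NFormula E → NFormula E
  | not : NFormula E → NFormula E

/-- the value of a formula on the input `X` -/
def NFormula.Eval : NFormula E → Set E → Prop
  | const b, _ => b = true
  | var e, X => e ∈ X
  | and F F', X => F.Eval X ∧ F'.Eval X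
  | or F F', X => F.Eval X ∨ F'.Eval X
  | not F, X => ¬ F.Eval X

/-- number of leaves that carry a variable -/
def NFormula.leaves : NFormula E → ℕ
  | const _ => 0
  | var _ => 1
  | and F F' => F.leaves + F'.leaves
  | or F F' => F.leaves + F'.leaves
  | not F => F.leaves

/-- number of NOT gates -/
def NFormula.nots : NFormula E → ℕ
  | const _ => 0
  | var _ => 0
  | and F F' => F.nots + F'.nots
  | or F F' => F.nots + F'.nots
  | not F => F.nots + 1

/-- Adaptive programs: in each round a number of functions of the class `𝓜` are asked in parallel,
depending on the answers of the earlier rounds, and finally the answer is given by a function of the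
class; the list says how many functions are asked in each round. -/
inductive Adaptive (𝓜 : (Set E → Prop) → Prop) : List ℕ → (Set E → Prop) → Prop
  | answer {f : Set E → Prop} : 𝓜 f → Adaptive 𝓜 [] f
  | ask {k : ℕ} {ks : List ℕ} (g : Fin k → Set E → Prop) (f : (Fin k → Prop) → Set E → Prop) :
      (∀ i, 𝓜 (g i)) → (∀ a, Adaptive 𝓜 ks (f a)) →
      Adaptive 𝓜 (k :: ks) (fun X => f (fun i => g i X) X)

/-- the class of the functions computed by a formula without NOT gates with at most `m` leaves -/
def ByMono (m : ℕ) (f : Set E → Prop) : Prop :=
  ∃ F : NFormula E, F.nots = 0 ∧ F.leaves ≤ m ∧ ∀ X, f X ↔ F.Eval X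

/-- the class of the functions computed by a monotone switching network with `m` states -/
def ByNet (m : ℕ) (f : Set E → Prop) : Prop :=
  ∃ N : SwitchingNetwork E (Fin m), IsMonotone N ∧ ∀ X, f X ↔ N.Connects X Xᶜ

end

/-- least depth of a circuit with negation cost at most `W` that solves the problem for all digraphs
in `𝒢` -/
noncomputable def circuitDepth {n : ℕ} (𝒢 : Set (Fin n × Fin n) → Prop) (L W : ℕ) (s t : Fin n)
    (ℓ : ℕ) : ℕ :=
  sInf {d | ∃ c : List (Gate (Var L n)), negCost c ≤ W ∧ SolvesOn 𝒢 (Computes c) s t ℓ ∧
    depth c = d}

/-- least number of leaves of a formula with at most `T` NOT gates that solves the problem for all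
digraphs in `𝒢` -/
noncomputable def formulaLeaves {n : ℕ} (𝒢 : Set (Fin n × Fin n) → Prop) (L T : ℕ) (s t : Fin n)
    (ℓ : ℕ) : ℕ :=
  sInf {m | ∃ F : NFormula (Var L n), F.nots ≤ T ∧ SolvesOn 𝒢 F.Eval s t ℓ ∧ F.leaves = m}

/-- least `m` such that the problem for all digraphs in `𝒢` is solved by an adaptive program over the
class `𝓜 m` with `∏ (k j + 1) ≤ W`, where `k j` is the number of functions asked in round `j` -/
noncomputable def programSize {n : ℕ} (L : ℕ) (𝓜 : ℕ → (Set (Var L n) → Prop) → Prop)
    (𝒢 : Set (Fin n × Fin n) → Prop) (W : ℕ) (s t : Fin n) (ℓ : ℕ) : ℕ :=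
  sInf {m | ∃ (ks : List ℕ) (f : Set (Var L n) → Prop), (ks.map (· + 1)).prod ≤ W ∧
    Adaptive (𝓜 m) ks f ∧ SolvesOn 𝒢 f s t ℓ}

/-- the digraphs before the `i`-th are given by `G`, the `i`-th is `H`, those after it are empty -/
def level {L n : ℕ} (i : Fin L) (G : Fin L → Set (Fin n × Fin n)) (H : Set (Fin n × Fin n)) :
    Set (Var L n) :=
  {x | (x.1 < i ∧ x.2 ∈ G x.1) ∨ (x.1 = i ∧ x.2 ∈ H)}

open Classical in
/-- The average over `i` of: the probability that `f` accepts if the digraphs before the `i`-th are
`h C` for independent uniformly random sets `C` of vertices which contain `s` but not `t`, the `i`-th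
digraph is `g P`, `P` a uniformly random sequence of `d - 1` inner vertices of a path of length `d`
from `s` to `t`, and the others are empty, minus the same probability with `h C` in place of `g P`. -/
noncomputable def advL {L n : ℕ} (f : Set (Var L n) → Prop) (d : ℕ) (s t : Fin n)
    (g : (Fin (d - 1) → Fin n) → Set (Fin n × Fin n)) (h : Finset (Fin n) → Set (Fin n × Fin n)) :
    ℝ :=
  (∑ i : Fin L,
    ((((Fintype.piFinset (fun _ : Fin L => cuts n s t) ×ˢ seqs n (d - 1) s t).filter
        (fun z => f (level i (fun j => h (z.1 j)) (g z.2)))).card : ℝ) /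
      (Fintype.piFinset (fun _ : Fin L => cuts n s t) ×ˢ seqs n (d - 1) s t).card -
    (((Fintype.piFinset (fun _ : Fin L => cuts n s t)).filter
        (fun C => f (level i (fun j => h (C j)) (h (C i))))).card : ℝ) /
      (Fintype.piFinset (fun _ : Fin L => cuts n s t)).card)) / L

end NotG
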